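import Mathlib

section

set_option autoImplicit false

/-!
End-homogenisation and the resulting Ramsey theorems (infinite and finite) for decreasing lists.
-/

namespace Pool.Agent.MP_71094f_lc.H37

open Set

section StepUp

variable {K A C : Type} [LinearOrder K] [WellFoundedLT K] [LinearOrder A] [WellFoundedLT A]

/-- Candidates for the next term of the canonical sequence. -/
def cand (r : ℕ) (f : List A → C) (y : A) (j : K) (u : K → A) : Set A :=
  {z | (∀ i, i < j → u i < z) ∧ ∀ s : List K, s.length ≤ r → (∀ i ∈ s, i < j) →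
    f (z :: s.map u) = f (y :: s.map u)}

open Classical in
/-- One step of the canonical sequence. -/
noncomputable def nxt (r : ℕ) (f : List A → C) (y : A) (j : K) (u : K → A) : A :=
  if h : (cand r f y j u).Nonempty then wellFounded_lt.min _ h else y

omit [WellFoundedLT K] [WellFoundedLT A] in
lemma cand_congr (r : ℕ) (f : List A → C) (y : A) (j : K) {u u' : K → A}
    (h : ∀ i, i < j → u i = u' i) : cand r f y j u = cand r f y j u' := by
  ext z
  simp only [cand, mem_ofPred_eq]
  refine and_congr (forall₂_congr fun i hi => by rw [h i hi]) (forall₃_congr fun s _ hs => ?_)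
  rw [List.map_congr_left (fun i hi => h i (hs i hi))]

open Classical in
/-- The canonical sequence towards `y`. -/
noncomputable def cseq (r : ℕ) (f : List A → C) (y : A) : K → A :=
  (wellFounded_lt (α := K)).fix fun j rec => nxt r f y j fun i => if h : i < j then rec i h else y

lemma cseq_eq (r : ℕ) (f : List A → C) (y : A) (j : K) :
    cseq r f y j = nxt r f y j (cseq r f y) := by
  unfold cseq
  rw [WellFounded.fix_eq]
  unfold nxt
  rw [cand_congr r f y j (u' := (wellFounded_lt (α := K)).fix fun j rec =>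
    nxt r f y j fun i => if h : i < j then rec i h else y) (fun i hi => by rw [dif_pos hi]; rfl)]
  rfl

lemma cseq_spec (r : ℕ) (f : List A → C) (y : A) (j : K) (h : ∀ i, i < j → cseq r f y i < y) :
    cseq r f y j ∈ cand r f y j (cseq r f y) ∧ ∀ z ∈ cand r f y j (cseq r f y), cseq r f y j ≤ z := by
  have hy : y ∈ cand r f y j (cseq r f y) := ⟨h, fun _ _ _ => rfl⟩
  have hne : (cand r f y j (cseq r f y)).Nonempty := ⟨y, hy⟩
  have e : cseq r f y j = wellFounded_lt.min _ hne := by
    rw [cseq_eq]; unfold nxt; rw [dif_pos hne]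
  rw [e]
  exact ⟨wellFounded_lt.min_mem _ hne, fun z hz => not_lt.mp (wellFounded_lt.not_lt_min _ hz)⟩

theorem stepUp (r : ℕ) (f : List A → C)
    (hcard : ∀ c : A → K × ({l : List K // l.length ≤ r} → C), ¬ Function.Injective c) :
    ∃ (x : K → A) (y : A), StrictMono x ∧ ∀ j, ∀ s : List K, s.length ≤ r → (∀ i ∈ s, i < j) →
      f (x j :: s.map x) = f (y :: s.map x) := by
  by_contra hcon
  have h1 : ∀ y : A, ∃ j : K, ¬ cseq r f y j < y := by
    intro y
    by_contra h
    push Not at h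
    refine hcon ⟨cseq r f y, y, fun i j hij => ?_, fun j => ?_⟩
    · exact (cseq_spec r f y j fun i _ => h i).1.1 i hij
    · exact (cseq_spec r f y j fun i _ => h i).1.2
  let J : A → K := fun y => wellFounded_lt.min {j | ¬ cseq r f y j < y} (h1 y)
  have hJ1 : ∀ y i, i < J y → cseq r f y i < y := by
    intro y i hi
    by_contra h
    exact wellFounded_lt.not_lt_min {j | ¬ cseq r f y j < y} h hi
  have hJ2 : ∀ y, cseq r f y (J y) = y := by
    intro y
    have h2 : ¬ cseq r f y (J y) < y := wellFounded_lt.min_mem {j | ¬ cseq r f y j < y} (h1 y)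
    exact le_antisymm ((cseq_spec r f y (J y) (hJ1 y)).2 y ⟨hJ1 y, fun _ _ _ => rfl⟩) (not_lt.mp h2)
  refine hcard (fun y => (J y, fun s => f (y :: s.1.map (cseq r f y)))) fun y y' hyy => ?_
  have e1 : J y = J y' := congrArg Prod.fst hyy
  have e2 : ∀ s : List K, s.length ≤ r →
      f (y :: s.map (cseq r f y)) = f (y' :: s.map (cseq r f y')) := fun s hs =>
    congrFun (congrArg Prod.snd hyy) ⟨s, hs⟩
  have key : ∀ j, j ≤ J y → cseq r f y j = cseq r f y' j := by
    intro j
    induction j using WellFoundedLT.induction with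
    | _ j ih =>
    intro hj
    have hc : cand r f y j (cseq r f y) = cand r f y' j (cseq r f y') := by
      rw [← cand_congr r f y' j (fun i hi => ih i hi (hi.le.trans hj))]
      ext z
      simp only [cand, mem_ofPred_eq]
      refine and_congr_right fun _ => forall₃_congr fun s hs hs' => ?_
      rw [e2 s hs, List.map_congr_left (fun i hi => (ih i (hs' i hi) ((hs' i hi).le.trans hj)).symm)]
    have s1 := cseq_spec r f y j fun i hi => hJ1 y i (hi.trans_le hj)
    have s2 := cseq_spec r f y' j fun i hi => hJ1 y' i (e1 ▸ hi.trans_le hj)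
    rw [hc] at s1
    exact le_antisymm (s1.2 _ s2.1) (s2.2 _ s1.1)
  rw [← hJ2 y, key _ le_rfl, e1, hJ2]

end StepUp

lemma exists_big (T : Type) : ∃ (A : Type) (_ : LinearOrder A), WellFoundedLT A ∧
    (Finite T → Finite A) ∧ ∀ c : A → T, ¬ Function.Injective c := by
  obtain ⟨o, ho⟩ := exists_wellFoundedLT (Set T)
  exact ⟨Set T, o, ho, fun _ => inferInstance, fun c => Function.cantor_injective c⟩

/-- Homogeneous sets for decreasing lists of bounded length. -/
theorem exists_hom (r : ℕ) (C : Type) : ∀ (K : Type) [LinearOrder K] [WellFoundedLT K],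
    ∃ (A : Type) (_ : LinearOrder A), WellFoundedLT A ∧ (Finite K → Finite C → Finite A) ∧
      ∀ f : List A → C, ∃ H : K → A, StrictMono H ∧ ∀ l l' : List K, l.Pairwise (· > ·) →
        l'.Pairwise (· > ·) → l.length = l'.length → l.length ≤ r →
        f (l.map H) = f (l'.map H) := by
  induction r with
  | zero =>
    intro K _ _
    refine ⟨K, inferInstance, inferInstance, fun h _ => h, fun f => ⟨id, strictMono_id, ?_⟩⟩
    intro l l' _ _ h1 h2
    have e1 : l = [] := List.length_eq_zero_iff.mp (by omega)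
    have e2 : l' = [] := List.length_eq_zero_iff.mp (by omega)
    rw [e1, e2]
  | succ r ih =>
    intro K _ _
    obtain ⟨K', _, hwf, hfin, hK'⟩ := ih K
    obtain ⟨A, o, ho, hA, hA'⟩ := exists_big (K' × ({l : List K' // l.length ≤ r} → C))
    refine ⟨A, o, ho, fun h1 h2 => hA ?_, fun f => ?_⟩
    · have := hfin h1 h2
      have : Finite {l : List K' // l.length ≤ r} := (List.finite_length_le K' r).to_subtype
      infer_instance
    · obtain ⟨x, y, hx, hxy⟩ := stepUp r f hA'
      obtain ⟨H, hH, hH'⟩ := hK' fun s => f (y :: s.map x)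
      refine ⟨x ∘ H, hx.comp hH, fun l l' h1 h2 h3 h4 => ?_⟩
      have aux : ∀ (j : K) (s : List K), (j :: s).Pairwise (· > ·) → s.length ≤ r →
          f ((j :: s).map (x ∘ H)) = f (y :: (s.map H).map x) := by
        intro j s hs hl
        have := hxy (H j) (s.map H) (by simpa using hl) (by
          intro i hi
          obtain ⟨k, hk, rfl⟩ := List.mem_map.mp hi
          exact hH ((List.pairwise_cons.mp hs).1 k hk))
        rw [← this]; simp
      match l, l', h1, h2, h3, h4 with
      | [], [], _, _, _, _ => rfl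
      | j :: s, j' :: s', h1, h2, h3, h4 =>
        simp only [List.length_cons] at h3 h4
        rw [aux j s h1 (by omega), aux j' s' h2 (by omega)]
        exact hH' s s' (List.pairwise_cons.mp h1).2 (List.pairwise_cons.mp h2).2 (by omega) (by omega)

lemma exists_strictMono_ext (n : ℕ) (f : ℕ → ℕ) (hf : StrictMonoOn f (Iic n)) :
    ∃ g : ℕ → ℕ, StrictMono g ∧ ∀ i, i ≤ n → g i = f i := by
  refine ⟨fun i => if i ≤ n then f i else f n + (i - n), fun i j hij => ?_, fun i hi => if_pos hi⟩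
  by_cases hi : i ≤ n <;> by_cases hj : j ≤ n
  · simp only [if_pos hi, if_pos hj]; exact hf hi hj hij
  · simp only [if_pos hi, if_neg hj]
    have := hf.monotoneOn hi (mem_Iic.mpr le_rfl) hi
    omega
  · omega
  · simp only [if_neg hi, if_neg hj]; omega

/-- A finite nonempty set of a linear order is enumerated increasingly. -/
lemma exists_enum_fin {A : Type} [LinearOrder A] (G : Set A) (hG : G.Finite) (hne : G.Nonempty) :
    ∃ (M : ℕ) (e : ℕ → A), StrictMonoOn e (Iic M) ∧ ∀ x ∈ G, ∃ i, i ≤ M ∧ e i = x := by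
  classical
  have hc : 0 < hG.toFinset.card := Finset.card_pos.mpr (by simpa using hne)
  obtain ⟨M, hM⟩ : ∃ M, hG.toFinset.card = M + 1 := ⟨_, (Nat.succ_pred_eq_of_pos hc).symm⟩
  let E := hG.toFinset.orderEmbOfFin hM
  refine ⟨M, fun i => E ⟨min i M, by omega⟩, fun i hi j hj hij => E.strictMono ?_, fun x hx => ?_⟩
  · simp only [mem_Iic] at hi hj
    simp only [Fin.mk_lt_mk]; omega
  · have : x ∈ range E := by rw [Finset.range_orderEmbOfFin]; simpa using hx
    obtain ⟨i, rfl⟩ := this
    refine ⟨i, by omega, ?_⟩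
    exact congrArg E (Fin.ext (by simp only; omega))

lemma exists_pullback {A : Type} [LinearOrder A] {M n : ℕ} {e f : ℕ → A}
    (he : StrictMonoOn e (Iic M)) (hf : StrictMonoOn f (Iic n))
    (h : ∀ i, i ≤ n → ∃ k, k ≤ M ∧ e k = f i) :
    ∃ ι : ℕ → ℕ, StrictMono ι ∧ ∀ i, i ≤ n → ι i ≤ M ∧ e (ι i) = f i := by
  have h' : ∀ i, ∃ k, i ≤ n → k ≤ M ∧ e k = f i := by
    intro i
    by_cases hi : i ≤ n
    · obtain ⟨k, hk⟩ := h i hi; exact ⟨k, fun _ => hk⟩
    · exact ⟨0, fun h => absurd h hi⟩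
  choose k hk using h'
  obtain ⟨g, hg, hg'⟩ := exists_strictMono_ext n k fun i hi j hj hij => by
    have := hf hi hj hij
    rw [← (hk i hi).2, ← (hk j hj).2] at this
    exact (he.lt_iff_lt (hk i hi).1 (hk j hj).1).mp this
  exact ⟨g, hg, fun i hi => by rw [hg' i hi]; exact hk i hi⟩

/-- The finite Ramsey theorem for decreasing lists of bounded length. -/
theorem finite_ramsey (r K : ℕ) (C : Type) [Finite C] : ∃ M : ℕ, ∀ f : List ℕ → C,
    ∃ g : ℕ → ℕ, StrictMono g ∧ g K ≤ M ∧ ∀ l l' : List ℕ, l.Pairwise (· > ·) →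
      l'.Pairwise (· > ·) → (∀ i ∈ l, i ≤ K) → (∀ i ∈ l', i ≤ K) → l.length = l'.length →
      l.length ≤ r → f (l.map g) = f (l'.map g) := by
  classical
  obtain ⟨A, _, -, hfin, hA⟩ := exists_hom r C (Fin (K + 1))
  have := hfin inferInstance inferInstance
  rcases isEmpty_or_nonempty C with hC | ⟨⟨c⟩⟩
  · exact ⟨0, fun f => hC.elim (f [])⟩
  have hne : (univ : Set A).Nonempty := by
    obtain ⟨H, -, -⟩ := hA fun _ => c
    exact ⟨H 0, trivial⟩
  obtain ⟨M, e, he, he'⟩ := exists_enum_fin (univ : Set A) finite_univ hne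
  choose idx hi1 hi2 using fun x => he' x trivial
  have hidx : StrictMono idx := fun a b hab => by
    rw [← hi2 a, ← hi2 b] at hab
    exact (he.lt_iff_lt (hi1 a) (hi1 b)).mp hab
  refine ⟨M, fun f => ?_⟩
  obtain ⟨H, hH, hH'⟩ := hA fun l => f (l.map idx)
  let t : ℕ → Fin (K + 1) := fun i => ⟨min i K, by omega⟩
  have ht : StrictMonoOn t (Iic K) := fun i hi j hj hij => by
    simp only [mem_Iic] at hi hj
    simp only [t, Fin.mk_lt_mk]; omega
  obtain ⟨g, hg, hg'⟩ := exists_strictMono_ext K (fun i => idx (H (t i)))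
    fun i hi j hj hij => hidx (hH (ht hi hj hij))
  refine ⟨g, hg, by rw [hg' K le_rfl]; exact hi1 _, fun l l' h1 h2 h3 h4 h5 h6 => ?_⟩
  have aux : ∀ s : List ℕ, (∀ i ∈ s, i ≤ K) → s.map g = ((s.map t).map H).map idx := by
    intro s hs
    rw [List.map_map, List.map_map]
    exact List.map_congr_left fun i hi => hg' i (hs i hi)
  have aux2 : ∀ s : List ℕ, (∀ i ∈ s, i ≤ K) → s.Pairwise (· > ·) → (s.map t).Pairwise (· > ·) := by
    intro s hs hp
    rw [List.pairwise_map]
    exact hp.imp_of_mem fun {a b} ha hb hab => ht (hs b hb) (hs a ha) hab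
  rw [aux l h3, aux l' h4]
  exact hH' _ _ (aux2 l h3 h1) (aux2 l' h4 h2) (by simpa using h5) (by simpa using h6)

end Pool.Agent.MP_71094f_lc.H37

end

section

set_option autoImplicit false

/-!
The greedy demand system on a large well-order and the resulting dichotomy.
-/

namespace Pool.Agent.MP_71094f_lc.H37

open Set

/-- A nonempty decreasing list of levels below `t`. -/
def DecLt (t : ℕ) (μ : List ℕ) : Prop := μ ≠ [] ∧ (t :: μ).Pairwise (· > ·)

lemma DecLt.lt {t : ℕ} {μ : List ℕ} (h : DecLt t μ) : ∀ r ∈ μ, r < t :=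
  (List.pairwise_cons.mp h.2).1

lemma DecLt.pw {t : ℕ} {μ : List ℕ} (h : DecLt t μ) : μ.Pairwise (· > ·) :=
  (List.pairwise_cons.mp h.2).2

lemma DecLt.mono {t t' : ℕ} {μ : List ℕ} (h : DecLt t μ) (ht : t ≤ t') : DecLt t' μ :=
  ⟨h.1, List.pairwise_cons.mpr ⟨fun r hr => (h.lt r hr).trans_le ht, h.pw⟩⟩

lemma DecLt.pos {t : ℕ} {μ : List ℕ} (h : DecLt t μ) : 0 < t := by
  obtain ⟨r, hr⟩ := List.exists_mem_of_ne_nil μ h.1
  have := h.lt r hr
  omega

lemma DecLt.map {t : ℕ} {μ : List ℕ} (h : DecLt t μ) {ι : ℕ → ℕ} (hι : StrictMono ι) :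
    DecLt (ι t) (μ.map ι) := by
  refine ⟨by simpa using h.1, ?_⟩
  rw [← List.map_cons, List.pairwise_map]
  exact h.2.imp fun hab => hι hab

lemma dec_finite (n : ℕ) : {l : List ℕ | (n :: l).Pairwise (· > ·)}.Finite ∧
    ∀ l : List ℕ, (n :: l).Pairwise (· > ·) → l.length ≤ n := by
  induction n with
  | zero =>
    have : ∀ l : List ℕ, (0 :: l).Pairwise (· > ·) → l = [] := by
      intro l hl
      cases l with
      | nil => rfl
      | cons a l => exact absurd ((List.pairwise_cons.mp hl).1 a (by simp)) (by simp)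
    exact ⟨(finite_singleton []).subset fun l hl => this l hl, fun l hl => by rw [this l hl]; rfl⟩
  | succ n ih =>
    have : ∀ l : List ℕ, ((n + 1) :: l).Pairwise (· > ·) →
        (n :: l).Pairwise (· > ·) ∨ ∃ l', (n :: l').Pairwise (· > ·) ∧ l = n :: l' := by
      intro l hl
      cases l with
      | nil => left; simp
      | cons a l =>
        have h1 := List.pairwise_cons.mp hl
        have h2 := List.pairwise_cons.mp h1.2
        have h3 : a < n + 1 := h1.1 a (by simp)
        by_cases ha : a = n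
        · subst ha; exact Or.inr ⟨l, h1.2, rfl⟩
        · refine Or.inl (List.pairwise_cons.mpr ⟨fun b hb => ?_, h1.2⟩)
          rcases List.mem_cons.mp hb with rfl | hb
          · omega
          · have := h2.1 b hb; omega
    constructor
    · refine (ih.1.union (ih.1.image (List.cons n))).subset fun l hl => ?_
      rcases this l hl with h | ⟨l', h, rfl⟩
      · exact Or.inl h
      · exact Or.inr ⟨l', h, rfl⟩
    · intro l hl
      rcases this l hl with h | ⟨l', h, rfl⟩
      · have := ih.2 l h; omega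
      · have := ih.2 l' h; simp; omega

lemma DecLt.length_le {t : ℕ} {μ : List ℕ} (h : DecLt t μ) : μ.length ≤ t :=
  (dec_finite t).2 μ h.2

lemma decLt_finite (t : ℕ) : {μ | DecLt t μ}.Finite := (dec_finite t).1.subset fun _ h => h.2

/-- All demands up to level `n`. -/
def Full (n : ℕ) : Set (ℕ × List ℕ) := {d | d.1 ≤ n ∧ DecLt d.1 d.2}

lemma full_finite (n : ℕ) : (Full n).Finite :=
  ((finite_Iic n).prod (decLt_finite n)).subset fun _ hd => ⟨hd.1, hd.2.mono hd.1⟩

lemma map_inj_of {A : Type} [LinearOrder A] {n : ℕ} {e : ℕ → A} (he : StrictMonoOn e (Iic n)) :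
    ∀ {l l' : List ℕ}, (∀ i ∈ l, i ≤ n) → (∀ i ∈ l', i ≤ n) → l.map e = l'.map e → l = l'
  | [], [], _, _, _ => rfl
  | [], _ :: _, _, _, h => by simp at h
  | _ :: _, [], _, _, h => by simp at h
  | a :: l, b :: l', h1, h2, h => by
    simp only [List.map_cons, List.cons.injEq] at h
    rw [he.injOn (h1 a (by simp)) (h2 b (by simp)) h.1,
      map_inj_of he (fun i hi => h1 i (by simp [hi])) (fun i hi => h2 i (by simp [hi])) h.2]

section Greedy

variable (E : ℕ → Set (ℕ × List ℕ) → Prop) {A : Type} [LinearOrder A]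

/-- All finite substructures of a demand system are realisable. -/
def Ok (𝒜 : Set (A × List A)) : Prop :=
  ∀ n (e : ℕ → A) (D : Set (ℕ × List ℕ)), StrictMonoOn e (Iic n) → D ⊆ Full n →
    (∀ d ∈ D, (e d.1, d.2.map e) ∈ 𝒜) → E n D

theorem exists_greedy [WellFoundedLT A] (h0 : E 0 ∅)
    (h1 : ∀ n D, D ⊆ Full n → E n D → E (n + 1) D) :
    ∃ 𝒟 : Set (A × List A), Ok E 𝒟 ∧ ∀ l, l ∉ 𝒟 → ∃ c : ℕ × Set (ℕ × List ℕ) × List ℕ,
      c.2.1 ⊆ Full c.1 ∧ DecLt c.1 c.2.2 ∧ ¬ E c.1 (insert (c.1, c.2.2) c.2.1) ∧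
      ∃ e : ℕ → A, StrictMonoOn e (Iic c.1) ∧ e c.1 = l.1 ∧ c.2.2.map e = l.2 ∧
        ∀ d ∈ c.2.1, (e d.1, d.2.map e) ∈ 𝒟 := by
  classical
  let key : A × List A → A ×ₗ Cardinal.{0} := fun l => toLex (l.1, embeddingToCardinal l.2)
  have hkey : Function.Injective key := by
    intro a b hab
    have := toLex.injective hab
    simp only [Prod.mk.injEq] at this
    exact Prod.ext this.1 (embeddingToCardinal.injective this.2)
  have hwf : WellFounded fun a b : A × List A => key a < key b := InvImage.wf key wellFounded_lt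
  let P : A × List A → Prop := hwf.fix fun l rec => Ok E (insert l {l' | ∃ h : key l' < key l, rec l' h})
  have hP : ∀ l, P l ↔ Ok E (insert l {l' | key l' < key l ∧ P l'}) := by
    intro l
    have : P l = Ok E (insert l {l' | ∃ _ : key l' < key l, P l'}) := hwf.fix_eq _ l
    rw [this]
    simp only [exists_prop]
  have hE : ∀ n, E n ∅ := by
    intro n
    induction n with
    | zero => exact h0
    | succ n ih => exact h1 n ∅ (empty_subset _) ih
  have hok : Ok E {l | P l} := by
    intro n e D he hD hD'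
    rcases D.eq_empty_or_nonempty with rfl | hne
    · exact hE n
    obtain ⟨d, hd, hmax⟩ := exists_max_image D (fun d => key (e d.1, d.2.map e))
      ((full_finite n).subset hD) hne
    refine (hP _).mp (hD' d hd) n e D he hD fun d' hd' => ?_
    rcases (hmax d' hd').eq_or_lt with h | h
    · exact Or.inl (hkey h)
    · exact Or.inr ⟨h, hD' d' hd'⟩
  refine ⟨{l | P l}, hok, fun l hl => ?_⟩
  have hex : ∃ n, ∃ (e : ℕ → A) (D : Set (ℕ × List ℕ)), StrictMonoOn e (Iic n) ∧ D ⊆ Full n ∧
      (∀ d ∈ D, (e d.1, d.2.map e) ∈ insert l {l' | key l' < key l ∧ P l'}) ∧ ¬ E n D := by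
    by_contra h
    push Not at h
    exact hl ((hP l).mpr h)
  obtain ⟨e, D, he, hD, hD', hnE⟩ := Nat.find_spec hex
  have hmin := fun m (hm : m < Nat.find hex) => Nat.find_min hex hm
  generalize Nat.find hex = n at *
  have ht : ∃ d ∈ D, d.1 = n := by
    by_contra h
    push Not at h
    cases n with
    | zero =>
      have : D = ∅ := eq_empty_of_forall_notMem fun d hd => h d hd (Nat.le_zero.mp (hD hd).1)
      exact hnE (this ▸ h0)
    | succ n =>
      have hD2 : D ⊆ Full n := fun d hd =>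
        ⟨by have := (hD hd).1; have := h d hd; omega, (hD hd).2⟩
      refine hnE (h1 n D hD2 ?_)
      by_contra h2
      exact hmin n (Nat.lt_succ_self n)
        ⟨e, D, he.mono (Iic_subset_Iic.mpr (Nat.le_succ n)), hD2, hD', h2⟩
  obtain ⟨d, hd, hdn⟩ := ht
  have hle : e n ≤ l.1 := by
    rcases hD' d hd with h | h
    · rw [← h, hdn]
    · have := h.1
      simp only [key, Prod.Lex.toLex_lt_toLex, hdn] at this
      rcases this with h | h
      · exact h.le
      · exact h.1.le
  have hl' : ∃ d' ∈ D, (e d'.1, d'.2.map e) = l := by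
    by_contra h
    push Not at h
    exact hnE (hok n e D he hD fun d' hd' => ((hD' d' hd').resolve_left (h d' hd')).2)
  obtain ⟨⟨t, μ⟩, hd', rfl⟩ := hl'
  have htn : t = n := le_antisymm (hD hd').1 ((he.le_iff_le (mem_Iic.mpr le_rfl) (hD hd').1).mp hle)
  subst htn
  refine ⟨(t, D \ {(t, μ)}, μ), fun x hx => hD hx.1, (hD hd').2, ?_, e, he, rfl, rfl, ?_⟩
  · rwa [insert_sdiff_singleton, insert_eq_of_mem hd']
  · rintro ⟨s, ν⟩ ⟨hx, hx'⟩
    refine ((hD' _ hx).resolve_left fun h => hx' ?_).2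
    simp only [Prod.mk.injEq] at h
    have e1 : s = t := he.injOn (hD hx).1 (mem_Iic.mpr le_rfl) h.1
    have e2 : ν = μ := map_inj_of he (fun i hi => ((hD hx).2.lt i hi).le.trans (hD hx).1)
      (fun i hi => ((hD hd').2.lt i hi).le) h.2
    rw [e1, e2]; rfl

end Greedy

/-- The dichotomy: complete structures of every height, or one obstruction met by all tuples. -/
theorem greedy_dichotomy (E : ℕ → Set (ℕ × List ℕ) → Prop) (h0 : E 0 ∅)
    (h1 : ∀ n D, D ⊆ Full n → E n D → E (n + 1) D) :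
    (∀ r, E r (Full r)) ∨ ∃ (n : ℕ) (D : Set (ℕ × List ℕ)) (μ₀ : List ℕ), D ⊆ Full n ∧
      DecLt n μ₀ ∧ ¬ E n (insert (n, μ₀) D) ∧ ∀ N, ∃ (M : ℕ) (D' : Set (ℕ × List ℕ)) (η : ℕ → ℕ),
        D' ⊆ Full M ∧ E M D' ∧ StrictMono η ∧ η N ≤ M ∧
        (∀ t μ, t ≤ N → DecLt t μ → μ.length < μ₀.length → (η t, μ.map η) ∈ D') ∧
        (∀ t μ, t ≤ N → DecLt t μ → μ.length = μ₀.length → ∃ ι : ℕ → ℕ, StrictMono ι ∧
          ι n = η t ∧ μ₀.map ι = μ.map η ∧ ∀ d ∈ D, (ι d.1, d.2.map ι) ∈ D') := by
  classical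
  rw [or_iff_not_imp_left]
  intro hr
  push Not at hr
  obtain ⟨r, hr⟩ := hr
  obtain ⟨A, _, _, -, hA⟩ := exists_hom (r + 1) (Option (ℕ × Set (ℕ × List ℕ) × List ℕ)) ℕ
  obtain ⟨𝒟, hok, h𝒟⟩ := exists_greedy E (A := A) h0 h1
  choose! c hc using h𝒟
  obtain ⟨H, hH, hH'⟩ := hA fun l => match l with
    | [] => none
    | t :: μ => if (t, μ) ∈ 𝒟 then none else some (c (t, μ))
  have hex : ∃ h, h ≤ r ∧ ∃ t μ, DecLt t μ ∧ μ.length = h ∧ (H t, μ.map H) ∉ 𝒟 := by
    by_contra h
    push Not at h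
    exact hr (hok r H _ (hH.strictMonoOn _) subset_rfl fun d hd =>
      h _ (hd.2.length_le.trans hd.1) _ _ hd.2 rfl)
  obtain ⟨hh, t₀, ν₀, hν, hνl, hνD⟩ := Nat.find_spec hex
  have hmin := fun m (hm : m < Nat.find hex) => Nat.find_min hex hm
  generalize Nat.find hex = h at *
  have hall : ∀ t μ, DecLt t μ → μ.length = h →
      (H t, μ.map H) ∉ 𝒟 ∧ c (H t, μ.map H) = c (H t₀, ν₀.map H) := by
    intro t μ hμ hl
    have := hH' (t :: μ) (t₀ :: ν₀) hμ.2 hν.2 (by simp [hl, hνl]) (by simp; omega)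
    simp only [List.map_cons, if_neg hνD] at this
    by_cases h2 : (H t, μ.map H) ∈ 𝒟
    · rw [if_pos h2] at this; cases this
    · rw [if_neg h2] at this; exact ⟨h2, Option.some.inj this⟩
  obtain ⟨c1, c2, c3, e₀, -, -, c4, -⟩ := hc _ hνD
  have hlen : (c (H t₀, ν₀.map H)).2.2.length = h := by
    have := congrArg List.length c4
    simpa [hνl] using this
  set n := (c (H t₀, ν₀.map H)).1
  set D := (c (H t₀, ν₀.map H)).2.1
  set μ₀ := (c (H t₀, ν₀.map H)).2.2
  refine ⟨n, D, μ₀, c1, c2, c3, fun N => ?_⟩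
  have hch : ∀ d : ℕ × List ℕ, ∃ e : ℕ → A, DecLt d.1 d.2 → d.2.length = h →
      StrictMonoOn e (Iic n) ∧ e n = H d.1 ∧ μ₀.map e = d.2.map H ∧
        ∀ x ∈ D, (e x.1, x.2.map e) ∈ 𝒟 := by
    intro d
    by_cases hd : DecLt d.1 d.2 ∧ d.2.length = h
    · obtain ⟨h2, h3⟩ := hall _ _ hd.1 hd.2
      obtain ⟨-, -, -, e, he⟩ := hc _ h2
      rw [h3] at he
      exact ⟨e, fun _ _ => he⟩
    · exact ⟨H, fun h2 h3 => absurd ⟨h2, h3⟩ hd⟩
  choose e he using hch
  obtain ⟨M, e', he', hG⟩ := exists_enum_fin (H '' Iic N ∪ ⋃ d ∈ Full N, e d '' Iic n)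
    (((finite_Iic N).image _).union ((full_finite N).biUnion fun d _ => (finite_Iic n).image _))
    ⟨H 0, Or.inl ⟨0, Nat.zero_le N, rfl⟩⟩
  obtain ⟨η, hη, hη'⟩ := exists_pullback he' (hH.strictMonoOn (Iic N))
    fun i hi => hG _ (Or.inl ⟨i, hi, rfl⟩)
  have hmapη : ∀ t μ, t ≤ N → DecLt t μ → (μ.map η).map e' = μ.map H := by
    intro t μ ht hμ
    rw [List.map_map]
    exact List.map_congr_left fun i hi => (hη' i ((hμ.lt i hi).le.trans ht)).2
  refine ⟨M, {d | d ∈ Full M ∧ (e' d.1, d.2.map e') ∈ 𝒟}, η, fun d hd => hd.1,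
    hok M e' _ he' (fun d hd => hd.1) fun d hd => hd.2, hη, (hη' N le_rfl).1, ?_, ?_⟩
  · intro t μ ht hμ hl
    refine ⟨⟨(hη' t ht).1, hμ.map hη⟩, ?_⟩
    simp only
    rw [hmapη t μ ht hμ, (hη' t ht).2]
    by_contra h2
    exact hmin μ.length (by omega) ⟨by omega, t, μ, hμ, rfl, h2⟩
  · intro t μ ht hμ hl
    obtain ⟨g1, g2, g3, g4⟩ := he (t, μ) hμ (by simp only; omega)
    obtain ⟨ι, hι, hι'⟩ := exists_pullback he' g1
      fun i hi => hG _ (Or.inr (mem_biUnion (x := (t, μ)) ⟨ht, hμ⟩ ⟨i, hi, rfl⟩))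
    have hmapι : ∀ s ν, s ≤ n → DecLt s ν → (ν.map ι).map e' = ν.map (e (t, μ)) := by
      intro s ν hs hν
      rw [List.map_map]
      exact List.map_congr_left fun i hi => (hι' i ((hν.lt i hi).le.trans hs)).2
    refine ⟨ι, hι, he'.injOn (hι' n le_rfl).1 (hη' t ht).1 ?_, map_inj_of he' ?_ ?_ ?_, ?_⟩
    · rw [(hι' n le_rfl).2, (hη' t ht).2, g2]
    · intro i hi
      obtain ⟨k, hk, rfl⟩ := List.mem_map.mp hi
      exact (hι' k (c2.lt k hk).le).1
    · intro i hi
      obtain ⟨k, hk, rfl⟩ := List.mem_map.mp hi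
      exact (hη' k ((hμ.lt k hk).le.trans ht)).1
    · rw [hmapι n μ₀ le_rfl c2, hmapη t μ ht hμ, g3]
    · intro d hd
      refine ⟨⟨(hι' _ (c1 hd).1).1, (c1 hd).2.map hι⟩, ?_⟩
      simp only
      rw [hmapι _ _ (c1 hd).1 (c1 hd).2, (hι' _ (c1 hd).1).2]
      exact g4 d hd

end Pool.Agent.MP_71094f_lc.H37

end

section

set_option autoImplicit false

/-!
Measured trees of finite rank, descents, collapses and level words.
-/

namespace Pool.Agent.MP_71094f_lc.H37

open Filter Set

/-- Measured trees of a given rank. -/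
def Nd (Ω : Type) : ℕ → Type
  | 0 => Ω
  | n + 1 => Ω × Ultrafilter (Nd Ω n)

/-- Measured trees. -/
def Node (Ω : Type) : Type := Σ n, Nd Ω n

variable {Ω : Type}

lemma ev_bind {α β : Type} (f : Ultrafilter α) (m : α → Ultrafilter β) (p : β → Prop) :
    (∀ᶠ y in (f.bind m : Filter β), p y) ↔ ∀ᶠ x in (f : Filter α), ∀ᶠ y in (m x : Filter β), p y :=
  Iff.rfl

lemma ev_map {α β : Type} (f : Ultrafilter α) (m : α → β) (p : β → Prop) :
    (∀ᶠ y in (f.map m : Filter β), p y) ↔ ∀ᶠ x in (f : Filter α), p (m x) :=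
  Iff.rfl

lemma ev_pure {α : Type} (a : α) (p : α → Prop) :
    (∀ᶠ y in ((pure a : Ultrafilter α) : Filter α), p y) ↔ p a :=
  Iff.rfl

lemma uext {α : Type} {f g : Ultrafilter α}
    (h : ∀ p : α → Prop, (∀ᶠ y in (f : Filter α), p y) ↔ ∀ᶠ y in (g : Filter α), p y) : f = g := by
  apply Ultrafilter.coe_injective
  ext s
  exact h fun y => y ∈ s

namespace Node

/-- The rank. -/
def rank (x : Node Ω) : ℕ := x.1

/-- The apex. -/
def apex : Node Ω → Ω
  | ⟨0, w⟩ => w
  | ⟨_ + 1, z⟩ => z.1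

/-- The ultrafilter of children. -/
def ch : Node Ω → Ultrafilter (Node Ω)
  | ⟨0, w⟩ => pure ⟨0, w⟩
  | ⟨n + 1, z⟩ => z.2.map (Sigma.mk n)

/-- A leaf. -/
def leaf (w : Ω) : Node Ω := ⟨0, w⟩

/-- A default tree. -/
def dflt (w : Ω) : ∀ n, Nd Ω n
  | 0 => w
  | n + 1 => (w, pure (dflt w n))

/-- Retraction to a given rank. -/
def retr (w : Ω) (n : ℕ) (x : Node Ω) : Nd Ω n := if h : x.1 = n then h ▸ x.2 else dflt w n

/-- A tree with a given apex and ultrafilter of children. -/
def mk (w : Ω) (n : ℕ) (U : Ultrafilter (Node Ω)) : Node Ω := ⟨n + 1, (w, U.map (retr w n))⟩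

@[simp] lemma rank_leaf (w : Ω) : (leaf w).rank = 0 := rfl
@[simp] lemma apex_leaf (w : Ω) : (leaf w).apex = w := rfl
@[simp] lemma rank_mk (w : Ω) (n : ℕ) (U : Ultrafilter (Node Ω)) : (mk w n U).rank = n + 1 := rfl
@[simp] lemma apex_mk (w : Ω) (n : ℕ) (U : Ultrafilter (Node Ω)) : (mk w n U).apex = w := rfl

lemma ch_mk (w : Ω) (n : ℕ) (U : Ultrafilter (Node Ω)) (h : ∀ᶠ x in (U : Filter (Node Ω)), x.rank = n) :
    (mk w n U).ch = U := by
  refine uext fun p => ?_
  change (∀ᶠ x in (U : Filter (Node Ω)), p ⟨n, retr w n x⟩) ↔ _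
  refine eventually_congr (h.mono ?_)
  rintro ⟨m, x⟩ rfl
  simp [retr, rank]

lemma rank_ch : ∀ x : Node Ω, 0 < x.rank → ∀ᶠ c in (x.ch : Filter (Node Ω)), c.rank + 1 = x.rank
  | ⟨0, _⟩, h => absurd h (lt_irrefl 0)
  | ⟨_ + 1, z⟩, _ => (ev_map z.2 _ _).mpr (Eventually.of_forall fun _ => rfl)

/-- Descent by a number of steps. -/
def descN : ℕ → Node Ω → Ultrafilter (Node Ω)
  | 0, x => pure x
  | k + 1, x => x.ch.bind (descN k)

/-- Descent to a given level. -/
def desc (x : Node Ω) (r : ℕ) : Ultrafilter (Node Ω) := descN (x.rank - r) x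

lemma desc_of_le {x : Node Ω} {r : ℕ} (h : x.rank ≤ r) : x.desc r = pure x := by
  unfold desc; rw [Nat.sub_eq_zero_of_le h]; rfl

lemma ev_desc_of_le {x : Node Ω} {r : ℕ} (h : x.rank ≤ r) (P : Node Ω → Prop) :
    (∀ᶠ c in (x.desc r : Filter (Node Ω)), P c) ↔ P x := by
  rw [desc_of_le h, ev_pure]

lemma ev_desc_of_lt {x : Node Ω} {r : ℕ} (h : r < x.rank) (P : Node Ω → Prop) :
    (∀ᶠ c in (x.desc r : Filter (Node Ω)), P c) ↔
      ∀ᶠ d in (x.ch : Filter (Node Ω)), ∀ᶠ c in (d.desc r : Filter (Node Ω)), P c := by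
  obtain ⟨k, hk⟩ : ∃ k, x.rank - r = k + 1 := ⟨x.rank - r - 1, by omega⟩
  unfold desc
  rw [hk, descN, ev_bind]
  refine eventually_congr ((rank_ch x (by omega)).mono fun d hd => ?_)
  rw [show d.rank - r = k by omega]

/-- Induction along descents. -/
lemma desc_ind {P : Node Ω → Prop} (hP : ∀ x, P x → 0 < x.rank → ∀ᶠ c in (x.ch : Filter (Node Ω)), P c)
    (r : ℕ) (x : Node Ω) (hx : P x) : ∀ᶠ c in (x.desc r : Filter (Node Ω)), P c := by
  induction h : x.rank generalizing x with
  | zero => rwa [ev_desc_of_le (by omega)]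
  | succ n ih =>
    by_cases hr : r < x.rank
    · rw [ev_desc_of_lt hr]
      filter_upwards [hP x hx (by omega), rank_ch x (by omega)] with d h1 h2
      exact ih d h1 (by omega)
    · rwa [ev_desc_of_le (by omega)]

lemma desc_rank (x : Node Ω) (r : ℕ) :
    ∀ᶠ c in (x.desc r : Filter (Node Ω)), c.rank = min r x.rank := by
  induction h : x.rank generalizing x with
  | zero => rw [ev_desc_of_le (by omega)]; omega
  | succ n ih =>
    by_cases hr : r < x.rank
    · rw [ev_desc_of_lt hr]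
      filter_upwards [rank_ch x (by omega)] with d h2
      exact (ih d (by omega)).mono fun c hc => by omega
    · rw [ev_desc_of_le (by omega)]; omega

lemma ev_desc_desc {r s : ℕ} (hrs : r ≤ s) (x : Node Ω) (P : Node Ω → Prop) :
    (∀ᶠ c in (x.desc r : Filter (Node Ω)), P c) ↔
      ∀ᶠ d in (x.desc s : Filter (Node Ω)), ∀ᶠ c in (d.desc r : Filter (Node Ω)), P c := by
  induction h : x.rank generalizing x with
  | zero => rw [ev_desc_of_le (r := s) (by omega)]
  | succ n ih =>
    by_cases hs : s < x.rank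
    · rw [ev_desc_of_lt hs, ev_desc_of_lt (hrs.trans_lt hs)]
      refine eventually_congr ((rank_ch x (by omega)).mono fun d hd => ih d (by omega))
    · rw [ev_desc_of_le (r := s) (by omega)]

lemma ev_ch {x : Node Ω} {r : ℕ} (h : x.rank = r + 1) (P : Node Ω → Prop) :
    (∀ᶠ c in (x.ch : Filter (Node Ω)), P c) ↔ ∀ᶠ c in (x.desc r : Filter (Node Ω)), P c := by
  rw [ev_desc_of_lt (by omega)]
  exact eventually_congr ((rank_ch x (by omega)).mono fun d hd => (ev_desc_of_le (by omega) P).symm)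

/-- The collapse of a tree to the levels enumerated by `ι`. -/
def col (ι : ℕ → ℕ) : ℕ → Node Ω → Node Ω
  | 0, b => leaf b.apex
  | t + 1, b => mk b.apex t ((b.desc (ι t)).map (col ι t))

@[simp] lemma rank_col (ι : ℕ → ℕ) : ∀ (t : ℕ) (b : Node Ω), (col ι t b).rank = t
  | 0, _ => rfl
  | _ + 1, _ => rfl

@[simp] lemma apex_col (ι : ℕ → ℕ) : ∀ (t : ℕ) (b : Node Ω), (col ι t b).apex = b.apex
  | 0, _ => rfl
  | _ + 1, _ => rfl

lemma ch_col (ι : ℕ → ℕ) (t : ℕ) (b : Node Ω) :
    (col ι (t + 1) b).ch = (b.desc (ι t)).map (col ι t) :=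
  ch_mk _ _ _ ((ev_map _ _ _).mpr (Eventually.of_forall fun c => rank_col ι t c))

lemma ev_desc_col_lt {ι : ℕ → ℕ} (hι : StrictMono ι) {r : ℕ} (P : Node Ω → Prop) :
    ∀ (t : ℕ) (b : Node Ω), r < t → ((∀ᶠ c in ((col ι t b).desc r : Filter (Node Ω)), P c) ↔
      ∀ᶠ c in (b.desc (ι r) : Filter (Node Ω)), P (col ι r c))
  | 0, _, h => absurd h (Nat.not_lt_zero r)
  | t + 1, b, h => by
    rw [ev_desc_of_lt (by simpa using h), ch_col, ev_map]
    by_cases hr : r = t
    · subst hr
      exact eventually_congr (Eventually.of_forall fun c => ev_desc_of_le (by simp) P)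
    · rw [ev_desc_desc (hι.monotone (by omega : r ≤ t)) b]
      exact eventually_congr (Eventually.of_forall fun c => ev_desc_col_lt hι P t c (by omega))

lemma ev_desc_col {ι : ℕ → ℕ} (hι : StrictMono ι) {t : ℕ} {b : Node Ω} (hb : b.rank = ι t) (r : ℕ)
    (P : Node Ω → Prop) : (∀ᶠ c in ((col ι t b).desc r : Filter (Node Ω)), P c) ↔
      ∀ᶠ c in (b.desc (ι r) : Filter (Node Ω)), P (col ι (min r t) c) := by
  by_cases h : r < t
  · rw [ev_desc_col_lt hι P t b h, min_eq_left h.le]
  · rw [ev_desc_of_le (by simp; omega), ev_desc_of_le (hb ▸ hι.monotone (by omega)),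
      min_eq_right (by omega)]

lemma desc_rank_col {ι : ℕ → ℕ} (hι : StrictMono ι) {t : ℕ} {b : Node Ω} (hb : b.rank = ι t) (r : ℕ) :
    ∀ᶠ c in (b.desc (ι r) : Filter (Node Ω)), c.rank = ι (min r t) :=
  (desc_rank b (ι r)).mono fun c hc => by rw [hc, hb, hι.monotone.map_min]

lemma col_congr {ι ι' : ℕ → ℕ} : ∀ (t : ℕ) (b : Node Ω), (∀ i, i < t → ι i = ι' i) →
    col ι t b = col ι' t b
  | 0, _, _ => rfl
  | t + 1, b, h => by
    have : (col ι t : Node Ω → Node Ω) = col ι' t :=
      funext fun c => col_congr t c fun i hi => h i (by omega)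
    rw [col, col, this, h t (by omega)]

lemma col_col {ι ν : ℕ → ℕ} (hι : StrictMono ι) (hν : StrictMono ν) :
    ∀ (s t : ℕ) (b : Node Ω), (∀ i, i < s → ν i < t) → col ν s (col ι t b) = col (ι ∘ ν) s b
  | 0, _, _, _ => by simp [col]
  | s + 1, t, b, h => by
    rw [col, col, apex_col]
    congr 1
    refine uext fun P => ?_
    rw [ev_map, ev_map, ev_desc_col_lt hι _ t b (h s (by omega))]
    refine eventually_congr (Eventually.of_forall fun c => ?_)
    rw [col_col hι hν s (ν s) c fun i hi => hν hi]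

end Node

open Node

variable (B : Ω → Ω → Ω → Prop)

/-- Blue wins along a level word: the middle token moves, then the lower token, and so on. -/
def H : Node Ω → Node Ω → List (ℕ × ℕ) → Ω → Prop
  | p, v, [], y => B p.apex v.apex y
  | p, v, e :: ω, y => ∀ᶠ c in (v.desc e.1 : Filter (Node Ω)),
      ∀ᶠ q in (p.desc e.2 : Filter (Node Ω)), H q c ω y

variable {B}

lemma H_nil (p v : Node Ω) (y : Ω) : H B p v [] y ↔ B p.apex v.apex y := Iff.rfl

lemma H_cons (p v : Node Ω) (r a : ℕ) (ω : List (ℕ × ℕ)) (y : Ω) : H B p v ((r, a) :: ω) y ↔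
    ∀ᶠ c in (v.desc r : Filter (Node Ω)), ∀ᶠ q in (p.desc a : Filter (Node Ω)), H B q c ω y :=
  Iff.rfl

lemma H_desc {p v : Node Ω} {r a s : ℕ} (h : r ≤ s) (ω : List (ℕ × ℕ)) (y : Ω) :
    H B p v ((r, a) :: ω) y ↔ ∀ᶠ c in (v.desc s : Filter (Node Ω)), H B p c ((r, a) :: ω) y := by
  simp only [H_cons]
  exact ev_desc_desc h v _

lemma H_ch {p v : Node Ω} {r a : ℕ} (h : r < v.rank) (ω : List (ℕ × ℕ)) (y : Ω) :
    H B p v ((r, a) :: ω) y ↔ ∀ᶠ c in (v.ch : Filter (Node Ω)), H B p c ((r, a) :: ω) y := by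
  simp only [H_cons]
  exact ev_desc_of_lt h _

lemma H_colM {ι : ℕ → ℕ} (hι : StrictMono ι) (y : Ω) : ∀ (ω : List (ℕ × ℕ)) (p v : Node Ω) (t : ℕ),
    v.rank = ι t → (H B p (col ι t v) ω y ↔ H B p v (ω.map (Prod.map ι id)) y)
  | [], p, v, t, _ => by simp [H_nil]
  | (r, a) :: ω, p, v, t, hv => by
    rw [List.map_cons, Prod.map_apply, H_cons, H_cons, ev_desc_col hι hv]
    refine eventually_congr ((desc_rank_col hι hv r).mono fun c hc => ?_)
    exact eventually_congr (Eventually.of_forall fun q => H_colM hι y ω q c _ hc)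

lemma H_col {ι : ℕ → ℕ} (hι : StrictMono ι) (y : Ω) :
    ∀ (ω : List (ℕ × ℕ)) (p v : Node Ω) (s t : ℕ), p.rank = ι s → v.rank = ι t →
      (H B (col ι s p) (col ι t v) ω y ↔ H B p v (ω.map (Prod.map ι ι)) y)
  | [], p, v, s, t, _, _ => by simp [H_nil]
  | (r, a) :: ω, p, v, s, t, hp, hv => by
    rw [List.map_cons, Prod.map_apply, H_cons, H_cons, ev_desc_col hι hv]
    refine eventually_congr ((desc_rank_col hι hv r).mono fun c hc => ?_)
    rw [ev_desc_col hι hp]
    exact eventually_congr ((desc_rank_col hι hp a).mono fun q hq => H_col hι y ω q c _ _ hq hc)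

lemma H_zip_col {ι : ℕ → ℕ} (hι : StrictMono ι) (y : Ω) (μ α : List ℕ) (p v : Node Ω) (t : ℕ)
    (hv : v.rank = ι t) : H B p (col ι t v) (μ.zip α) y ↔ H B p v ((μ.map ι).zip α) y := by
  rw [H_colM hι y _ p v t hv, List.zip_map_left]

lemma H_zip_ch {p v : Node Ω} {μ α : List ℕ} (h : DecLt v.rank μ) (hl : α.length = μ.length) (y : Ω) :
    H B p v (μ.zip α) y ↔ ∀ᶠ c in (v.ch : Filter (Node Ω)), H B p c (μ.zip α) y := by
  match μ, α, h, hl with
  | [], _, h, _ => exact absurd rfl h.1
  | r :: μ, a :: α, h, _ => exact H_ch (h.lt r (by simp)) _ y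

lemma H_zip_desc {p v : Node Ω} {μ α : List ℕ} {s : ℕ} (h : DecLt (s + 1) μ)
    (hl : α.length = μ.length) (y : Ω) :
    H B p v (μ.zip α) y ↔ ∀ᶠ c in (v.desc s : Filter (Node Ω)), H B p c (μ.zip α) y := by
  match μ, α, h, hl with
  | [], _, h, _ => exact absurd rfl h.1
  | r :: μ, a :: α, h, _ => exact H_desc (Nat.lt_succ_iff.mp (h.lt r (by simp))) _ y

/-- Normal words. -/
inductive Norm : ℕ → ℕ → List (ℕ × ℕ) → Prop
  | last (i j : ℕ) : Norm i j [(0, 0)]
  | cons {i j r a : ℕ} {ω : List (ℕ × ℕ)} : r < j → a < i → Norm a r ω → Norm i j ((r + 1, a) :: ω)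

lemma Norm.mono {i j j' : ℕ} {ω : List (ℕ × ℕ)} (h : Norm i j ω) (hj : j ≤ j') : Norm i j' ω := by
  cases h with
  | last => exact Norm.last _ _
  | cons h1 h2 h3 => exact Norm.cons (h1.trans_le hj) h2 h3

lemma norm_finite : ∀ j i : ℕ, {ω | Norm i j ω}.Finite := by
  intro j
  induction j using Nat.strong_induction_on with
  | _ j ih =>
  intro i
  refine (((finite_Iio j).prod (finite_Iio i)).biUnion (t := fun e : ℕ × ℕ =>
    List.cons (e.1 + 1, e.2) '' {ω | Norm e.2 e.1 ω}) fun e he => (ih e.1 he.1 e.2).image _).insert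
    [(0, 0)] |>.subset fun ω hω => ?_
  cases hω with
  | last => exact Or.inl rfl
  | @cons _ _ r a ω h1 h2 h3 => exact Or.inr (mem_biUnion (x := (r, a)) ⟨h1, h2⟩ ⟨ω, h3, rfl⟩)

lemma Norm.decLt {i j : ℕ} {ω : List (ℕ × ℕ)} (h : Norm i j ω) : DecLt (j + 1) (ω.map Prod.fst) := by
  induction h with
  | last => exact ⟨by simp, by simp⟩
  | cons h1 _ _ ih =>
    refine ⟨by simp, List.pairwise_cons.mpr ⟨fun s hs => ?_, ih.2⟩⟩
    rcases List.mem_cons.mp hs with rfl | hs
    · simp only; omega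
    · have := ih.lt s hs; omega

lemma Norm.le {i j : ℕ} {ω : List (ℕ × ℕ)} (h : Norm i j ω) : ∀ e ∈ ω, e.1 ≤ j ∧ e.2 ≤ i := by
  induction h with
  | last => simp
  | cons h1 h2 _ ih =>
    intro e he
    rcases List.mem_cons.mp he with rfl | he
    · simp only; omega
    · have := ih e he; omega

variable (B)

/-- Blue wins the pair game. -/
def Win (p v : Node Ω) (y : Ω) : Prop := ∃ ω, Norm p.rank v.rank ω ∧ H B p v ω y

/-- Words for a game that starts with a split of the two lower tokens. -/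
def AWord (s : ℕ) (ω : List (ℕ × ℕ)) : Prop :=
  ∃ r a ω₀, s = r + 1 ∧ a < s ∧ Norm a r ω₀ ∧ ω = (s, a) :: ω₀

variable {B}

lemma AWord.norm {s : ℕ} {ω : List (ℕ × ℕ)} (h : AWord s ω) : Norm s s ω := by
  obtain ⟨r, a, ω₀, rfl, h1, h2, rfl⟩ := h
  exact Norm.cons (Nat.lt_succ_self r) h1 h2

lemma aWord_finite (s : ℕ) : {ω | AWord s ω}.Finite := (norm_finite s s).subset fun _ h => h.norm

lemma ev_exists_finite {α β : Type} (U : Ultrafilter α) {s : Set β} (hs : s.Finite)
    {P : β → α → Prop} (h : ∀ᶠ x in (U : Filter α), ∃ b ∈ s, P b x) :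
    ∃ b ∈ s, ∀ᶠ x in (U : Filter α), P b x :=
  (Ultrafilter.eventually_exists_mem_iff hs).mp h

lemma win_M_gen {p : Node Ω} {y : Ω} (U : Ultrafilter (Node Ω)) {j : ℕ}
    (hU : ∀ᶠ c in (U : Filter (Node Ω)), c.rank = j) (h : ∀ᶠ c in (U : Filter (Node Ω)), Win B p c y) :
    ∃ ω, Norm p.rank j ω ∧ ∀ᶠ c in (U : Filter (Node Ω)), H B p c ω y := by
  refine ev_exists_finite U (norm_finite j p.rank) ?_
  filter_upwards [hU, h] with c h1 h2
  obtain ⟨ω, h3, h4⟩ := h2
  exact ⟨ω, h1 ▸ h3, h4⟩

lemma win_M {p v : Node Ω} {y : Ω} (hv : 0 < v.rank) (h : ¬ Win B p v y) :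
    ∀ᶠ c in (v.ch : Filter (Node Ω)), ¬ Win B p c y := by
  rw [Ultrafilter.eventually_not]
  intro h1
  obtain ⟨ω, h2, h3⟩ := win_M_gen v.ch (j := v.rank - 1)
    ((rank_ch v hv).mono fun c hc => by omega) h1
  refine h ⟨ω, h2.mono (by omega), ?_⟩
  cases h2 with
  | last => exact (H_ch hv _ y).mpr h3
  | cons h4 _ _ => exact (H_ch (by omega) _ y).mpr h3

lemma win_L_gen {p v : Node Ω} {y : Ω} (hp : 0 < p.rank)
    (h : ∀ᶠ q in (p.ch : Filter (Node Ω)), Win B q v y) :
    (v.rank = 0 ∧ H B p v [(0, 0)] y) ∨ ∃ r a ω₀, v.rank = r + 1 ∧ a < p.rank ∧ Norm a r ω₀ ∧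
      H B p v ((r + 1, a) :: ω₀) y := by
  obtain ⟨i, hi⟩ : ∃ i, p.rank = i + 1 := ⟨p.rank - 1, by omega⟩
  obtain ⟨ω, h2, h3⟩ : ∃ ω ∈ {ω | Norm i v.rank ω}, ∀ᶠ q in (p.ch : Filter (Node Ω)), H B q v ω y := by
    refine ev_exists_finite p.ch (norm_finite v.rank i) ?_
    filter_upwards [rank_ch p hp, h] with q h1 h2
    obtain ⟨ω, h3, h4⟩ := h2
    exact ⟨ω, by rwa [show q.rank = i by omega] at h3, h4⟩
  have merge : ∀ a ω₀, a ≤ i → (∀ᶠ q in (p.ch : Filter (Node Ω)), H B q v ((v.rank, a) :: ω₀) y) →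
      H B p v ((v.rank, a) :: ω₀) y := by
    intro a ω₀ ha h4
    rw [H_cons, ev_desc_of_le le_rfl, ev_desc_of_lt (by omega)]
    exact h4.mono fun q hq => by rwa [H_cons, ev_desc_of_le le_rfl] at hq
  have add : ∀ ω₀, (∀ᶠ q in (p.ch : Filter (Node Ω)), H B q v ω₀ y) →
      H B p v ((v.rank, i) :: ω₀) y := by
    intro ω₀ h4
    rw [H_cons, ev_desc_of_le le_rfl, ← ev_ch hi]
    exact h4
  rcases hr : v.rank with _ | r
  · left
    rw [hr] at h2 merge
    cases h2 with
    | last => exact ⟨rfl, merge 0 [] (Nat.zero_le i) h3⟩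
    | cons h4 _ _ => omega
  · right
    rw [hr] at h2 merge add
    cases h2 with
    | last => exact ⟨r, i, _, rfl, by omega, Norm.last _ _, add _ h3⟩
    | @cons _ _ r' a ω₀ h4 h5 h6 =>
      by_cases h7 : r' = r
      · subst h7
        exact ⟨r', a, ω₀, rfl, by omega, h6, merge a ω₀ h5.le h3⟩
      · exact ⟨r, i, _, rfl, by omega, Norm.cons (by omega) h5 h6, add _ h3⟩

lemma win_L {p v : Node Ω} {y : Ω} (hp : 0 < p.rank) (h : ¬ Win B p v y) :
    ∀ᶠ q in (p.ch : Filter (Node Ω)), ¬ Win B q v y := by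
  rw [Ultrafilter.eventually_not]
  intro h1
  rcases win_L_gen hp h1 with ⟨_, h3⟩ | ⟨r, a, ω₀, h2, h3, h4, h5⟩
  · exact h ⟨_, Norm.last _ _, h3⟩
  · exact h ⟨_, Norm.cons (by omega) h3 h4, h5⟩

lemma win_A {p : Node Ω} {y : Ω} (hp : 0 < p.rank) (h : ∀ ω, AWord p.rank ω → ¬ H B p p ω y) :
    ∀ᶠ q in (p.ch : Filter (Node Ω)), ¬ Win B q p y := by
  rw [Ultrafilter.eventually_not]
  intro h1
  rcases win_L_gen hp h1 with ⟨h2, _⟩ | ⟨r, a, ω₀, h2, h3, h4, h5⟩
  · omega
  · exact h _ ⟨r, a, ω₀, h2, h3, h4, by rw [h2]⟩ h5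

lemma win_leaf {p v : Node Ω} {y : Ω} (hp : p.rank = 0) (hv : v.rank = 0) (h : ¬ Win B p v y) :
    ¬ B p.apex v.apex y := fun h1 =>
  h ⟨_, Norm.last _ _, by rwa [H_cons, ev_desc_of_le hv.le, ev_desc_of_le hp.le]⟩

end Pool.Agent.MP_71094f_lc.H37

end

section

set_option autoImplicit false

/-!
Selection lemma: from an invariant system of three-token relations on an abstract tree of filters,
select a copy of a well-founded shape on which all position-increasing triples are related.
-/

namespace Pool.Agent.MP_71094f_lc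

open Filter

/-- Well-founded shapes with infinite branching. -/
inductive Shape : Type
  | leaf : Shape
  | node : (ℕ → Shape) → Shape

/-- The subshape at an address. -/
def Shape.sub : Shape → List ℕ → Option Shape
  | σ, [] => some σ
  | Shape.leaf, _ :: _ => none
  | Shape.node ch, n :: l => (ch n).sub l

lemma Shape.sub_append_singleton (σ : Shape) (s : List ℕ) (k : ℕ) (τ : Shape)
    (h : σ.sub (s ++ [k]) = some τ) : ∃ ch, σ.sub s = some (Shape.node ch) ∧ τ = ch k := by
  induction s generalizing σ with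
  | nil =>
    cases σ with
    | leaf => simp [Shape.sub] at h
    | node ch =>
      simp only [List.nil_append, Shape.sub, Option.some.injEq] at h
      exact ⟨ch, rfl, h.symm⟩
  | cons n s ih =>
    cases σ with
    | leaf => simp [Shape.sub] at h
    | node ch => exact ih (ch n) h

/-- Positional order: lexicographic, with a node above all its descendants. -/
def prec : List ℕ → List ℕ → Prop
  | [], _ => False
  | _ :: _, [] => True
  | x :: a, y :: b => x < y ∨ (x = y ∧ prec a b)

lemma prec_irrefl (a : List ℕ) : ¬ prec a a := by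
  induction a with
  | nil => simp [prec]
  | cons x a ih => simp [prec, ih]

lemma prec_trans {a b c : List ℕ} (h1 : prec a b) (h2 : prec b c) : prec a c := by
  induction a generalizing b c with
  | nil => simp [prec] at h1
  | cons x a ih =>
    cases b with
    | nil => simp [prec] at h2
    | cons y b =>
      cases c with
      | nil => simp [prec]
      | cons z c =>
        simp only [prec] at *
        rcases h1 with h1 | ⟨rfl, h1⟩
        · rcases h2 with h2 | ⟨rfl, _⟩
          · exact Or.inl (lt_trans h1 h2)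
          · exact Or.inl h1
        · rcases h2 with h2 | ⟨rfl, h2⟩
          · exact Or.inl h2
          · exact Or.inr ⟨rfl, ih h1 h2⟩

lemma prec_trichotomy (a b : List ℕ) : prec a b ∨ a = b ∨ prec b a := by
  induction a generalizing b with
  | nil => cases b <;> simp [prec]
  | cons x a ih =>
    cases b with
    | nil => simp [prec]
    | cons y b =>
      simp only [prec, List.cons.injEq]
      rcases lt_trichotomy x y with h | rfl | h
      · exact Or.inl (Or.inl h)
      · rcases ih b with h | h | h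
        · exact Or.inl (Or.inr ⟨rfl, h⟩)
        · exact Or.inr (Or.inl ⟨rfl, h⟩)
        · exact Or.inr (Or.inr (Or.inr ⟨rfl, h⟩))
      · exact Or.inr (Or.inr (Or.inl h))

lemma prec_child_iff (s : List ℕ) (k : ℕ) (a : List ℕ)
    (h : ∀ m l, k ≤ m → a ≠ s ++ m :: l) : prec a (s ++ [k]) ↔ prec a s := by
  induction s generalizing a with
  | nil =>
    cases a with
    | nil => simp [prec]
    | cons x a =>
      have hx : x < k := by
        by_contra hx
        exact h x a (not_lt.mp hx) rfl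
      simp [prec, hx]
  | cons y s ih =>
    cases a with
    | nil => simp [prec]
    | cons x a =>
      simp only [List.cons_append, prec]
      by_cases hxy : x = y
      · subst hxy
        rw [ih a (fun m l hm hal => h m l hm (by rw [hal]; rfl))]
      · simp [hxy]

/-- An injective code in which parents and left siblings come first. -/
def code (a : List ℕ) : ℕ := a.foldl (fun c n => Nat.pair c n + 1) 0

lemma code_nil : code [] = 0 := rfl

lemma code_snoc (s : List ℕ) (k : ℕ) : code (s ++ [k]) = Nat.pair (code s) k + 1 := by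
  simp [code, List.foldl_append]

lemma code_injective : Function.Injective code := by
  intro a
  induction a using List.reverseRecOn with
  | nil =>
    intro b hb
    induction b using List.reverseRecOn with
    | nil => rfl
    | append_singleton t k _ => rw [code_nil, code_snoc] at hb; omega
  | append_singleton s k ih =>
    intro b hb
    induction b using List.reverseRecOn with
    | nil => rw [code_nil, code_snoc] at hb; omega
    | append_singleton t m _ =>
      rw [code_snoc, code_snoc] at hb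
      have := Nat.pair_eq_pair.mp (Nat.add_right_cancel hb)
      rw [ih this.1, this.2]

lemma code_le_append (s l : List ℕ) : code s ≤ code (s ++ l) := by
  induction l using List.reverseRecOn with
  | nil => simp
  | append_singleton t k ih =>
    rw [← List.append_assoc, code_snoc]
    have := Nat.left_le_pair (code (s ++ t)) k
    omega

lemma code_child_le (s : List ℕ) (k m : ℕ) (l : List ℕ) (h : k ≤ m) :
    code (s ++ [k]) ≤ code (s ++ m :: l) := by
  have h1 : s ++ m :: l = (s ++ [m]) ++ l := by simp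
  rw [h1]
  refine le_trans ?_ (code_le_append _ _)
  rw [code_snoc, code_snoc]
  rcases h.eq_or_lt with rfl | h
  · exact le_rfl
  · have := Nat.pair_lt_pair_right (code s) h
    omega

lemma code_lt_child (s : List ℕ) (k : ℕ) : code s < code (s ++ [k]) := by
  rw [code_snoc]
  have := Nat.left_le_pair (code s) k
  omega

/-- An invariant system for the three-token game. -/
structure Sys (X : Type*) where
  D : X → Filter X
  Fit : X → Shape → Prop
  R111 : X → X → X → Prop
  R21 : X → X → Prop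
  R12 : X → X → Prop
  R3 : X → Prop
  fit_ne : ∀ x ch, Fit x (Shape.node ch) → (D x).NeBot
  fit : ∀ x ch n, Fit x (Shape.node ch) → ∀ᶠ x' in D x, Fit x' (ch n)
  h111a : ∀ a b c, R111 a b c → ∀ᶠ a' in D a, R111 a' b c
  h111b : ∀ a b c, R111 a b c → ∀ᶠ b' in D b, R111 a b' c
  h111c : ∀ a b c, R111 a b c → ∀ᶠ c' in D c, R111 a b c'
  h21 : ∀ a c, R21 a c → ∀ᶠ a' in D a, R111 a' a c ∧ R21 a' c
  h21c : ∀ a c, R21 a c → ∀ᶠ c' in D c, R21 a c'
  h12a : ∀ a b, R12 a b → ∀ᶠ a' in D a, R12 a' b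
  h12 : ∀ a b, R12 a b → ∀ᶠ b' in D b, R111 a b' b ∧ R12 a b'
  h3 : ∀ a, R3 a → ∀ᶠ a' in D a, R12 a' a ∧ R21 a' a ∧ R3 a'

variable {X : Type*}

/-- The invariant after the addresses of code below `n` have been assigned. -/
structure Inv (S : Sys X) (σ : Shape) (g : List ℕ → X) (n : ℕ) : Prop where
  fit : ∀ a τ, code a < n → σ.sub a = some τ → S.Fit (g a) τ
  r3 : ∀ a, code a < n → (σ.sub a).isSome → S.R3 (g a)
  r21 : ∀ a c, code a < n → code c < n → (σ.sub a).isSome → (σ.sub c).isSome → prec a c →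
    S.R21 (g a) (g c)
  r12 : ∀ a c, code a < n → code c < n → (σ.sub a).isSome → (σ.sub c).isSome → prec a c →
    S.R12 (g a) (g c)
  r111 : ∀ a b c, code a < n → code b < n → code c < n → (σ.sub a).isSome → (σ.sub b).isSome →
    (σ.sub c).isSome → prec a b → prec b c → S.R111 (g a) (g b) (g c)

lemma finite_code_lt (n : ℕ) : {a : List ℕ | code a < n}.Finite :=
  (Set.finite_Iio n).preimage code_injective.injOn

lemma Inv.step (S : Sys X) (σ : Shape) (g : List ℕ → X) (n : ℕ) (hn : 0 < n)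
    (h : Inv S σ g n) :
    ∃ g' : List ℕ → X, (∀ a, code a ≠ n → g' a = g a) ∧ Inv S σ g' (n + 1) := by
  classical
  by_cases hq : ∃ q, code q = n ∧ (σ.sub q).isSome
  swap
  · refine ⟨g, fun _ _ => rfl, ?_⟩
    have key : ∀ a, code a < n + 1 → (σ.sub a).isSome → code a < n := by
      intro a ha hv
      rcases Nat.lt_succ_iff_lt_or_eq.mp ha with h1 | h1
      · exact h1
      · exact absurd ⟨a, h1, hv⟩ hq
    constructor
    · intro a τ ha hτ
      exact h.fit a τ (key a ha (by simp [hτ])) hτ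
    · intro a ha hv; exact h.r3 a (key a ha hv) hv
    · intro a c ha hc hva hvc; exact h.r21 a c (key a ha hva) (key c hc hvc) hva hvc
    · intro a c ha hc hva hvc; exact h.r12 a c (key a ha hva) (key c hc hvc) hva hvc
    · intro a b c ha hb hc hva hvb hvc
      exact h.r111 a b c (key a ha hva) (key b hb hvb) (key c hc hvc) hva hvb hvc
  obtain ⟨q, hqn, hqv⟩ := hq
  induction q using List.reverseRecOn with
  | nil => rw [code_nil] at hqn; omega
  | append_singleton s k _ =>
  obtain ⟨τ, hτ⟩ := Option.isSome_iff_exists.mp hqv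
  obtain ⟨ch, hs, rfl⟩ := Shape.sub_append_singleton σ s k τ hτ
  have hsn : code s < n := hqn ▸ code_lt_child s k
  have hsv : (σ.sub s).isSome := by simp [hs]
  have hfit := h.fit s _ hsn hs
  have := S.fit_ne _ _ hfit
  have hF := finite_code_lt n
  have hFF := hF.prod hF
  have e0 := S.fit _ _ k hfit
  have e1 := S.h3 _ (h.r3 s hsn hsv)
  have e2 : ∀ᶠ x' in S.D (g s), ∀ c ∈ {a : List ℕ | code a < n}, (σ.sub c).isSome → prec s c →
      (S.R111 x' (g s) (g c) ∧ S.R21 x' (g c)) ∧ S.R12 x' (g c) := by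
    rw [eventually_all_finite hF]
    intro c hc
    by_cases h1 : (σ.sub c).isSome ∧ prec s c
    · filter_upwards [S.h21 _ _ (h.r21 s c hsn hc hsv h1.1 h1.2),
        S.h12a _ _ (h.r12 s c hsn hc hsv h1.1 h1.2)] with x' hx hx' _ _ using ⟨hx, hx'⟩
    · exact Eventually.of_forall fun _ h2 h3 => absurd ⟨h2, h3⟩ h1
  have e3 : ∀ᶠ x' in S.D (g s), ∀ a ∈ {a : List ℕ | code a < n}, (σ.sub a).isSome → prec a s →
      (S.R111 (g a) x' (g s) ∧ S.R12 (g a) x') ∧ S.R21 (g a) x' := by
    rw [eventually_all_finite hF]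
    intro c hc
    by_cases h1 : (σ.sub c).isSome ∧ prec c s
    · filter_upwards [S.h12 _ _ (h.r12 c s hc hsn h1.1 hsv h1.2),
        S.h21c _ _ (h.r21 c s hc hsn h1.1 hsv h1.2)] with x' hx hx' _ _ using ⟨hx, hx'⟩
    · exact Eventually.of_forall fun _ h2 h3 => absurd ⟨h2, h3⟩ h1
  have e4 : ∀ᶠ x' in S.D (g s), ∀ p ∈ {a : List ℕ | code a < n} ×ˢ {a : List ℕ | code a < n},
      (σ.sub p.1).isSome → (σ.sub p.2).isSome →
      (prec p.1 p.2 → prec p.2 s → S.R111 (g p.1) (g p.2) x') ∧
      (prec p.1 s → prec s p.2 → S.R111 (g p.1) x' (g p.2)) ∧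
      (prec s p.1 → prec p.1 p.2 → S.R111 x' (g p.1) (g p.2)) := by
    rw [eventually_all_finite hFF]
    rintro ⟨a, b⟩ ⟨ha, hb⟩
    by_cases h1 : (σ.sub a).isSome ∧ (σ.sub b).isSome
    · have f1 : ∀ᶠ x' in S.D (g s), prec a b → prec b s → S.R111 (g a) (g b) x' := by
        by_cases h2 : prec a b ∧ prec b s
        · filter_upwards [S.h111c _ _ _ (h.r111 a b s ha hb hsn h1.1 h1.2 hsv h2.1 h2.2)]
            with x' hx _ _ using hx
        · exact Eventually.of_forall fun _ h3 h4 => absurd ⟨h3, h4⟩ h2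
      have f2 : ∀ᶠ x' in S.D (g s), prec a s → prec s b → S.R111 (g a) x' (g b) := by
        by_cases h2 : prec a s ∧ prec s b
        · filter_upwards [S.h111b _ _ _ (h.r111 a s b ha hsn hb h1.1 hsv h1.2 h2.1 h2.2)]
            with x' hx _ _ using hx
        · exact Eventually.of_forall fun _ h3 h4 => absurd ⟨h3, h4⟩ h2
      have f3 : ∀ᶠ x' in S.D (g s), prec s a → prec a b → S.R111 x' (g a) (g b) := by
        by_cases h2 : prec s a ∧ prec a b
        · filter_upwards [S.h111a _ _ _ (h.r111 s a b hsn ha hb hsv h1.1 h1.2 h2.1 h2.2)]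
            with x' hx _ _ using hx
        · exact Eventually.of_forall fun _ h3 h4 => absurd ⟨h3, h4⟩ h2
      filter_upwards [f1, f2, f3] with x' h1 h2 h3 _ _ using ⟨h1, h2, h3⟩
    · exact Eventually.of_forall fun _ h2 h3 => absurd ⟨h2, h3⟩ h1
  obtain ⟨x, ⟨hx0, hx1⟩, ⟨hx2, hx3⟩, hx4⟩ := ((e0.and e1).and ((e2.and e3).and e4)).exists
  set q := s ++ [k] with hqdef
  have hcase : ∀ a, code a < n + 1 → a = q ∨ code a < n := by
    intro a ha
    rcases Nat.lt_succ_iff_lt_or_eq.mp ha with h1 | h1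
    · exact Or.inr h1
    · exact Or.inl (code_injective (h1.trans hqn.symm))
  have hne : ∀ a, code a < n → a ≠ q := fun a ha h1 => by rw [h1, hqn] at ha; exact lt_irrefl _ ha
  have hlo : ∀ a, code a < n → (prec a q ↔ prec a s) := by
    intro a ha
    refine prec_child_iff s k a fun m l hm hal => ?_
    have := code_child_le s k m l hm
    rw [← hal, ← hqdef, hqn] at this
    omega
  have hhi : ∀ a, code a < n → prec q a → a = s ∨ prec s a := by
    intro a ha hqa
    rcases prec_trichotomy a s with h1 | h1 | h1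
    · exact absurd (prec_trans hqa ((hlo a ha).mpr h1)) (prec_irrefl _)
    · exact Or.inl h1
    · exact Or.inr h1
  have gq : Function.update g q x q = x := Function.update_self ..
  have go : ∀ a, code a < n → Function.update g q x a = g a :=
    fun a ha => Function.update_of_ne (hne a ha) ..
  refine ⟨Function.update g q x, fun a ha => Function.update_of_ne (fun h1 => ha (by rw [h1]; exact hqn)) .., ?_⟩
  constructor
  · intro a τ' ha hτ'
    rcases hcase a ha with rfl | ha
    · rw [gq]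
      rw [hτ] at hτ'
      cases hτ'
      exact hx0
    · rw [go a ha]; exact h.fit a τ' ha hτ'
  · intro a ha hv
    rcases hcase a ha with rfl | ha
    · rw [gq]; exact hx1.2.2
    · rw [go a ha]; exact h.r3 a ha hv
  · intro a c ha hc hva hvc hac
    rcases hcase a ha with rfl | ha
    · rcases hcase c hc with rfl | hc
      · exact absurd hac (prec_irrefl _)
      · rw [gq, go c hc]
        rcases hhi c hc hac with rfl | h1
        · exact hx1.2.1
        · exact (hx2 c hc hvc h1).1.2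
    · rcases hcase c hc with rfl | hc
      · rw [gq, go a ha]; exact (hx3 a ha hva ((hlo a ha).mp hac)).2
      · rw [go a ha, go c hc]; exact h.r21 a c ha hc hva hvc hac
  · intro a c ha hc hva hvc hac
    rcases hcase a ha with rfl | ha
    · rcases hcase c hc with rfl | hc
      · exact absurd hac (prec_irrefl _)
      · rw [gq, go c hc]
        rcases hhi c hc hac with rfl | h1
        · exact hx1.1
        · exact (hx2 c hc hvc h1).2
    · rcases hcase c hc with rfl | hc
      · rw [gq, go a ha]; exact (hx3 a ha hva ((hlo a ha).mp hac)).1.2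
      · rw [go a ha, go c hc]; exact h.r12 a c ha hc hva hvc hac
  · intro a b c ha hb hc hva hvb hvc hab hbc
    rcases hcase a ha with rfl | ha
    · rcases hcase b hb with rfl | hb
      · exact absurd hab (prec_irrefl _)
      rcases hcase c hc with rfl | hc
      · exact absurd (prec_trans hab hbc) (prec_irrefl _)
      rw [gq, go b hb, go c hc]
      rcases hhi b hb hab with rfl | h1
      · exact (hx2 c hc hvc hbc).1.1
      · exact (hx4 (b, c) ⟨hb, hc⟩ hvb hvc).2.2 h1 hbc
    · rcases hcase b hb with rfl | hb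
      · rcases hcase c hc with rfl | hc
        · exact absurd hbc (prec_irrefl _)
        rw [gq, go a ha, go c hc]
        rcases hhi c hc hbc with rfl | h1
        · exact (hx3 a ha hva ((hlo a ha).mp hab)).1.1
        · exact (hx4 (a, c) ⟨ha, hc⟩ hva hvc).2.1 ((hlo a ha).mp hab) h1
      · rcases hcase c hc with rfl | hc
        · rw [gq, go a ha, go b hb]
          exact (hx4 (a, b) ⟨ha, hb⟩ hva hvb).1 hab ((hlo b hb).mp hbc)
        · rw [go a ha, go b hb, go c hc]
          exact h.r111 a b c ha hb hc hva hvb hvc hab hbc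

/-- The selection lemma. -/
theorem Sys.select (S : Sys X) (σ : Shape) (root : X) (hfit : S.Fit root σ) (h3 : S.R3 root) :
    ∃ g : List ℕ → X, (∀ a τ, σ.sub a = some τ → S.Fit (g a) τ) ∧
      (∀ a c, (σ.sub a).isSome → (σ.sub c).isSome → prec a c → S.R21 (g a) (g c)) ∧
      ∀ a b c, (σ.sub a).isSome → (σ.sub b).isSome → (σ.sub c).isSome →
        prec a b → prec b c → S.R111 (g a) (g b) (g c) := by
  have h0 : Inv S σ (fun _ => root) 1 := by
    have key : ∀ a, code a < 1 → a = [] := fun a ha =>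
      code_injective (by rw [code_nil]; omega)
    constructor
    · intro a τ ha hτ
      rw [key a ha] at hτ
      cases σ <;> (simp only [Shape.sub, Option.some.injEq] at hτ; rw [← hτ]; exact hfit)
    · intro _ _ _; exact h3
    · intro a c ha _ _ _ hac; rw [key a ha] at hac; exact absurd hac (by simp [prec])
    · intro a c ha _ _ _ hac; rw [key a ha] at hac; exact absurd hac (by simp [prec])
    · intro a b c ha _ _ _ _ _ hab; rw [key a ha] at hab; exact absurd hab (by simp [prec])
  let G : (n : ℕ) → {g : List ℕ → X // Inv S σ g (n + 1)} := fun n =>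
    Nat.rec ⟨fun _ => root, h0⟩
      (fun m p => ⟨(Inv.step S σ p.1 (m + 1) (Nat.succ_pos m) p.2).choose,
        (Inv.step S σ p.1 (m + 1) (Nat.succ_pos m) p.2).choose_spec.2⟩) n
  have hG : ∀ m a, code a ≠ m + 1 → (G (m + 1)).1 a = (G m).1 a := fun m a ha =>
    (Inv.step S σ (G m).1 (m + 1) (Nat.succ_pos m) (G m).2).choose_spec.1 a ha
  have hst : ∀ a m, code a ≤ m → (G m).1 a = (G (code a)).1 a := by
    intro a m hm
    induction m, hm using Nat.le_induction with
    | base => rfl
    | succ m hm ih => rw [hG m a (by omega), ih]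
  refine ⟨fun a => (G (code a)).1 a, ?_, ?_, ?_⟩
  · intro a τ hτ
    exact (G (code a)).2.fit a τ (Nat.lt_succ_self _) hτ
  · intro a c ha hc hac
    have := (G (code a + code c)).2.r21 a c (by omega) (by omega) ha hc hac
    rwa [hst a _ (by omega), hst c _ (by omega)] at this
  · intro a b c ha hb hc hab hbc
    have := (G (code a + code b + code c)).2.r111 a b c (by omega) (by omega) (by omega)
      ha hb hc hab hbc
    rwa [hst a _ (by omega), hst b _ (by omega), hst c _ (by omega)] at this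

end Pool.Agent.MP_71094f_lc

end

section

set_option autoImplicit false

/-!
Selection lemma with move filters that depend on the index of the child.
-/

namespace Pool.Agent.MP_71094f_lc.H37

open Filter

/-- An invariant system for the three-token game, with move filters indexed by the child. -/
structure Sys (X : Type*) where
  D : X → ℕ → Filter X
  Fit : X → Shape → Prop
  R111 : X → X → X → Prop
  R21 : X → X → Prop
  R12 : X → X → Prop
  R3 : X → Prop
  fit_ne : ∀ x ch n, Fit x (Shape.node ch) → (D x n).NeBot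
  fit : ∀ x ch n, R3 x → Fit x (Shape.node ch) → ∀ᶠ x' in D x n, Fit x' (ch n)
  h111a : ∀ a b c n, R111 a b c → ∀ᶠ a' in D a n, R111 a' b c
  h111b : ∀ a b c n, R111 a b c → ∀ᶠ b' in D b n, R111 a b' c
  h111c : ∀ a b c n, R111 a b c → ∀ᶠ c' in D c n, R111 a b c'
  h21 : ∀ a c n, R21 a c → ∀ᶠ a' in D a n, R111 a' a c ∧ R21 a' c
  h21c : ∀ a c n, R21 a c → ∀ᶠ c' in D c n, R21 a c'
  h12a : ∀ a b n, R12 a b → ∀ᶠ a' in D a n, R12 a' b
  h12 : ∀ a b n, R12 a b → ∀ᶠ b' in D b n, R111 a b' b ∧ R12 a b'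
  h3 : ∀ a n, R3 a → ∀ᶠ a' in D a n, R12 a' a ∧ R21 a' a ∧ R3 a'

variable {X : Type*}

/-- The invariant after the addresses of code below `n` have been assigned. -/
structure Inv (S : Sys X) (σ : Shape) (g : List ℕ → X) (n : ℕ) : Prop where
  fit : ∀ a τ, code a < n → σ.sub a = some τ → S.Fit (g a) τ
  r3 : ∀ a, code a < n → (σ.sub a).isSome → S.R3 (g a)
  r21 : ∀ a c, code a < n → code c < n → (σ.sub a).isSome → (σ.sub c).isSome → prec a c →
    S.R21 (g a) (g c)
  r12 : ∀ a c, code a < n → code c < n → (σ.sub a).isSome → (σ.sub c).isSome → prec a c →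
    S.R12 (g a) (g c)
  r111 : ∀ a b c, code a < n → code b < n → code c < n → (σ.sub a).isSome → (σ.sub b).isSome →
    (σ.sub c).isSome → prec a b → prec b c → S.R111 (g a) (g b) (g c)

lemma Inv.step (S : Sys X) (σ : Shape) (g : List ℕ → X) (n : ℕ) (hn : 0 < n)
    (h : Inv S σ g n) :
    ∃ g' : List ℕ → X, (∀ a, code a ≠ n → g' a = g a) ∧ Inv S σ g' (n + 1) := by
  classical
  by_cases hq : ∃ q, code q = n ∧ (σ.sub q).isSome
  swap
  · refine ⟨g, fun _ _ => rfl, ?_⟩
    have key : ∀ a, code a < n + 1 → (σ.sub a).isSome → code a < n := by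
      intro a ha hv
      rcases Nat.lt_succ_iff_lt_or_eq.mp ha with h1 | h1
      · exact h1
      · exact absurd ⟨a, h1, hv⟩ hq
    constructor
    · intro a τ ha hτ
      exact h.fit a τ (key a ha (by simp [hτ])) hτ
    · intro a ha hv; exact h.r3 a (key a ha hv) hv
    · intro a c ha hc hva hvc; exact h.r21 a c (key a ha hva) (key c hc hvc) hva hvc
    · intro a c ha hc hva hvc; exact h.r12 a c (key a ha hva) (key c hc hvc) hva hvc
    · intro a b c ha hb hc hva hvb hvc
      exact h.r111 a b c (key a ha hva) (key b hb hvb) (key c hc hvc) hva hvb hvc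
  obtain ⟨q, hqn, hqv⟩ := hq
  induction q using List.reverseRecOn with
  | nil => rw [code_nil] at hqn; omega
  | append_singleton s k _ =>
  obtain ⟨τ, hτ⟩ := Option.isSome_iff_exists.mp hqv
  obtain ⟨ch, hs, rfl⟩ := Shape.sub_append_singleton σ s k τ hτ
  have hsn : code s < n := hqn ▸ code_lt_child s k
  have hsv : (σ.sub s).isSome := by simp [hs]
  have hfit := h.fit s _ hsn hs
  have := S.fit_ne _ _ k hfit
  have hF := finite_code_lt n
  have hFF := hF.prod hF
  have e0 := S.fit _ _ k (h.r3 s hsn hsv) hfit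
  have e1 := S.h3 _ k (h.r3 s hsn hsv)
  have e2 : ∀ᶠ x' in S.D (g s) k, ∀ c ∈ {a : List ℕ | code a < n}, (σ.sub c).isSome → prec s c →
      (S.R111 x' (g s) (g c) ∧ S.R21 x' (g c)) ∧ S.R12 x' (g c) := by
    rw [eventually_all_finite hF]
    intro c hc
    by_cases h1 : (σ.sub c).isSome ∧ prec s c
    · filter_upwards [S.h21 _ _ k (h.r21 s c hsn hc hsv h1.1 h1.2),
        S.h12a _ _ k (h.r12 s c hsn hc hsv h1.1 h1.2)] with x' hx hx' _ _ using ⟨hx, hx'⟩
    · exact Eventually.of_forall fun _ h2 h3 => absurd ⟨h2, h3⟩ h1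
  have e3 : ∀ᶠ x' in S.D (g s) k, ∀ a ∈ {a : List ℕ | code a < n}, (σ.sub a).isSome → prec a s →
      (S.R111 (g a) x' (g s) ∧ S.R12 (g a) x') ∧ S.R21 (g a) x' := by
    rw [eventually_all_finite hF]
    intro c hc
    by_cases h1 : (σ.sub c).isSome ∧ prec c s
    · filter_upwards [S.h12 _ _ k (h.r12 c s hc hsn h1.1 hsv h1.2),
        S.h21c _ _ k (h.r21 c s hc hsn h1.1 hsv h1.2)] with x' hx hx' _ _ using ⟨hx, hx'⟩
    · exact Eventually.of_forall fun _ h2 h3 => absurd ⟨h2, h3⟩ h1
  have e4 : ∀ᶠ x' in S.D (g s) k, ∀ p ∈ {a : List ℕ | code a < n} ×ˢ {a : List ℕ | code a < n},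
      (σ.sub p.1).isSome → (σ.sub p.2).isSome →
      (prec p.1 p.2 → prec p.2 s → S.R111 (g p.1) (g p.2) x') ∧
      (prec p.1 s → prec s p.2 → S.R111 (g p.1) x' (g p.2)) ∧
      (prec s p.1 → prec p.1 p.2 → S.R111 x' (g p.1) (g p.2)) := by
    rw [eventually_all_finite hFF]
    rintro ⟨a, b⟩ ⟨ha, hb⟩
    by_cases h1 : (σ.sub a).isSome ∧ (σ.sub b).isSome
    · have f1 : ∀ᶠ x' in S.D (g s) k, prec a b → prec b s → S.R111 (g a) (g b) x' := by
        by_cases h2 : prec a b ∧ prec b s
        · filter_upwards [S.h111c _ _ _ k (h.r111 a b s ha hb hsn h1.1 h1.2 hsv h2.1 h2.2)]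
            with x' hx _ _ using hx
        · exact Eventually.of_forall fun _ h3 h4 => absurd ⟨h3, h4⟩ h2
      have f2 : ∀ᶠ x' in S.D (g s) k, prec a s → prec s b → S.R111 (g a) x' (g b) := by
        by_cases h2 : prec a s ∧ prec s b
        · filter_upwards [S.h111b _ _ _ k (h.r111 a s b ha hsn hb h1.1 hsv h1.2 h2.1 h2.2)]
            with x' hx _ _ using hx
        · exact Eventually.of_forall fun _ h3 h4 => absurd ⟨h3, h4⟩ h2
      have f3 : ∀ᶠ x' in S.D (g s) k, prec s a → prec a b → S.R111 x' (g a) (g b) := by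
        by_cases h2 : prec s a ∧ prec a b
        · filter_upwards [S.h111a _ _ _ k (h.r111 s a b hsn ha hb hsv h1.1 h1.2 h2.1 h2.2)]
            with x' hx _ _ using hx
        · exact Eventually.of_forall fun _ h3 h4 => absurd ⟨h3, h4⟩ h2
      filter_upwards [f1, f2, f3] with x' h1 h2 h3 _ _ using ⟨h1, h2, h3⟩
    · exact Eventually.of_forall fun _ h2 h3 => absurd ⟨h2, h3⟩ h1
  obtain ⟨x, ⟨hx0, hx1⟩, ⟨hx2, hx3⟩, hx4⟩ := ((e0.and e1).and ((e2.and e3).and e4)).exists
  set q := s ++ [k] with hqdef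
  have hcase : ∀ a, code a < n + 1 → a = q ∨ code a < n := by
    intro a ha
    rcases Nat.lt_succ_iff_lt_or_eq.mp ha with h1 | h1
    · exact Or.inr h1
    · exact Or.inl (code_injective (h1.trans hqn.symm))
  have hne : ∀ a, code a < n → a ≠ q := fun a ha h1 => by rw [h1, hqn] at ha; exact lt_irrefl _ ha
  have hlo : ∀ a, code a < n → (prec a q ↔ prec a s) := by
    intro a ha
    refine prec_child_iff s k a fun m l hm hal => ?_
    have := code_child_le s k m l hm
    rw [← hal, ← hqdef, hqn] at this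
    omega
  have hhi : ∀ a, code a < n → prec q a → a = s ∨ prec s a := by
    intro a ha hqa
    rcases prec_trichotomy a s with h1 | h1 | h1
    · exact absurd (prec_trans hqa ((hlo a ha).mpr h1)) (prec_irrefl _)
    · exact Or.inl h1
    · exact Or.inr h1
  have gq : Function.update g q x q = x := Function.update_self ..
  have go : ∀ a, code a < n → Function.update g q x a = g a :=
    fun a ha => Function.update_of_ne (hne a ha) ..
  refine ⟨Function.update g q x, fun a ha => Function.update_of_ne (fun h1 => ha (by rw [h1]; exact hqn)) .., ?_⟩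
  constructor
  · intro a τ' ha hτ'
    rcases hcase a ha with rfl | ha
    · rw [gq]
      rw [hτ] at hτ'
      cases hτ'
      exact hx0
    · rw [go a ha]; exact h.fit a τ' ha hτ'
  · intro a ha hv
    rcases hcase a ha with rfl | ha
    · rw [gq]; exact hx1.2.2
    · rw [go a ha]; exact h.r3 a ha hv
  · intro a c ha hc hva hvc hac
    rcases hcase a ha with rfl | ha
    · rcases hcase c hc with rfl | hc
      · exact absurd hac (prec_irrefl _)
      · rw [gq, go c hc]
        rcases hhi c hc hac with rfl | h1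
        · exact hx1.2.1
        · exact (hx2 c hc hvc h1).1.2
    · rcases hcase c hc with rfl | hc
      · rw [gq, go a ha]; exact (hx3 a ha hva ((hlo a ha).mp hac)).2
      · rw [go a ha, go c hc]; exact h.r21 a c ha hc hva hvc hac
  · intro a c ha hc hva hvc hac
    rcases hcase a ha with rfl | ha
    · rcases hcase c hc with rfl | hc
      · exact absurd hac (prec_irrefl _)
      · rw [gq, go c hc]
        rcases hhi c hc hac with rfl | h1
        · exact hx1.1
        · exact (hx2 c hc hvc h1).2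
    · rcases hcase c hc with rfl | hc
      · rw [gq, go a ha]; exact (hx3 a ha hva ((hlo a ha).mp hac)).1.2
      · rw [go a ha, go c hc]; exact h.r12 a c ha hc hva hvc hac
  · intro a b c ha hb hc hva hvb hvc hab hbc
    rcases hcase a ha with rfl | ha
    · rcases hcase b hb with rfl | hb
      · exact absurd hab (prec_irrefl _)
      rcases hcase c hc with rfl | hc
      · exact absurd (prec_trans hab hbc) (prec_irrefl _)
      rw [gq, go b hb, go c hc]
      rcases hhi b hb hab with rfl | h1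
      · exact (hx2 c hc hvc hbc).1.1
      · exact (hx4 (b, c) ⟨hb, hc⟩ hvb hvc).2.2 h1 hbc
    · rcases hcase b hb with rfl | hb
      · rcases hcase c hc with rfl | hc
        · exact absurd hbc (prec_irrefl _)
        rw [gq, go a ha, go c hc]
        rcases hhi c hc hbc with rfl | h1
        · exact (hx3 a ha hva ((hlo a ha).mp hab)).1.1
        · exact (hx4 (a, c) ⟨ha, hc⟩ hva hvc).2.1 ((hlo a ha).mp hab) h1
      · rcases hcase c hc with rfl | hc
        · rw [gq, go a ha, go b hb]
          exact (hx4 (a, b) ⟨ha, hb⟩ hva hvb).1 hab ((hlo b hb).mp hbc)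
        · rw [go a ha, go b hb, go c hc]
          exact h.r111 a b c ha hb hc hva hvb hvc hab hbc

/-- The selection lemma. -/
theorem Sys.select (S : Sys X) (σ : Shape) (root : X) (hfit : S.Fit root σ) (h3 : S.R3 root) :
    ∃ g : List ℕ → X, (∀ a τ, σ.sub a = some τ → S.Fit (g a) τ) ∧
      (∀ a c, (σ.sub a).isSome → (σ.sub c).isSome → prec a c → S.R21 (g a) (g c)) ∧
      ∀ a b c, (σ.sub a).isSome → (σ.sub b).isSome → (σ.sub c).isSome →
        prec a b → prec b c → S.R111 (g a) (g b) (g c) := by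
  have h0 : Inv S σ (fun _ => root) 1 := by
    have key : ∀ a, code a < 1 → a = [] := fun a ha =>
      code_injective (by rw [code_nil]; omega)
    constructor
    · intro a τ ha hτ
      rw [key a ha] at hτ
      cases σ <;> (simp only [Shape.sub, Option.some.injEq] at hτ; rw [← hτ]; exact hfit)
    · intro _ _ _; exact h3
    · intro a c ha _ _ _ hac; rw [key a ha] at hac; exact absurd hac (by simp [prec])
    · intro a c ha _ _ _ hac; rw [key a ha] at hac; exact absurd hac (by simp [prec])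
    · intro a b c ha _ _ _ _ _ hab; rw [key a ha] at hab; exact absurd hab (by simp [prec])
  let G : (n : ℕ) → {g : List ℕ → X // Inv S σ g (n + 1)} := fun n =>
    Nat.rec ⟨fun _ => root, h0⟩
      (fun m p => ⟨(Inv.step S σ p.1 (m + 1) (Nat.succ_pos m) p.2).choose,
        (Inv.step S σ p.1 (m + 1) (Nat.succ_pos m) p.2).choose_spec.2⟩) n
  have hG : ∀ m a, code a ≠ m + 1 → (G (m + 1)).1 a = (G m).1 a := fun m a ha =>
    (Inv.step S σ (G m).1 (m + 1) (Nat.succ_pos m) (G m).2).choose_spec.1 a ha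
  have hst : ∀ a m, code a ≤ m → (G m).1 a = (G (code a)).1 a := by
    intro a m hm
    induction m, hm using Nat.le_induction with
    | base => rfl
    | succ m hm ih => rw [hG m a (by omega), ih]
  refine ⟨fun a => (G (code a)).1 a, ?_, ?_, ?_⟩
  · intro a τ hτ
    exact (G (code a)).2.fit a τ (Nat.lt_succ_self _) hτ
  · intro a c ha hc hac
    have := (G (code a + code c)).2.r21 a c (by omega) (by omega) ha hc hac
    rwa [hst a _ (by omega), hst c _ (by omega)] at this
  · intro a b c ha hb hc hab hbc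
    have := (G (code a + code b + code c)).2.r111 a b c (by omega) (by omega) (by omega)
      ha hb hc hab hbc
    rwa [hst a _ (by omega), hst b _ (by omega), hst c _ (by omega)] at this

end Pool.Agent.MP_71094f_lc.H37

end
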