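import Mathlib
import Pool.Agent.Mg.F71094f.G22fd6b

section

set_option autoImplicit false

/-!
The club filter on a well-order of type omega one, with normality.
-/

namespace Pool.Agent.MP_71094f_lc

open Filter Set

/-- A well-order of type omega one. -/
class OmOne (Ω : Type) [LinearOrder Ω] : Prop where
  wf : WellFounded ((· < ·) : Ω → Ω → Prop)
  cnt : ∀ a : Ω, (Iic a).Countable
  unc : ¬ (univ : Set Ω).Countable

variable {Ω : Type} [LinearOrder Ω] [hΩ : OmOne Ω]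

include hΩ in
lemma exists_ub_of_countable {s : Set Ω} (hs : s.Countable) : ∃ b : Ω, ∀ a ∈ s, a < b := by
  by_contra h
  push Not at h
  apply hΩ.unc
  have : (univ : Set Ω) ⊆ ⋃ a ∈ s, Iic a := by
    intro b _
    obtain ⟨a, ha, hb⟩ := h b
    exact mem_biUnion ha hb
  exact (hs.biUnion fun a _ => hΩ.cnt a).mono this

/-- Closure points of a function. -/
def Clo (g : Ω → Ω) : Set Ω := {w | (∃ v, v < w) ∧ ∀ v, v < w → g v < w}

include hΩ in
lemma exists_clo (g : Ω → Ω) (a : Ω) : ∃ w, a < w ∧ w ∈ Clo g := by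
  have h1 : ∀ v : Ω, ∃ b, v < b ∧ ∀ u, u ≤ v → g u < b := by
    intro v
    obtain ⟨b, hb⟩ := exists_ub_of_countable (((hΩ.cnt v).image g).insert v)
    exact ⟨b, hb v (mem_insert _ _), fun u hu => hb _ (mem_insert_of_mem _ ⟨u, hu, rfl⟩)⟩
  choose h hh1 hh2 using h1
  let s : ℕ → Ω := fun n => h^[n] a
  have hs : ∀ n, s (n + 1) = h (s n) := fun n => Function.iterate_succ_apply' h n a
  obtain ⟨b, hb⟩ := exists_ub_of_countable (countable_range s)
  let T : Set Ω := {b | ∀ n, s n < b}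
  have hT : T.Nonempty := ⟨b, fun n => hb _ ⟨n, rfl⟩⟩
  have hw := hΩ.wf.min_mem T hT
  refine ⟨hΩ.wf.min T hT, hw 0, ⟨a, hw 0⟩, fun v hv => ?_⟩
  have : v ∉ T := fun hvT => hΩ.wf.not_lt_min T hvT hv
  simp only [T, mem_setOf_eq, not_forall, not_lt] at this
  obtain ⟨n, hn⟩ := this
  have := hh2 (s n) v hn
  rw [← hs] at this
  exact this.trans (hw _)

/-- The club filter. -/
def club (Ω : Type) [LinearOrder Ω] [OmOne Ω] : Filter Ω where
  sets := {X | ∃ g : Ω → Ω, Clo g ⊆ X}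
  univ_sets := ⟨id, subset_univ _⟩
  sets_of_superset := fun ⟨g, hg⟩ h => ⟨g, hg.trans h⟩
  inter_sets := by
    rintro X Y ⟨g, hg⟩ ⟨g', hg'⟩
    refine ⟨fun v => max (g v) (g' v), fun w hw => ⟨hg ⟨hw.1, fun v hv => ?_⟩, hg' ⟨hw.1, fun v hv => ?_⟩⟩⟩
    · exact (le_max_left _ _).trans_lt (hw.2 v hv)
    · exact (le_max_right _ _).trans_lt (hw.2 v hv)

lemma eventually_club {P : Ω → Prop} : (∀ᶠ w in club Ω, P w) ↔ ∃ g : Ω → Ω, ∀ w ∈ Clo g, P w :=
  Iff.rfl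

lemma club_gt (a : Ω) : ∀ᶠ w in club Ω, a < w :=
  eventually_club.mpr ⟨fun _ => a, fun _ hw => by obtain ⟨v, hv⟩ := hw.1; exact hw.2 v hv⟩

lemma club_diag {P : Ω → Ω → Prop} (h : ∀ η, ∀ᶠ w in club Ω, P η w) :
    ∀ᶠ w in club Ω, ∀ η, η < w → P η w := by
  choose g hg using fun η => eventually_club.mp (h η)
  have h1 : ∀ v : Ω, ∃ b, ∀ η u, η ≤ v → u ≤ v → g η u < b := by
    intro v
    obtain ⟨b, hb⟩ := exists_ub_of_countable
      (((hΩ.cnt v).prod (hΩ.cnt v)).image fun p : Ω × Ω => g p.1 p.2)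
    exact ⟨b, fun η u h1 h2 => hb _ ⟨(η, u), ⟨h1, h2⟩, rfl⟩⟩
  choose G hG using h1
  refine eventually_club.mpr ⟨G, fun w hw η hη => hg η w ⟨hw.1, fun u hu => ?_⟩⟩
  exact (hG (max η u) η u (le_max_left _ _) (le_max_right _ _)).trans (hw.2 _ (max_lt hη hu))

lemma club_countable {ι : Type*} {s : Set ι} (hs : s.Countable) {P : ι → Ω → Prop}
    (h : ∀ i ∈ s, ∀ᶠ w in club Ω, P i w) : ∀ᶠ w in club Ω, ∀ i ∈ s, P i w := by
  classical
  have h' : ∀ i, ∃ g : Ω → Ω, i ∈ s → ∀ w ∈ Clo g, P i w := by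
    intro i
    by_cases hi : i ∈ s
    · obtain ⟨g, hg⟩ := eventually_club.mp (h i hi)
      exact ⟨g, fun _ => hg⟩
    · exact ⟨id, fun h => absurd h hi⟩
  choose g hg using h'
  have h1 : ∀ v : Ω, ∃ b, ∀ i ∈ s, g i v < b := by
    intro v
    obtain ⟨b, hb⟩ := exists_ub_of_countable (hs.image fun i => g i v)
    exact ⟨b, fun i hi => hb _ ⟨i, hi, rfl⟩⟩
  choose G hG using h1
  exact eventually_club.mpr ⟨G, fun w hw i hi => hg i hi w ⟨hw.1, fun v hv =>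
    (hG v i hi).trans (hw.2 v hv)⟩⟩

lemma frequently_club_exists {P : Ω → Prop} (h : ∃ᶠ w in club Ω, P w) (a : Ω) :
    ∃ w, a < w ∧ P w := by
  obtain ⟨w, hw⟩ := (h.and_eventually (club_gt a)).exists
  exact ⟨w, hw.2, hw.1⟩

lemma club_neBot [Nonempty Ω] : (club Ω).NeBot := by
  refine ⟨fun h => ?_⟩
  have : (∅ : Set Ω) ∈ club Ω := by rw [h]; exact mem_bot
  obtain ⟨g, hg⟩ := this
  obtain ⟨w, -, hw⟩ := exists_clo g (Classical.arbitrary Ω)
  exact hg hw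

/-- Pressing down with countably many values below each bound. -/
lemma club_fodor {A : Type*} (Bd : A → Ω → Prop) (hBd : ∀ η, {a | Bd a η}.Countable)
    {P : A → Ω → Prop} (h : ∃ᶠ w in club Ω, ∃ η, η < w ∧ ∃ a, Bd a η ∧ P a w) :
    ∃ η a, Bd a η ∧ ∃ᶠ w in club Ω, P a w := by
  by_contra hcon
  push Not at hcon
  apply h
  have h1 : ∀ η, ∀ᶠ w in club Ω, ∀ a ∈ {a | Bd a η}, ¬ P a w := by
    intro η
    refine club_countable (hBd η) fun a ha => ?_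
    have := hcon η a ha
    simpa [Filter.Frequently] using this
  filter_upwards [club_diag h1] with w hw
  rintro ⟨η, hη, a, ha, hP⟩
  exact hw η hη a ha hP

end Pool.Agent.MP_71094f_lc

end

section

set_option autoImplicit false

/-!
The family of faithful measured trees, built by recursion on the apex.
-/

namespace Pool.Agent.MP_71094f_lc.H37

open Filter Set Node

/-- Finite sets of parameters with level lists. -/
abbrev Prm (Ω : Type) := Set (Node Ω × List ℕ)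

/-- Atomic tracked relations. -/
abbrev Rel1 (Ω : Type) := Node Ω → Node Ω → Ω → Prop

/-- Relations between a candidate child and a top. -/
abbrev Rel2 (Ω : Type) := Prm Ω → Prm Ω → Node Ω → Ω → Prop

variable {Ω : Type} [LinearOrder Ω] (B : Ω → Ω → Ω → Prop)

/-- A demand at a node. -/
def Dem (S : Set (Node Ω)) (b : Node Ω) (μ : List ℕ) : Prop :=
  ∀ p ∈ S, p.apex < b.apex → ∀ α : List ℕ, α.length = μ.length → ¬ H B p b (μ.zip α) b.apex

/-- A tree satisfying a system of demands. -/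
def Sat (S : Set (Node Ω)) (D : Set (ℕ × List ℕ)) (v : Node Ω) : Prop :=
  ∀ r, ∀ᶠ c in (v.desc r : Filter (Node Ω)),
    c.apex ≤ v.apex ∧ c ∈ S ∧ ∀ μ, (c.rank, μ) ∈ D → Dem B S c μ

/-- Finite bounded parameter sets. -/
def FinP (S : Set (Node Ω)) (η : Ω) (W : Prm Ω) : Prop :=
  W.Finite ∧ ∀ x ∈ W, x.1 ∈ S ∧ x.1.apex ≤ η

/-- Existence of a candidate below a top. -/
def ExF (S : Set (Node Ω)) (ψ : Ω → Prop) (R : Rel2 Ω) (W P : Prm Ω) (n : ℕ)
    (D : Set (ℕ × List ℕ)) (w : Ω) : Prop :=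
  ∃ v : Node Ω, v.apex < w ∧ ψ v.apex ∧ v.rank = n ∧ Sat B S D v ∧ R W P v w

variable (R1 : Set (Rel1 Ω)) (R2 : Set (Rel2 Ω))

/-- Tracked predicates of bounded depth. -/
def TrN (S : Set (Node Ω)) (η : Ω) : ℕ → Set (Ω → Prop)
  | 0 => {φ | ∃ R ∈ R1, ∃ p ∈ S, ∃ q ∈ S, p.apex ≤ η ∧ q.apex ≤ η ∧ φ = R p q}
  | k + 1 => {φ | φ ∈ TrN S η k ∨ (∃ ψ ∈ TrN S η k, φ = fun y => ¬ ψ y) ∨
      (∃ ψ ∈ TrN S η k, ∃ χ ∈ TrN S η k, φ = fun y => ψ y ∧ χ y) ∨
      ∃ ψ ∈ TrN S η k, ∃ R ∈ R2, ∃ W, FinP S η W ∧ ∃ P, FinP S η P ∧ ∃ n D, D.Finite ∧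
        φ = ExF B S ψ R W P n D}

/-- Tracked predicates. -/
def Tr (S : Set (Node Ω)) (η : Ω) : Set (Ω → Prop) := {φ | ∃ k, φ ∈ TrN B R1 R2 S η k}

/-- An admissible ultrafilter of children. -/
def IsC (S : Set (Node Ω)) (D : Set (ℕ × List ℕ)) (n : ℕ) (w : Ω) (U : Ultrafilter (Node Ω)) : Prop :=
  (∀ η, η < w → ∀ φ ∈ Tr B R1 R2 S η, φ w → ∀ᶠ v in (U : Filter (Node Ω)), φ v.apex) ∧
  (∀ᶠ v in (U : Filter (Node Ω)), v.apex < w ∧ v.rank = n ∧ Sat B S D v) ∧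
  ∀ μ, (n + 1, μ) ∈ D → ∀ p ∈ S, p.apex < w → ∀ α : List ℕ, α.length = μ.length →
    ∀ᶠ v in (U : Filter (Node Ω)), ¬ H B p v (μ.zip α) w

/-- The chosen trees at an apex. -/
def base (S : Set (Node Ω)) (w : Ω) : Set (Node Ω) :=
  insert (leaf w) {b | ∃ n D, D.Finite ∧ (∃ U, IsC B R1 R2 S D n w U) ∧
    b = mk w n (@Classical.epsilon _ ⟨pure (leaf w)⟩ (IsC B R1 R2 S D n w))}

/-- The chosen trees at an apex and their collapses. -/
def step (S : Set (Node Ω)) (w : Ω) : Set (Node Ω) :=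
  base B R1 R2 S w ∪ {b | ∃ b₀ ∈ base B R1 R2 S w, ∃ ι t, StrictMono ι ∧
    (∀ i, i < t → ι i < b₀.rank) ∧ b = col ι t b₀}

/-- Agreement below a point. -/
def Agree (S S' : Set (Node Ω)) (w : Ω) : Prop := ∀ x : Node Ω, x.apex < w → (x ∈ S ↔ x ∈ S')

variable {B R1 R2}

lemma Agree.symm {S S' : Set (Node Ω)} {w : Ω} (h : Agree S S' w) : Agree S' S w :=
  fun x hx => (h x hx).symm

lemma Sat.congr {S S' : Set (Node Ω)} {w : Ω} (h : Agree S S' w) {D : Set (ℕ × List ℕ)}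
    {v : Node Ω} (hv : v.apex < w) (hs : Sat B S D v) : Sat B S' D v := by
  intro r
  refine (hs r).mono fun c hc => ⟨hc.1, (h c (hc.1.trans_lt hv)).mp hc.2.1, fun μ hμ p hp hpc => ?_⟩
  exact hc.2.2 μ hμ p ((h p (hpc.trans (hc.1.trans_lt hv))).mpr hp) hpc

lemma FinP.congr {S S' : Set (Node Ω)} {w η : Ω} (h : Agree S S' w) (hη : η < w) {W : Prm Ω}
    (hW : FinP S η W) : FinP S' η W :=
  ⟨hW.1, fun x hx => ⟨(h _ ((hW.2 x hx).2.trans_lt hη)).mp (hW.2 x hx).1, (hW.2 x hx).2⟩⟩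

lemma FinP.mono {S : Set (Node Ω)} {η η' : Ω} (hη : η ≤ η') {W : Prm Ω}
    (hW : FinP S η W) : FinP S η' W :=
  ⟨hW.1, fun x hx => ⟨(hW.2 x hx).1, (hW.2 x hx).2.trans hη⟩⟩

lemma TrN_congr {S S' : Set (Node Ω)} {w η : Ω} (h : Agree S S' w) (hη : η < w) (k : ℕ) :
    ∀ φ ∈ TrN B R1 R2 S η k, ∃ φ' ∈ TrN B R1 R2 S' η k, ∀ y, y ≤ w → (φ y ↔ φ' y) := by
  induction k with
  | zero =>
    rintro φ ⟨R, hR, p, hp, q, hq, h1, h2, rfl⟩
    exact ⟨_, ⟨R, hR, p, (h p (h1.trans_lt hη)).mp hp, q, (h q (h2.trans_lt hη)).mp hq, h1, h2, rfl⟩,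
      fun _ _ => Iff.rfl⟩
  | succ k ih =>
    rintro φ (hφ | ⟨ψ, hψ, rfl⟩ | ⟨ψ, hψ, χ, hχ, rfl⟩ | ⟨ψ, hψ, R, hR, W, hW, P, hP, n, D, hD, rfl⟩)
    · obtain ⟨φ', h1, h2⟩ := ih φ hφ
      exact ⟨φ', Or.inl h1, h2⟩
    · obtain ⟨ψ', h1, h2⟩ := ih ψ hψ
      exact ⟨_, Or.inr (Or.inl ⟨ψ', h1, rfl⟩), fun y hy => (h2 y hy).not⟩
    · obtain ⟨ψ', h1, h2⟩ := ih ψ hψ
      obtain ⟨χ', h3, h4⟩ := ih χ hχ
      exact ⟨_, Or.inr (Or.inr (Or.inl ⟨ψ', h1, χ', h3, rfl⟩)),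
        fun y hy => and_congr (h2 y hy) (h4 y hy)⟩
    · obtain ⟨ψ', h1, h2⟩ := ih ψ hψ
      refine ⟨_, Or.inr (Or.inr (Or.inr ⟨ψ', h1, R, hR, W, hW.congr h hη, P, hP.congr h hη,
        n, D, hD, rfl⟩)), fun y hy => exists_congr fun v => and_congr_right fun hv => ?_⟩
      refine and_congr (h2 _ (hv.le.trans hy)) (and_congr_right fun _ => and_congr_left fun _ => ?_)
      exact ⟨Sat.congr h (hv.trans_le hy), Sat.congr h.symm (hv.trans_le hy)⟩

lemma IsC.congr {S S' : Set (Node Ω)} {w : Ω} (h : Agree S S' w) {D : Set (ℕ × List ℕ)} {n : ℕ}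
    {U : Ultrafilter (Node Ω)} (hU : IsC B R1 R2 S D n w U) : IsC B R1 R2 S' D n w U := by
  refine ⟨?_, hU.2.1.mono fun v hv => ⟨hv.1, hv.2.1, hv.2.2.congr h hv.1⟩,
    fun μ hμ p hp hpw => hU.2.2 μ hμ p ((h p hpw).mpr hp) hpw⟩
  rintro η hη φ ⟨k, hφ⟩ hw
  obtain ⟨φ', h1, h2⟩ := TrN_congr h.symm hη k φ hφ
  filter_upwards [hU.1 η hη φ' ⟨k, h1⟩ ((h2 w le_rfl).mp hw), hU.2.1] with v h3 h4
  exact (h2 _ h4.1.le).mpr h3

lemma step_congr {S S' : Set (Node Ω)} {w : Ω} (h : Agree S S' w) :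
    step B R1 R2 S w = step B R1 R2 S' w := by
  have : ∀ D n, IsC B R1 R2 S D n w = IsC B R1 R2 S' D n w := fun D n =>
    funext fun U => propext ⟨IsC.congr h, IsC.congr h.symm⟩
  simp only [step, base, this]

lemma base_apex {S : Set (Node Ω)} {w : Ω} {b : Node Ω} (h : b ∈ base B R1 R2 S w) : b.apex = w := by
  rcases h with rfl | ⟨n, D, -, -, rfl⟩ <;> rfl

lemma step_apex {S : Set (Node Ω)} {w : Ω} {b : Node Ω} (h : b ∈ step B R1 R2 S w) : b.apex = w := by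
  rcases h with h | ⟨b₀, h, ι, t, -, -, rfl⟩
  · exact base_apex h
  · rw [apex_col]; exact base_apex h

lemma countable_fin_sets {α : Type} {s : Set α} (hs : s.Countable) :
    {t : Set α | t.Finite ∧ t ⊆ s}.Countable := countable_ofPred_finite_subset hs

lemma step_countable (S : Set (Node Ω)) (w : Ω) : (step B R1 R2 S w).Countable := by
  have h1 : (base B R1 R2 S w).Countable := by
    refine Countable.insert _ ?_
    refine (((countable_univ (α := ℕ)).prod (countable_fin_sets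
      (countable_univ (α := ℕ × List ℕ)))).image fun z => mk w z.1
        (@Classical.epsilon _ ⟨pure (leaf w)⟩ (IsC B R1 R2 S z.2 z.1 w))).mono ?_
    rintro b ⟨n, D, hD, -, rfl⟩
    exact ⟨(n, D), ⟨trivial, hD, subset_univ _⟩, rfl⟩
  refine h1.union (((h1.prod (countable_univ (α := List ℕ))).image
    fun z => col (fun i => z.2.getD i 0) z.2.length z.1).mono ?_)
  rintro b ⟨b₀, h, ι, t, -, -, rfl⟩
  refine ⟨(b₀, (List.range t).map ι), ⟨h, trivial⟩, ?_⟩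
  simp only [List.length_map, List.length_range]
  exact col_congr t b₀ fun i hi => by simp [List.getD_eq_getElem?_getD, hi]

lemma TrN_mono {S : Set (Node Ω)} {η : Ω} {k k' : ℕ} (h : k ≤ k') :
    TrN B R1 R2 S η k ⊆ TrN B R1 R2 S η k' := by
  induction k', h using Nat.le_induction with
  | base => exact subset_rfl
  | succ m _ ih => exact fun φ hφ => Or.inl (ih hφ)

lemma tr_atom {S : Set (Node Ω)} {η : Ω} {R : Rel1 Ω} (hR : R ∈ R1) {p q : Node Ω} (hp : p ∈ S)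
    (hq : q ∈ S) (h1 : p.apex ≤ η) (h2 : q.apex ≤ η) : R p q ∈ Tr B R1 R2 S η :=
  ⟨0, R, hR, p, hp, q, hq, h1, h2, rfl⟩

lemma tr_not {S : Set (Node Ω)} {η : Ω} {φ : Ω → Prop} (h : φ ∈ Tr B R1 R2 S η) :
    (fun y => ¬ φ y) ∈ Tr B R1 R2 S η := by
  obtain ⟨k, hk⟩ := h
  exact ⟨k + 1, Or.inr (Or.inl ⟨φ, hk, rfl⟩)⟩

lemma tr_and {S : Set (Node Ω)} {η : Ω} {φ ψ : Ω → Prop} (h : φ ∈ Tr B R1 R2 S η)
    (h' : ψ ∈ Tr B R1 R2 S η) : (fun y => φ y ∧ ψ y) ∈ Tr B R1 R2 S η := by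
  obtain ⟨k, hk⟩ := h
  obtain ⟨k', hk'⟩ := h'
  exact ⟨max k k' + 1, Or.inr (Or.inr (Or.inl ⟨φ, TrN_mono (le_max_left _ _) hk, ψ,
    TrN_mono (le_max_right _ _) hk', rfl⟩))⟩

lemma tr_ex {S : Set (Node Ω)} {η : Ω} {φ : Ω → Prop} (h : φ ∈ Tr B R1 R2 S η) {R : Rel2 Ω}
    (hR : R ∈ R2) {W P : Prm Ω} (hW : FinP S η W) (hP : FinP S η P) (n : ℕ)
    {D : Set (ℕ × List ℕ)} (hD : D.Finite) : ExF B S φ R W P n D ∈ Tr B R1 R2 S η := by
  obtain ⟨k, hk⟩ := h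
  exact ⟨k + 1, Or.inr (Or.inr (Or.inr ⟨φ, hk, R, hR, W, hW, P, hP, n, D, hD, rfl⟩))⟩

lemma tr_mono {S : Set (Node Ω)} {η η' : Ω} (hη : η ≤ η') {φ : Ω → Prop}
    (h : φ ∈ Tr B R1 R2 S η) : φ ∈ Tr B R1 R2 S η' := by
  obtain ⟨k, hk⟩ := h
  refine ⟨k, ?_⟩
  induction k generalizing φ with
  | zero =>
    obtain ⟨R, hR, p, hp, q, hq, h1, h2, rfl⟩ := hk
    exact ⟨R, hR, p, hp, q, hq, h1.trans hη, h2.trans hη, rfl⟩
  | succ k ih =>
    rcases hk with hφ | ⟨ψ, hψ, rfl⟩ | ⟨ψ, hψ, χ, hχ, rfl⟩ |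
      ⟨ψ, hψ, R, hR, W, hW, P, hP, n, D, hD, rfl⟩
    · exact Or.inl (ih hφ)
    · exact Or.inr (Or.inl ⟨ψ, ih hψ, rfl⟩)
    · exact Or.inr (Or.inr (Or.inl ⟨ψ, ih hψ, χ, ih hχ, rfl⟩))
    · exact Or.inr (Or.inr (Or.inr ⟨ψ, ih hψ, R, hR, W, hW.mono hη, P, hP.mono hη, n, D, hD, rfl⟩))

lemma finP_countable {S : Set (Node Ω)} {η : Ω} (hS : {x ∈ S | x.apex ≤ η}.Countable) :
    {W | FinP S η W}.Countable :=
  (countable_fin_sets (hS.prod (countable_univ (α := List ℕ)))).mono fun _ hW =>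
    And.intro hW.1 fun x hx => ⟨hW.2 x hx, trivial⟩

lemma tr_countable (h1 : R1.Countable) (h2 : R2.Countable) {S : Set (Node Ω)} {η : Ω}
    (hS : {x ∈ S | x.apex ≤ η}.Countable) : (Tr B R1 R2 S η).Countable := by
  have : ∀ k, (TrN B R1 R2 S η k).Countable := by
    intro k
    induction k with
    | zero =>
      refine ((h1.prod (hS.prod hS)).image fun z => z.1 z.2.1 z.2.2).mono ?_
      rintro φ ⟨R, hR, p, hp, q, hq, e1, e2, rfl⟩
      exact ⟨(R, p, q), ⟨hR, ⟨hp, e1⟩, ⟨hq, e2⟩⟩, rfl⟩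
    | succ k ih =>
      refine (ih.union ((ih.image fun ψ y => ¬ ψ y).union
        (((ih.prod ih).image fun z y => z.1 y ∧ z.2 y).union
        ((ih.prod (h2.prod ((finP_countable hS).prod ((finP_countable hS).prod
          ((countable_univ (α := ℕ)).prod (countable_fin_sets
            (countable_univ (α := ℕ × List ℕ)))))))).image
          fun z => ExF B S z.1 z.2.1 z.2.2.1 z.2.2.2.1 z.2.2.2.2.1 z.2.2.2.2.2)))).mono ?_
      rintro φ (hφ | ⟨ψ, hψ, rfl⟩ | ⟨ψ, hψ, χ, hχ, rfl⟩ |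
        ⟨ψ, hψ, R, hR, W, hW, P, hP, n, D, hD, rfl⟩)
      · exact Or.inl hφ
      · exact Or.inr (Or.inl ⟨ψ, hψ, rfl⟩)
      · exact Or.inr (Or.inr (Or.inl ⟨(ψ, χ), ⟨hψ, hχ⟩, rfl⟩))
      · exact Or.inr (Or.inr (Or.inr ⟨(ψ, R, W, P, n, D),
          ⟨hψ, hR, hW, hP, trivial, hD, subset_univ _⟩, rfl⟩))
  exact (countable_iUnion this).mono fun φ ⟨k, hk⟩ => mem_iUnion.mpr ⟨k, hk⟩

variable (B R1 R2)

/-- The properties of the family. -/
structure IsFam (N : Set (Node Ω)) : Prop where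
  cnt : ∀ η, {x ∈ N | x.apex ≤ η}.Countable
  leaf_mem : ∀ w, leaf w ∈ N
  col_mem : ∀ b ∈ N, ∀ ι t, StrictMono ι → (∀ i, i < t → ι i < b.rank) → col ι t b ∈ N
  ch_mem : ∀ b ∈ N, 0 < b.rank → ∀ᶠ c in (b.ch : Filter (Node Ω)), c ∈ N ∧ c.apex < b.apex
  faith : ∀ b ∈ N, 0 < b.rank → ∀ η, η < b.apex → ∀ φ ∈ Tr B R1 R2 N η, φ b.apex →
    ∀ᶠ c in (b.ch : Filter (Node Ω)), φ c.apex
  node : ∀ D n w U, D.Finite → IsC B R1 R2 N D n w U →
    ∃ U', IsC B R1 R2 N D n w U' ∧ mk w n U' ∈ N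

theorem exists_fam [hΩ : OmOne Ω] (hlt : (fun p _ y => p.apex < y) ∈ R1) :
    ∃ N, IsFam B R1 R2 N := by
  let F : Ω → Set (Node Ω) := hΩ.wf.fix fun w rec =>
    step B R1 R2 {x | ∃ v, ∃ h : v < w, x ∈ rec v h} w
  have hF0 : ∀ w, F w = step B R1 R2 {x | ∃ v, ∃ _ : v < w, x ∈ F v} w := fun w =>
    hΩ.wf.fix_eq _ w
  have hFa : ∀ w, ∀ x ∈ F w, x.apex = w := fun w x hx => step_apex (hF0 w ▸ hx)
  let N : Set (Node Ω) := {x | x ∈ F x.apex}
  have hF : ∀ w, F w = step B R1 R2 N w := by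
    intro w
    rw [hF0]
    refine step_congr fun x hx => ⟨?_, fun h => ⟨_, hx, h⟩⟩
    rintro ⟨v, -, h⟩
    change x ∈ F x.apex
    rwa [hFa v x h]
  have hN : ∀ x, x ∈ N ↔ x ∈ step B R1 R2 N x.apex := fun x => by rw [← hF]; rfl
  have hleaf : ∀ w, leaf w ∈ N := fun w => (hN _).mpr (Or.inl (Or.inl rfl))
  have hcol : ∀ b ∈ N, ∀ ι t, StrictMono ι → (∀ i, i < t → ι i < b.rank) → col ι t b ∈ N := by
    intro b hb ι t hι ht
    rw [hN] at hb ⊢
    rw [apex_col]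
    rcases hb with hb | ⟨b₀, h, ν, s, hν, hs, rfl⟩
    · exact Or.inr ⟨b, hb, ι, t, hι, ht, rfl⟩
    · rw [rank_col] at ht
      exact Or.inr ⟨b₀, h, ν ∘ ι, t, hν.comp hι, fun i hi => hs _ (ht i hi), col_col hν hι t s b₀ ht⟩
  have main : ∀ w, ∀ b ∈ N, b.apex = w → 0 < b.rank →
      (∀ᶠ c in (b.ch : Filter (Node Ω)), c ∈ N ∧ c.apex < b.apex) ∧ ∀ η, η < b.apex →
        ∀ φ ∈ Tr B R1 R2 N η, φ b.apex → ∀ᶠ c in (b.ch : Filter (Node Ω)), φ c.apex := by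
    intro w
    induction w using hΩ.wf.induction with
    | _ w ih =>
    have hb : ∀ b ∈ base B R1 R2 N w, 0 < b.rank →
        (∀ᶠ c in (b.ch : Filter (Node Ω)), c ∈ N ∧ c.apex < w) ∧ ∀ η, η < w →
          ∀ φ ∈ Tr B R1 R2 N η, φ w → ∀ᶠ c in (b.ch : Filter (Node Ω)), φ c.apex := by
      rintro b (rfl | ⟨n, D, -, hU, rfl⟩) hr
      · exact absurd hr (lt_irrefl 0)
      · have hU' := @Classical.epsilon_spec _ _ hU
        rw [ch_mk _ _ _ (hU'.2.1.mono fun v hv => hv.2.1)]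
        refine ⟨hU'.2.1.mono fun v hv => ⟨?_, hv.1⟩, hU'.1⟩
        exact ((ev_desc_of_le le_rfl _).mp (hv.2.2 v.rank)).2.1
    intro b hbN hw hr
    rw [hN, hw] at hbN
    rw [hw]
    rcases hbN with h | ⟨b₀, h, ι, t, hι, ht, rfl⟩
    · exact hb b h hr
    obtain ⟨t, rfl⟩ : ∃ s, t = s + 1 := ⟨t - 1, by rw [rank_col] at hr; omega⟩
    have h0 := ht t (Nat.lt_succ_self t)
    obtain ⟨g1, g2⟩ := hb b₀ h (by omega)
    simp only [ch_col, ev_map, apex_col]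
    constructor
    · have : ∀ᶠ c in (b₀.desc (ι t) : Filter (Node Ω)), c ∈ N ∧ c.apex < w := by
        rw [ev_desc_of_lt h0]
        refine g1.mono fun d hd => desc_ind (P := fun c => c ∈ N ∧ c.apex < w) ?_ _ d hd
        intro x hx hx0
        exact (ih _ hx.2 x hx.1 rfl hx0).1.mono fun c hc => ⟨hc.1, hc.2.trans hx.2⟩
      filter_upwards [this, desc_rank b₀ (ι t)] with c h1 h2
      refine ⟨hcol c h1.1 ι t hι fun i hi => ?_, h1.2⟩
      rw [h2, min_eq_left h0.le]; exact hι hi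
    · intro η hη φ hφ hφw
      have hlt' : (fun y => η < y) ∈ Tr B R1 R2 N η :=
        tr_atom hlt (hleaf η) (hleaf η) le_rfl le_rfl
      rw [ev_desc_of_lt h0]
      filter_upwards [g1, g2 η hη φ hφ hφw, g2 η hη _ hlt' hη] with d h1 h2 h3
      refine (desc_ind (P := fun c => (c ∈ N ∧ c.apex < w) ∧ η < c.apex ∧ φ c.apex) ?_ _ d
        ⟨h1, h3, h2⟩).mono fun c hc => hc.2.2
      intro x hx hx0
      obtain ⟨k1, k2⟩ := ih _ hx.1.2 x hx.1.1 rfl hx0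
      filter_upwards [k1, k2 η hx.2.1 φ hφ hx.2.2, k2 η hx.2.1 _ hlt' hx.2.1] with c e1 e2 e3
      exact ⟨⟨e1.1, e1.2.trans hx.1.2⟩, e3, e2⟩
  refine ⟨N, fun η => ?_, hleaf, hcol, fun b hb hr => (main _ b hb rfl hr).1,
    fun b hb hr => (main _ b hb rfl hr).2, fun D n w U hD hU => ?_⟩
  · refine ((hΩ.cnt η).biUnion fun w _ => step_countable (B := B) (R1 := R1) (R2 := R2) N w).mono ?_
    exact fun x hx => mem_biUnion hx.2 ((hN x).mp hx.1)
  · exact ⟨_, @Classical.epsilon_spec _ _ ⟨U, hU⟩,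
      (hN _).mpr (Or.inl (Or.inr ⟨n, D, hD, ⟨U, hU⟩, rfl⟩))⟩

end Pool.Agent.MP_71094f_lc.H37

end

section

set_option autoImplicit false

/-!
The two constructions of a blue four-element set.
-/

namespace Pool.Agent.MP_71094f_lc.H37

open Filter Set Node

variable {Ω : Type} [LinearOrder Ω] (B : Ω → Ω → Ω → Prop)

/-- No blue four-element set. -/
def NoK4 : Prop :=
  ∀ a b d e, a < b → b < d → d < e → B a b d → B a b e → B a d e → ¬ B b d e

/-- The two lower tokens move jointly to a level and then play a word. -/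
def Phi (p : Node Ω) (s : ℕ) (ω : List (ℕ × ℕ)) (y : Ω) : Prop :=
  ∀ᶠ e in (p.desc s : Filter (Node Ω)), H B e e ω y

/-- Red wins the game in which the two lower tokens start together. -/
def J (a : Node Ω) (y : Ω) : Prop := ∀ s ω, AWord s ω → s ≤ a.rank → ¬ Phi B a s ω y

/-- The witness hits all level tuples of its length. -/
def HitS (m : Node Ω × List ℕ) (a : Node Ω) (y : Ω) : Prop :=
  ∀ μ, DecLt (a.rank + 1) μ → m.2.length = μ.length → H B m.1 a (μ.zip m.2) y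

/-- The atomic tracked relations. -/
def RA : Set (Rel1 Ω) :=
  {fun p _ y => p.apex < y, fun p q y => Win B p q y, fun p _ y => J B p y} ∪
  (range (fun ω : List (ℕ × ℕ) => fun p q y => H B p q ω y) ∪
  (range (fun z : ℕ × List (ℕ × ℕ) => fun p _ y => Phi B p z.1 z.2 y) ∪
  range (fun α : List ℕ => fun p q y => HitS B (p, α) q y)))

lemma RA_countable : (RA B).Countable :=
  (Set.toFinite _).countable.union ((countable_range _).union
    ((countable_range _).union (countable_range _)))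

lemma RA_lt : (fun p _ y => p.apex < y) ∈ RA B := Or.inl (Or.inl rfl)
lemma RA_win : (fun p q y => Win B p q y) ∈ RA B := Or.inl (Or.inr (Or.inl rfl))
lemma RA_J : (fun p _ y => J B p y) ∈ RA B := Or.inl (Or.inr (Or.inr rfl))
lemma RA_H (ω : List (ℕ × ℕ)) : (fun p q y => H B p q ω y) ∈ RA B := Or.inr (Or.inl ⟨ω, rfl⟩)
lemma RA_Phi (s : ℕ) (ω : List (ℕ × ℕ)) : (fun p _ y => Phi B p s ω y) ∈ RA B :=
  Or.inr (Or.inr (Or.inl ⟨(s, ω), rfl⟩))
lemma RA_Hit (α : List ℕ) : (fun p q y => HitS B (p, α) q y) ∈ RA B :=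
  Or.inr (Or.inr (Or.inr ⟨α, rfl⟩))

variable {B} {R2 : Set (Rel2 Ω)} {N : Set (Node Ω)}

namespace IsFam

variable (hN : IsFam B (RA B) R2 N)
include hN

lemma tr_lt (η : Ω) : (fun y => η < y) ∈ Tr B (RA B) R2 N η :=
  tr_atom (RA_lt B) (hN.leaf_mem η) (hN.leaf_mem η) le_rfl le_rfl

lemma desc_mem {b : Node Ω} (hb : b ∈ N) (r : ℕ) :
    ∀ᶠ c in (b.desc r : Filter (Node Ω)), c ∈ N ∧ c.apex ≤ b.apex :=
  desc_ind (P := fun c => c ∈ N ∧ c.apex ≤ b.apex) (fun x hx h0 =>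
    (hN.ch_mem x hx.1 h0).mono fun _ hc => ⟨hc.1, hc.2.le.trans hx.2⟩) r b ⟨hb, le_rfl⟩

lemma desc_lt {b : Node Ω} (hb : b ∈ N) {r : ℕ} (hr : r < b.rank) :
    ∀ᶠ c in (b.desc r : Filter (Node Ω)), c ∈ N ∧ c.apex < b.apex := by
  rw [ev_desc_of_lt hr]
  exact (hN.ch_mem b hb (by omega)).mono fun d hd =>
    (hN.desc_mem hd.1 r).mono fun c hc => ⟨hc.1, hc.2.trans_lt hd.2⟩

lemma desc_faith {b : Node Ω} (hb : b ∈ N) {η : Ω} (hη : η < b.apex) {φ : Ω → Prop}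
    (hφ : φ ∈ Tr B (RA B) R2 N η) (h : φ b.apex) (r : ℕ) :
    ∀ᶠ c in (b.desc r : Filter (Node Ω)), φ c.apex := by
  refine (desc_ind (P := fun c => c ∈ N ∧ η < c.apex ∧ φ c.apex) ?_ r b ⟨hb, hη, h⟩).mono
    fun c hc => hc.2.2
  intro x hx h0
  filter_upwards [hN.ch_mem x hx.1 h0, hN.faith x hx.1 h0 η hx.2.1 φ hφ hx.2.2,
    hN.faith x hx.1 h0 η hx.2.1 _ (hN.tr_lt η) hx.2.1] with c e1 e2 e3
  exact ⟨e1.1, e3, e2⟩

lemma desc_gt {b : Node Ω} (hb : b ∈ N) {η : Ω} (hη : η < b.apex) (r : ℕ) :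
    ∀ᶠ c in (b.desc r : Filter (Node Ω)), η < c.apex :=
  hN.desc_faith hb hη (hN.tr_lt η) hη r

lemma desc_atom {b p q : Node Ω} (hb : b ∈ N) (hp : p ∈ N) (hq : q ∈ N) (h1 : p.apex < b.apex)
    (h2 : q.apex < b.apex) {R : Rel1 Ω} (hR : R ∈ RA B) (h : R p q b.apex) (r : ℕ) :
    ∀ᶠ c in (b.desc r : Filter (Node Ω)), R p q c.apex :=
  hN.desc_faith hb (max_lt h1 h2) (tr_atom hR hp hq (le_max_left _ _) (le_max_right _ _)) h r

lemma desc_H {b p q : Node Ω} (hb : b ∈ N) (hp : p ∈ N) (hq : q ∈ N) (h1 : p.apex < b.apex)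
    (h2 : q.apex < b.apex) {ω : List (ℕ × ℕ)} (h : H B p q ω b.apex) (r : ℕ) :
    ∀ᶠ c in (b.desc r : Filter (Node Ω)), H B p q ω c.apex :=
  hN.desc_atom hb hp hq h1 h2 (RA_H B ω) h r

lemma desc_Phi {b p : Node Ω} (hb : b ∈ N) (hp : p ∈ N) (h1 : p.apex < b.apex)
    {s : ℕ} {ω : List (ℕ × ℕ)} (h : Phi B p s ω b.apex) (r : ℕ) :
    ∀ᶠ c in (b.desc r : Filter (Node Ω)), Phi B p s ω c.apex :=
  hN.desc_atom hb hp hp h1 h1 (RA_Phi B s ω) h r

end IsFam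

/-- Waiting levels of the middle token against the witness. -/
def lz : ℕ → List (ℕ × ℕ) → List ℕ
  | 0, _ => [0]
  | _ + 1, [] => []
  | h + 1, e :: ω => e.1 :: lz h ω

/-- Waiting levels of the lower token against the witness. -/
def lx : ℕ → ℕ → List (ℕ × ℕ) → List ℕ
  | _, 0, _ => [0]
  | _, _ + 1, [] => []
  | i, h + 1, e :: ω => i :: lx e.2 h ω

lemma Norm.lz_spec {i j : ℕ} {ω : List (ℕ × ℕ)} (hω : Norm i j ω) : ∀ h, h < ω.length →
    DecLt (j + 1) (lz h ω) ∧ (lz h ω).length = h + 1 := by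
  induction hω with
  | last =>
    intro h hh
    obtain rfl : h = 0 := by simpa using hh
    exact ⟨⟨by simp [lz], by simp [lz]⟩, rfl⟩
  | cons h1 _ _ ih =>
    intro h hh
    cases h with
    | zero => exact ⟨⟨by simp [lz], by simp [lz]⟩, rfl⟩
    | succ h =>
      obtain ⟨g1, g2⟩ := ih h (by simpa using hh)
      refine ⟨⟨by simp [lz], List.pairwise_cons.mpr ⟨fun s hs => ?_, g1.2⟩⟩, by simp [lz, g2]⟩
      rcases List.mem_cons.mp hs with rfl | hs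
      · simp only; omega
      · have := g1.lt s hs; omega

lemma Norm.lx_spec {i j : ℕ} {ω : List (ℕ × ℕ)} (hω : Norm i j ω) : ∀ h, h < ω.length →
    DecLt (i + 1) (lx i h ω) ∧ (lx i h ω).length = h + 1 := by
  induction hω with
  | last =>
    intro h hh
    obtain rfl : h = 0 := by simpa using hh
    exact ⟨⟨by simp [lx], by simp [lx]⟩, rfl⟩
  | cons _ h2 _ ih =>
    intro h hh
    cases h with
    | zero => exact ⟨⟨by simp [lx], by simp [lx]⟩, rfl⟩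
    | succ h =>
      obtain ⟨g1, g2⟩ := ih h (by simpa using hh)
      refine ⟨⟨by simp [lx], List.pairwise_cons.mpr ⟨fun s hs => ?_, (g1.mono (by omega)).2⟩⟩,
        by simp [lx, g2]⟩
      rcases List.mem_cons.mp hs with rfl | hs
      · omega
      · have := g1.lt s hs; omega

/-- A strong witness kills every long word. -/
theorem killS (hK : NoK4 B) (hN : IsFam B (RA B) R2 N) (y : Ω) {i j : ℕ} {ω : List (ℕ × ℕ)}
    (hω : Norm i j ω) : ∀ (h : ℕ) (α : List ℕ) (a x z : Node Ω), h < ω.length → α.length = h + 1 →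
      a ∈ N → x ∈ N → z ∈ N → a.apex < x.apex → x.apex < z.apex → z.apex < y → x.rank = i →
      H B x z ω y → H B a x ((lx i h ω).zip α) y → H B a x ((lx i h ω).zip α) z.apex →
      H B a z ((lz h ω).zip α) y → False := by
  induction hω with
  | last =>
    intro h α a x z hh hα ha hx hz hax hxz hzy _ g1 g2 g3 g4
    obtain rfl : h = 0 := by simpa using hh
    obtain ⟨a₁, rfl⟩ := List.length_eq_one_iff.mp hα
    simp only [lx, lz, List.zip_cons_cons, List.zip_nil_right] at g2 g3 g4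
    obtain ⟨z', ⟨e1, e2⟩, ⟨e3, e4⟩, e5⟩ := ((g1.and g4).and
      (((hN.desc_mem hz 0).and (hN.desc_gt hz hxz 0)).and
        (hN.desc_H hz ha hx (hax.trans hxz) hxz g3 0))).exists
    obtain ⟨x', ⟨f1, f2⟩, ⟨f3, f4⟩, f5⟩ := ((e1.and g2).and
      (((hN.desc_mem hx 0).and (hN.desc_gt hx hax 0)).and e5)).exists
    obtain ⟨a', ⟨k1, k2⟩, k3, k4⟩ := ((e2.and f2).and (f5.and (hN.desc_mem ha a₁))).exists
    exact hK _ _ _ _ (k4.2.trans_lt f4) (f3.2.trans_lt e4) (e3.2.trans_lt hzy) k3 k2 k1 f1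
  | @cons i j r l ω h1 h2 h3 ih =>
    intro h α a x z hh hα ha hx hz hax hxz hzy hi g1 g2 g3 g4
    cases h with
    | zero =>
      obtain ⟨a₁, rfl⟩ := List.length_eq_one_iff.mp hα
      simp only [lx, lz, List.zip_cons_cons, List.zip_nil_right] at g2 g3 g4
      obtain ⟨z', ⟨e1, e2⟩, ⟨e3, e4⟩, e5⟩ := ((g1.and ((H_desc (Nat.zero_le (r + 1)) _ y).mp g4)).and
        (((hN.desc_mem hz _).and (hN.desc_gt hz hxz _)).and
          (hN.desc_H hz ha hx (hax.trans hxz) hxz g3 _))).exists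
      obtain ⟨x', ⟨f1, f2⟩, ⟨f3, f4⟩, f5, f6⟩ := ((e1.and ((H_desc (Nat.zero_le l) _ y).mp g2)).and
        (((hN.desc_mem hx _).and (hN.desc_gt hx hax _)).and
          (((H_desc (Nat.zero_le l) _ _).mp e5).and (desc_rank x l)))).exists
      exact ih 0 [a₁] a x' z' (List.length_pos_iff.mpr (by rintro rfl; cases h3)) rfl ha f3.1 e3.1
        f4 (f3.2.trans_lt e4) (e3.2.trans_lt hzy) (by omega) f1 f2 f5 e2
    | succ h =>
      obtain ⟨a₁, α', rfl⟩ := List.exists_cons_of_length_eq_add_one hα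
      have hh' : h < ω.length := by simpa using hh
      have hα' : α'.length = h + 1 := by simpa using hα
      obtain ⟨q1, q2⟩ := h3.lx_spec h hh'
      simp only [lx, lz, List.zip_cons_cons] at g2 g3 g4
      obtain ⟨z', ⟨e1, e2⟩, ⟨e3, e4⟩, e5⟩ := ((g1.and g4).and
        (((hN.desc_mem hz _).and (hN.desc_gt hz hxz _)).and
          (hN.desc_H hz ha hx (hax.trans hxz) hxz g3 _))).exists
      rw [H_cons, ev_desc_of_le hi.le] at g2 e5
      obtain ⟨a', ⟨k1, k2⟩, k3, k4⟩ := ((e2.and g2).and (e5.and (hN.desc_mem ha a₁))).exists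
      obtain ⟨x', ⟨f1, f2⟩, ⟨f3, f4⟩, f5, f6⟩ := ((e1.and ((H_zip_desc q1 (by omega) y).mp k2)).and
        (((hN.desc_mem hx _).and (hN.desc_gt hx hax _)).and
          (((H_zip_desc q1 (by omega) _).mp k3).and (desc_rank x l)))).exists
      exact ih h α' a' x' z' hh' hα' k4.1 f3.1 e3.1 (k4.2.trans_lt f4) (f3.2.trans_lt e4)
        (e3.2.trans_lt hzy) (by omega) f1 f2 f5 k1

lemma play2 (hN : IsFam B (RA B) R2 N) (y₁ y₂ : Ω) (P : Node Ω → Prop) {i j : ℕ}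
    {ω : List (ℕ × ℕ)} (hω : Norm i j ω) : ∀ p q : Node Ω, p ∈ N → q ∈ N → p.apex < q.apex →
      H B p q ω y₁ → H B p q ω y₂ → (∀ᶠ x in (p.desc 0 : Filter (Node Ω)), P x) →
      (∀ᶠ x in (q.desc 0 : Filter (Node Ω)), P x) → ∃ x₁ ∈ N, ∃ x₂ ∈ N, x₁.apex < x₂.apex ∧
        x₂.apex ≤ q.apex ∧ B x₁.apex x₂.apex y₁ ∧ B x₁.apex x₂.apex y₂ ∧ P x₁ ∧ P x₂ := by
  induction hω with
  | last =>
    intro p q hp hq hpq g1 g2 g3 g4
    obtain ⟨c, ⟨e1, e2⟩, ⟨e3, e4⟩, e5⟩ := ((g1.and g2).and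
      (((hN.desc_mem hq 0).and (hN.desc_gt hq hpq 0)).and g4)).exists
    obtain ⟨x, ⟨f1, f2⟩, f3, f4⟩ := ((e1.and e2).and ((hN.desc_mem hp 0).and g3)).exists
    exact ⟨x, f3.1, c, e3.1, f3.2.trans_lt e4, e3.2, f1, f2, f4, e5⟩
  | @cons i j r l ω _ _ _ ih =>
    intro p q hp hq hpq g1 g2 g3 g4
    obtain ⟨c, ⟨e1, e2⟩, ⟨e3, e4⟩, e5⟩ := ((g1.and g2).and
      (((hN.desc_mem hq _).and (hN.desc_gt hq hpq _)).and
        ((ev_desc_desc (Nat.zero_le (r + 1)) q P).mp g4))).exists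
    obtain ⟨x, ⟨f1, f2⟩, f3, f4⟩ := ((e1.and e2).and ((hN.desc_mem hp _).and
      ((ev_desc_desc (Nat.zero_le l) p P).mp g3))).exists
    obtain ⟨x₁, k1, x₂, k2, k3, k4, k5⟩ := ih x c f3.1 e3.1 (f3.2.trans_lt e4) f1 f2 f4 e5
    exact ⟨x₁, k1, x₂, k2, k3, k4.trans e3.2, k5⟩

lemma fin2 (hK : NoK4 B) (hN : IsFam B (RA B) R2 N) {b : ℕ} {ω : List (ℕ × ℕ)} (hω : AWord b ω)
    {y : Ω} {j z : Node Ω} (hj : j ∈ N) (hz : z ∈ N) (hjz : j.apex ≤ z.apex) (hzy : z.apex < y)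
    (hb : b < j.rank) (g1 : Phi B j b ω y) (g2 : Phi B j b ω z.apex)
    (g3 : ∀ᶠ x in (j.desc 0 : Filter (Node Ω)), ∀ᶠ c in (z.desc 0 : Filter (Node Ω)),
      B x.apex c.apex y) : False := by
  obtain ⟨r, a, ω₀, hr, ha, hω₀, rfl⟩ := hω
  obtain ⟨e, ⟨e1, e2⟩, ⟨e3, e4⟩, e5⟩ := ((g1.and g2).and (((hN.desc_lt hj hb).and (desc_rank j b)).and
    ((ev_desc_desc (Nat.zero_le b) j _).mp g3))).exists
  rw [H_cons, ev_desc_of_le (by omega)] at e1 e2
  obtain ⟨p, ⟨f1, f2⟩, f3, f4⟩ := ((e1.and e2).and ((hN.desc_lt e3.1 (by omega : a < e.rank)).and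
    ((ev_desc_desc (Nat.zero_le a) e _).mp e5))).exists
  obtain ⟨x₁, k1, x₂, k2, k3, k4, k5, k6, k7, k8⟩ := play2 hN _ _ _ hω₀ p e f3.1 e3.1 f3.2 f1 f2 f4 e5
  have k9 : x₂.apex < z.apex := k4.trans_lt (e3.2.trans_le hjz)
  obtain ⟨c, ⟨l1, l2⟩, ⟨l3, l4⟩, l5⟩ := ((k7.and k8).and
    (((hN.desc_mem hz 0).and (hN.desc_gt hz k9 0)).and
      (hN.desc_H (ω := []) hz k1 k2 (k3.trans k9) k9 k6 0))).exists
  exact hK _ _ _ _ k3 l4 (l3.2.trans_lt hzy) l5 k5 l1 l2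

/-- The upper copy of the levels. -/
def up (b i : ℕ) : ℕ := if i = 0 then 0 else b + i

lemma up_strictMono (b : ℕ) : StrictMono (up b) := by
  intro i j hij
  unfold up
  split_ifs <;> omega

lemma stepA (hK : NoK4 B) (hN : IsFam B (RA B) R2 N) {b : ℕ} {ω : List (ℕ × ℕ)} (hω : AWord b ω)
    {y : Ω} {a r : ℕ} {ω₁ : List (ℕ × ℕ)} (h₁ : Norm a r ω₁) : ∀ j z : Node Ω, j ∈ N → z ∈ N →
      j.apex ≤ z.apex → z.apex < y → b < j.rank → up b a < j.rank → Phi B j b ω y →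
      Phi B j b ω z.apex → (∀ᶠ j' in (j.desc (up b a) : Filter (Node Ω)),
        H B j' z (ω₁.map (Prod.map (up b) (up b))) y) → False := by
  have mv : ∀ {a : ℕ} (j z : Node Ω) (Q : Node Ω → Node Ω → Prop) (s : ℕ), 0 < a → j ∈ N → z ∈ N →
      j.apex ≤ z.apex → z.apex < y → up b a < j.rank → Phi B j b ω y → Phi B j b ω z.apex →
      (∀ᶠ j' in (j.desc (up b a) : Filter (Node Ω)), ∀ᶠ z' in (z.desc s : Filter (Node Ω)), Q j' z') →
      ∃ j' z', j' ∈ N ∧ z' ∈ N ∧ j'.apex ≤ z'.apex ∧ z'.apex < y ∧ j'.rank = up b a ∧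
        z'.rank ≤ s ∧ Phi B j' b ω y ∧ Phi B j' b ω z'.apex ∧ Q j' z' := by
    intro a j z Q s ha hj hz hjz hzy hr g1 g2 g3
    have hb : b ≤ up b a := by unfold up; split_ifs <;> omega
    obtain ⟨j', ⟨e1, e2⟩, ⟨e3, e4⟩, e5⟩ := ((((ev_desc_desc hb j _).mp g1).and
      ((ev_desc_desc hb j _).mp g2)).and (((hN.desc_lt hj hr).and (desc_rank j _)).and g3)).exists
    have e6 := e3.2.trans_le hjz
    obtain ⟨z', ⟨f1, f2⟩, ⟨f3, f4⟩, f5⟩ := ((e5.and (desc_rank z s)).and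
      (((hN.desc_mem hz s).and (hN.desc_gt hz e6 s)).and (hN.desc_Phi hz e3.1 e6 e2 s))).exists
    exact ⟨j', z', e3.1, f3.1, f4.le, f3.2.trans_lt hzy, by omega, by omega, e1, f5, f1⟩
  induction h₁ with
  | last a r =>
    intro j z hj hz hjz hzy hb hr g1 g2 g3
    simp only [List.map_cons, List.map_nil, Prod.map_apply, H_cons, H_nil] at g3
    have u0 : up b 0 = 0 := rfl
    rw [u0] at g3
    rcases Nat.eq_zero_or_pos a with rfl | ha
    · rw [u0] at g3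
      refine fin2 hK hN hω hj hz hjz hzy hb g1 g2 ?_
      filter_upwards [g3, desc_rank j 0] with x h1 h2
      exact h1.mono fun c hc => (ev_desc_of_le (by omega) _).mp hc
    · obtain ⟨j', z', k1, k2, k3, k4, k5, k6, k7, k8, k9⟩ :=
        mv j z _ 0 ha hj hz hjz hzy hr g1 g2 g3
      refine fin2 hK hN hω k1 k2 k3 k4 (by rw [k5]; unfold up; split_ifs <;> omega) k7 k8 ?_
      exact k9.mono fun x hx => (ev_desc_of_le k6 _).mpr hx
  | @cons a r r' a' ω₂ _ h2 _ ih =>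
    intro j z hj hz hjz hzy hb hr g1 g2 g3
    simp only [List.map_cons, Prod.map_apply, H_cons] at g3
    obtain ⟨j', z', k1, k2, k3, k4, k5, -, k7, k8, k9⟩ :=
      mv j z _ _ (by omega) hj hz hjz hzy hr g1 g2 g3
    exact ih j' z' k1 k2 k3 k4 (by rw [k5]; unfold up; split_ifs <;> omega)
      (by rw [k5]; exact up_strictMono b h2) k7 k8 k9

/-- A word that is blue at two nested splits is impossible. -/
theorem killA (hK : NoK4 B) (hN : IsFam B (RA B) R2 N) {b : ℕ} {ω : List (ℕ × ℕ)} (hω : AWord b ω)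
    {d : Node Ω} (hd : d ∈ N) (hr : b + b < d.rank) (g1 : Phi B d b ω d.apex)
    (g2 : Phi B d (b + b) (ω.map (Prod.map (up b) (up b))) d.apex)
    (g3 : ∀ᶠ e in (d.desc (b + b) : Filter (Node Ω)), Phi B e b ω e.apex) : False := by
  obtain ⟨e, ⟨e1, e2⟩, ⟨e3, e4⟩, e5⟩ := ((((ev_desc_desc (Nat.le_add_left b b) d _).mp g1).and g2).and
    (((hN.desc_lt hd hr).and (desc_rank d _)).and g3)).exists
  obtain ⟨r, a, ω₀, hb, ha, hω₀, hω'⟩ := id hω
  have hu : up b b = b + b := by unfold up; split_ifs <;> omega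
  rw [hω', List.map_cons, Prod.map_apply, H_cons, ev_desc_of_le (by omega)] at e2
  have := up_strictMono b ha
  exact stepA hK hN hω hω₀ e e e3.1 e3.1 le_rfl e3.2 (by omega) (by omega) e1 e5 e2

end Pool.Agent.MP_71094f_lc.H37

end

section

set_option autoImplicit false

/-!
Compactness, pressing down, and the trees delivered by the greedy dichotomy.
-/

namespace Pool.Agent.MP_71094f_lc.H37

open Filter Set Node

variable {Ω : Type}

/-- Hereditary properties. -/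
def Her (P : Node Ω → Prop) (b : Node Ω) : Prop := ∀ r, ∀ᶠ c in (b.desc r : Filter (Node Ω)), P c

lemma Her.self {P : Node Ω → Prop} {b : Node Ω} (h : Her P b) : P b :=
  (ev_desc_of_le le_rfl P).mp (h b.rank)

lemma Her.desc {P : Node Ω → Prop} {b : Node Ω} (h : Her P b) (r : ℕ) :
    ∀ᶠ c in (b.desc r : Filter (Node Ω)), Her P c := by
  have h1 : ∀ᶠ c in (b.desc r : Filter (Node Ω)), ∀ s ∈ Iic r,
      ∀ᶠ e in (c.desc s : Filter (Node Ω)), P e :=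
    (eventually_all_finite (finite_Iic r)).mpr fun s hs => (ev_desc_desc hs b P).mp (h s)
  filter_upwards [h1, desc_rank b r] with c h2 h3 s
  by_cases hs : s ≤ r
  · exact h2 s hs
  · rw [ev_desc_of_le (by omega)]
    exact (ev_desc_of_le (by omega) P).mp (h2 r (mem_Iic.mpr le_rfl))

lemma Her.ch {P : Node Ω → Prop} {b : Node Ω} (h : Her P b) (hb : 0 < b.rank) :
    ∀ᶠ c in (b.ch : Filter (Node Ω)), Her P c := by
  rw [ev_ch (r := b.rank - 1) (by omega)]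
  exact h.desc _

lemma Her.mono {P Q : Node Ω → Prop} {b : Node Ω} (h : Her P b) (hPQ : ∀ c, P c → Q c) : Her Q b :=
  fun r => (h r).mono hPQ

lemma Her.and {P Q : Node Ω → Prop} {b : Node Ω} (h : Her P b) (h' : Her Q b) :
    Her (fun c => P c ∧ Q c) b := fun r => (h r).and (h' r)

lemma her_rank (b : Node Ω) : Her (fun c => c.rank ≤ b.rank) b :=
  fun r => (desc_rank b r).mono fun c hc => by omega

lemma her_col {ι : ℕ → ℕ} (hι : StrictMono ι) {t : ℕ} {b : Node Ω} (hb : b.rank = ι t)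
    {P : Node Ω → Prop} (h : ∀ s, s ≤ t → ∀ᶠ c in (b.desc (ι s) : Filter (Node Ω)),
      c.rank = ι s → P (col ι s c)) : Her P (col ι t b) := by
  intro r
  by_cases hr : r ≤ t
  · rw [ev_desc_col hι hb, min_eq_left hr]
    filter_upwards [h r hr, desc_rank_col hι hb r] with c h1 h2
    exact h1 (by rw [h2, min_eq_left hr])
  · rw [ev_desc_of_le (by simp; omega)]
    exact (ev_desc_of_le hb.le _).mp (h t le_rfl) hb

variable [LinearOrder Ω] (B : Ω → Ω → Ω → Prop)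

/-- Small level tuples. -/
def sm (h : ℕ) (μ : List ℕ) : Prop := h = 0 ∨ μ.length < h

/-- The absolute local properties of a good tree. -/
def Loc (m : Node Ω × List ℕ) (c : Node Ω) : Prop :=
  m.1.apex < c.apex ∧
  (∀ μ, DecLt c.rank μ → m.2.length = μ.length → H B m.1 c (μ.zip m.2) c.apex) ∧
  ∀ s ω, AWord s ω → s < c.rank → ¬ Phi B c s ω c.apex

/-- The relation for demand structures. -/
def RD (n : ℕ) (D : Set (ℕ × List ℕ)) : Rel2 Ω := fun _ P v w =>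
  ∀ x ∈ P, ∀ μ, (n + 1, μ) ∈ D → x.2.length = μ.length → ¬ H B x.1 v (μ.zip x.2) w

/-- The relation for good trees. -/
def RG (h : ℕ) : Rel2 Ω := fun W P v w =>
  (∃ m ∈ W, Her (Loc B m) v ∧ HitS B m v w) ∧ J B v w ∧
  ∀ x ∈ P, ∀ μ, DecLt (v.rank + 1) μ → sm h μ → x.2.length = μ.length → ¬ H B x.1 v (μ.zip x.2) w

/-- The binary tracked relations. -/
def RB : Set (Rel2 Ω) :=
  (fun z : ℕ × Set (ℕ × List ℕ) => RD B z.1 z.2) '' {z | z.2.Finite} ∪ range (RG B)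

lemma RB_countable : (RB B).Countable := by
  refine Countable.union (Countable.image ?_ _) (countable_range _)
  exact ((countable_univ (α := ℕ)).prod (countable_fin_sets
    (countable_univ (α := ℕ × List ℕ)))).mono fun z hz =>
      And.intro trivial (And.intro hz (subset_univ _))

/-- An ultrafilter of candidates. -/
def HasU (N : Set (Node Ω)) (R : Rel2 Ω) (W : Prm Ω) (n : ℕ) (D : Set (ℕ × List ℕ)) (w : Ω)
    (U : Ultrafilter (Node Ω)) : Prop :=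
  (∀ η, η < w → ∀ φ ∈ Tr B (RA B) (RB B) N η, φ w → ∀ᶠ v in (U : Filter (Node Ω)), φ v.apex) ∧
  (∀ᶠ v in (U : Filter (Node Ω)), v.apex < w ∧ v.rank = n ∧ Sat B N D v) ∧
  ∀ η, η < w → ∀ P, FinP N η P → ∀ᶠ v in (U : Filter (Node Ω)), R W P v w

/-- The local properties delivered by the dichotomy. -/
def PreLoc (N : Set (Node Ω)) (h : ℕ) (W : Prm Ω) (c : Node Ω) : Prop :=
  c ∈ N ∧ (∀ μ, DecLt c.rank μ → sm h μ → Dem B N c μ) ∧
  ∀ μ, DecLt c.rank μ → μ.length = h → ∃ x ∈ W, H B x.1 c (μ.zip x.2) c.apex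

variable {B} {N : Set (Node Ω)}

lemma sat_iff (hN : IsFam B (RA B) (RB B) N) {D : Set (ℕ × List ℕ)} {b : Node Ω} :
    Sat B N D b ↔ Her (fun c => c ∈ N ∧ ∀ μ, (c.rank, μ) ∈ D → Dem B N c μ) b := by
  refine ⟨fun h r => (h r).mono fun c hc => hc.2, fun h r => ?_⟩
  filter_upwards [h r, hN.desc_mem h.self.1 r] with c h1 h2 using ⟨h2.2, h1⟩

lemma Dem.col {ι : ℕ → ℕ} (hι : StrictMono ι) {t : ℕ} {c : Node Ω} (hc : c.rank = ι t)
    {μ : List ℕ} (h : Dem B N c (μ.map ι)) : Dem B N (col ι t c) μ := by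
  intro p hp hpc α hα
  rw [apex_col] at hpc ⊢
  rw [H_zip_col hι _ _ _ _ _ _ hc]
  exact h p hp hpc α (by simpa using hα)

variable [hΩ : OmOne Ω]

theorem compact (hN : IsFam B (RA B) (RB B) N) (R : Rel2 Ω) (W : Prm Ω) (n : ℕ)
    (D : Set (ℕ × List ℕ)) (hanti : ∀ P P' v w, P ⊆ P' → R W P' v w → R W P v w) (E : Ω → Prop)
    (h : ∃ᶠ w in club Ω, E w ∧ ¬ ∃ U, HasU B N R W n D w U) :
    ∃ η, ∃ φ ∈ Tr B (RA B) (RB B) N η, ∃ P, FinP N η P ∧
      ∃ᶠ w in club Ω, E w ∧ φ w ∧ ¬ ExF B N φ R W P n D w := by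
  obtain ⟨w0, -⟩ := h.exists
  have : Nonempty (Node Ω) := ⟨leaf w0⟩
  obtain ⟨η, a, ha, hf⟩ := club_fodor (A := (Ω → Prop) × Prm Ω)
    (fun a η => a.1 ∈ Tr B (RA B) (RB B) N η ∧ FinP N η a.2)
    (fun η => (tr_countable (RA_countable B) (RB_countable B) (hN.cnt η)).prod
      (finP_countable (hN.cnt η)))
    (P := fun a w => E w ∧ a.1 w ∧ ¬ ExF B N a.1 R W a.2 n D w) (by
    refine (h.and_eventually (club_gt w0)).mono ?_
    rintro w ⟨⟨hE, hU⟩, hw0⟩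
    by_contra hcon
    push Not at hcon
    apply hU
    let I := {t : Ω × (Ω → Prop) × Prm Ω // t.1 < w ∧ t.2.1 ∈ Tr B (RA B) (RB B) N t.1 ∧
      FinP N t.1 t.2.2 ∧ t.2.1 w}
    let Z : I → Set (Node Ω) := fun t =>
      {v | v.apex < w ∧ t.1.2.1 v.apex ∧ v.rank = n ∧ Sat B N D v ∧ R W t.1.2.2 v w}
    have hne : NeBot (⨅ t : I, 𝓟 (Z t)) := by
      refine iInf_neBot_of_directed ?_ fun t => principal_neBot_iff.mpr
        (hcon t.1.1 t.2.1 t.1.2 ⟨t.2.2.1, t.2.2.2.1⟩ hE t.2.2.2.2)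
      rintro ⟨⟨η, φ, P⟩, t1, t2, t3, t4⟩ ⟨⟨η', φ', P'⟩, s1, s2, s3, s4⟩
      refine ⟨⟨(max η η', fun y => φ y ∧ φ' y, P ∪ P'), max_lt t1 s1,
        tr_and (tr_mono (le_max_left _ _) t2) (tr_mono (le_max_right _ _) s2),
        ⟨t3.1.union s3.1, ?_⟩, t4, s4⟩, ?_, ?_⟩
      · rintro x (hx | hx)
        · exact (t3.mono (le_max_left _ _)).2 x hx
        · exact (s3.mono (le_max_right _ _)).2 x hx
      · exact principal_mono.mpr fun v hv => ⟨hv.1, hv.2.1.1, hv.2.2.1, hv.2.2.2.1,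
          hanti _ _ _ _ subset_union_left hv.2.2.2.2⟩
      · exact principal_mono.mpr fun v hv => ⟨hv.1, hv.2.1.2, hv.2.2.1, hv.2.2.2.1,
          hanti _ _ _ _ subset_union_right hv.2.2.2.2⟩
    obtain ⟨U, hU⟩ := Ultrafilter.exists_le (⨅ t : I, 𝓟 (Z t))
    have hZ : ∀ t : I, ∀ᶠ v in (U : Filter (Node Ω)), v ∈ Z t := fun t =>
      hU (mem_iInf_of_mem t (mem_principal_self _))
    have h0 : ∀ η, FinP N η ∅ := fun η => ⟨finite_empty, by simp⟩
    refine ⟨U, fun η hη φ hφ hw => ?_, ?_, fun η hη P hP => ?_⟩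
    · exact (hZ ⟨(η, φ, ∅), hη, hφ, h0 η, hw⟩).mono fun v hv => hv.2.1
    · exact (hZ ⟨(w0, _, ∅), hw0, hN.tr_lt w0, h0 w0, hw0⟩).mono fun v hv =>
        ⟨hv.1, hv.2.2.1, hv.2.2.2.1⟩
    · exact (hZ ⟨(η, _, P), hη, hN.tr_lt η, hP, hη⟩).mono fun v hv => hv.2.2.2.2)
  exact ⟨η, a.1, ha.1, a.2, ha.2, hf⟩

variable (B N) in
/-- Realisable demand structures. -/
def Ex (n : ℕ) (D : Set (ℕ × List ℕ)) : Prop :=
  ∀ᶠ w in club Ω, ∃ b : Node Ω, b.apex = w ∧ b.rank = n ∧ Sat B N D b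

omit hΩ in
lemma node_of_hasU (hN : IsFam B (RA B) (RB B) N) {n : ℕ} {D : Set (ℕ × List ℕ)}
    (hD : D ⊆ Full (n + 1)) {w : Ω} {U : Ultrafilter (Node Ω)} (hU : HasU B N (RD B n D) ∅ n D w U) :
    ∃ b : Node Ω, b.apex = w ∧ b.rank = n + 1 ∧ Sat B N D b := by
  obtain ⟨U', h1, h2⟩ := hN.node D n w U ((full_finite _).subset hD) ⟨hU.1, hU.2.1,
    fun μ hμ p hp hpw α hα => (hU.2.2 _ hpw {(p, α)} ⟨finite_singleton _, by simpa using hp⟩).mono
      fun v hv => hv (p, α) rfl μ hμ hα⟩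
  have hch := ch_mk w n U' (h1.2.1.mono fun v hv => hv.2.1)
  refine ⟨mk w n U', rfl, rfl, (sat_iff hN).mpr fun r => ?_⟩
  by_cases hr : r < n + 1
  · rw [ev_desc_of_lt (by simpa using hr), hch]
    exact h1.2.1.mono fun v hv => (sat_iff hN).mp hv.2.2 r
  · rw [ev_desc_of_le (by simp; omega)]
    refine ⟨h2, fun μ hμ p hp hpw α hα => ?_⟩
    rw [H_zip_ch (hD hμ).2 hα, hch, ← Ultrafilter.eventually_not]
    exact h1.2.2 μ hμ p hp hpw α hα

lemma fail_of_not_ex (hN : IsFam B (RA B) (RB B) N) {n : ℕ} {D : Set (ℕ × List ℕ)}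
    (hD : D ⊆ Full (n + 1)) (h : ¬ Ex B N (n + 1) D) :
    ∃ η, ∃ φ ∈ Tr B (RA B) (RB B) N η, ∃ P, FinP N η P ∧
      ∃ᶠ w in club Ω, φ w ∧ ¬ ExF B N φ (RD B n D) ∅ P n D w := by
  obtain ⟨η, φ, h1, P, h2, h3⟩ := compact hN (RD B n D) ∅ n D
    (fun P P' v w hP h x hx => h x (hP hx)) (fun _ => True) ((not_eventually.mp h).mono
      fun w hw => ⟨trivial, fun ⟨U, hU⟩ => hw (node_of_hasU hN hD hU)⟩)
  exact ⟨η, φ, h1, P, h2, h3.mono fun w hw => hw.2⟩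

lemma ex_zero (hN : IsFam B (RA B) (RB B) N) : Ex B N 0 ∅ :=
  Eventually.of_forall fun w => ⟨leaf w, rfl, rfl, (sat_iff hN).mpr fun r =>
    (ev_desc_of_le (Nat.zero_le r) _).mpr ⟨hN.leaf_mem w, fun _ h => h.elim⟩⟩

lemma ex_succ (hN : IsFam B (RA B) (RB B) N) (n : ℕ) (D : Set (ℕ × List ℕ)) (hD : D ⊆ Full n)
    (h : Ex B N n D) : Ex B N (n + 1) D := by
  by_contra hcon
  obtain ⟨η, φ, -, P, -, h3⟩ := fail_of_not_ex hN
    (fun d hd => ⟨(hD hd).1.trans (Nat.le_succ n), (hD hd).2⟩) hcon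
  obtain ⟨w, hw, b, rfl, hb⟩ := (h3.and_eventually h).exists
  obtain ⟨w', h4, h5⟩ := frequently_club_exists h3 b.apex
  exact h5.2 ⟨b, h4, hw.1, hb.1, hb.2, fun x _ μ hμ => absurd (hD hμ).1 (by simp)⟩

omit hΩ in
lemma sat_col (hN : IsFam B (RA B) (RB B) N) {D D' : Set (ℕ × List ℕ)} {ι : ℕ → ℕ}
    (hι : StrictMono ι) (hD : ∀ d ∈ D, (ι d.1, d.2.map ι) ∈ D') {t : ℕ} {c : Node Ω}
    (hc : c.rank = ι t) (h : Sat B N D' c) : Sat B N D (col ι t c) := by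
  rw [sat_iff hN] at h ⊢
  refine her_col hι hc fun s _ => (h _).mono fun e he hr => ⟨?_, fun μ hμ => ?_⟩
  · exact hN.col_mem e he.1 ι s hι fun i hi => hr ▸ hι hi
  · rw [rank_col] at hμ
    exact Dem.col hι hr (he.2 _ (hr ▸ hD _ hμ))

theorem exists_pre [Nonempty Ω] (hN : IsFam B (RA B) (RB B) N) :
    ∃ (h : ℕ) (W : Prm Ω) (η₀ : Ω) (ψ : Ω → Prop), FinP N η₀ W ∧ W.Nonempty ∧
      (∀ x ∈ W, x.2.length = h) ∧ (∃ᶠ w in club Ω, ψ w) ∧
      ∀ K η, ∀ φ ∈ Tr B (RA B) (RB B) N η, (∃ᶠ w in club Ω, ψ w ∧ φ w) →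
        ∃ ρ : Node Ω, ρ.rank = K ∧ η < ρ.apex ∧ φ ρ.apex ∧ Her (PreLoc B N h W) ρ := by
  have := club_neBot (Ω := Ω)
  rcases greedy_dichotomy (Ex B N) (ex_zero hN) (ex_succ hN) with hA | ⟨n, D, μ₀, hD, hμ₀, hE, hB⟩
  · obtain ⟨w0⟩ := ‹Nonempty Ω›
    refine ⟨0, {(leaf w0, [])}, w0, fun _ => True,
      ⟨finite_singleton _, by simpa using hN.leaf_mem w0⟩, singleton_nonempty _, by simp,
      (eventually_true _).frequently, fun K η φ _ hf => ?_⟩
    obtain ⟨w, ⟨h1, b, rfl, h2, h3⟩, h4⟩ :=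
      ((hf.and_eventually (hA K)).and_eventually (club_gt η)).exists
    refine ⟨b, h2, h4, h1.2, (((sat_iff hN).mp h3).and (her_rank b)).mono fun c hc =>
      ⟨hc.1.1, fun μ hμ _ => hc.1.2 μ ⟨h2 ▸ hc.2, hμ⟩, fun μ hμ hl => ?_⟩⟩
    exact absurd (List.length_eq_zero_iff.mp hl) hμ.1
  obtain ⟨n, rfl⟩ : ∃ m, n = m + 1 := ⟨n - 1, by have := hμ₀.pos; omega⟩
  have hD' : insert (n + 1, μ₀) D ⊆ Full (n + 1) := insert_subset ⟨le_rfl, hμ₀⟩ hD
  obtain ⟨η₁, φ₁, h1, P, hP, hf₁⟩ := fail_of_not_ex hN hD' hE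
  have hψ := tr_and h1 (tr_not (tr_ex h1 (R := RD B n (insert (n + 1, μ₀) D))
    (Or.inl ⟨(n, insert (n + 1, μ₀) D), (full_finite _).subset hD', rfl⟩)
    (W := ∅) ⟨finite_empty, by simp⟩ hP n ((full_finite _).subset hD')))
  refine ⟨μ₀.length, insert (leaf η₁, List.replicate μ₀.length 0) {x ∈ P | x.2.length = μ₀.length},
    η₁, _, ⟨(hP.1.subset (sep_subset _ _)).insert _, ?_⟩, insert_nonempty _ _, ?_, hf₁,
    fun K η φ hφ hf => ?_⟩
  · rintro x (rfl | hx)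
    · exact ⟨hN.leaf_mem _, le_rfl⟩
    · exact hP.2 x hx.1
  · rintro x (rfl | hx)
    · simp
    · exact hx.2
  obtain ⟨M, D', g, hD'', hE', hg, hgK, hs, hb⟩ := hB K
  obtain ⟨w, ⟨⟨h2, b, rfl, h3, h4⟩, h5⟩, h6⟩ := (((hf.and_eventually hE').and_eventually
    (club_gt η)).and_eventually (club_gt η₁)).exists
  rw [sat_iff hN] at h4
  have hbN := h4.self.1
  obtain ⟨c, ⟨e1, e2⟩, ⟨e3, e4⟩, e5, e6⟩ := (((h4.desc (g K)).and (desc_rank b (g K))).and
    (((hN.desc_gt hbN h5 _).and (hN.desc_gt hbN h6 _)).and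
      ((hN.desc_faith hbN h5 hφ h2.2 _).and (hN.desc_faith hbN h6 hψ h2.1 _)))).exists
  have hc : c.rank = g K := by omega
  refine ⟨col g K c, rank_col _ _ _, by rwa [apex_col], by rwa [apex_col],
    her_col hg hc fun t ht => ?_⟩
  filter_upwards [e1.desc (g t), hN.desc_gt e1.self.1 e4 _, hN.desc_faith e1.self.1 e4 hψ e6 _]
    with d f1 f2 f3 hr
  refine ⟨hN.col_mem d f1.self.1 g t hg fun i hi => hr ▸ hg hi, fun μ hμ hsm => ?_, fun μ hμ hl => ?_⟩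
  · rw [rank_col] at hμ
    have hl : μ.length < μ₀.length :=
      hsm.resolve_left fun h => hμ₀.1 (List.length_eq_zero_iff.mp h)
    exact Dem.col hg hr (f1.self.2 _ (hr ▸ hs t μ ht hμ hl))
  rw [rank_col] at hμ
  obtain ⟨ι, hι, k1, k2, k3⟩ := hb t μ ht hμ hl
  have hdι : d.rank = ι (n + 1) := hr.trans k1.symm
  have k4 := (sat_iff hN).mp (sat_col hN hι k3 hdι ((sat_iff hN).mpr f1))
  have k5 := k4.self.1
  have k0 : 0 < (col ι (n + 1) d).rank := by simp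
  have k6 : ∀ᶠ v in ((col ι (n + 1) d).ch : Filter (Node Ω)),
      ∃ z ∈ P ×ˢ {μ' | DecLt (n + 1) μ'}, (n + 1, z.2) ∈ insert (n + 1, μ₀) D ∧
        z.1.2.length = z.2.length ∧ H B z.1.1 v (z.2.zip z.1.2) d.apex := by
    filter_upwards [k4.ch k0, hN.ch_mem _ k5 k0, rank_ch _ k0,
      hN.faith _ k5 k0 η₁ (by rwa [apex_col]) φ₁ h1 (by rw [apex_col]; exact f3.1)]
      with v l1 l2 l3 l4
    rw [apex_col] at l2
    rw [rank_col] at l3
    by_contra hcon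
    push Not at hcon
    refine f3.2 ⟨v, l2.2, l4, by omega, (sat_iff hN).mpr ((l1.and (her_rank v)).mono fun e he =>
      ⟨he.1.1, fun ν hν => he.1.2 ν (hν.resolve_left fun h => ?_)⟩),
      fun x hx ν hν hl => hcon (x, ν) ⟨hx, (hD' hν).2⟩ hν hl⟩
    have := he.2
    simp only [Prod.mk.injEq] at h
    omega
  obtain ⟨⟨x, ν⟩, ⟨l1, l2⟩, l3⟩ := ev_exists_finite _ (hP.1.prod (decLt_finite (n + 1))) k6
  obtain ⟨_, l4, l5, -⟩ := l3.exists
  have l6 : H B x.1 (col ι (n + 1) d) (ν.zip x.2) d.apex :=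
    (H_zip_ch (by rwa [rank_col]) l5 _).mpr (l3.mono fun v hv => hv.2.2)
  rcases l4 with l4 | l4
  · obtain rfl : ν = μ₀ := congrArg Prod.snd l4
    refine ⟨x, Or.inr ⟨l1, l5⟩, ?_⟩
    rw [apex_col, H_zip_col hg _ _ _ _ _ _ hr, ← k2, ← H_zip_col hι _ _ _ _ _ _ hdι]
    exact l6
  · refine absurd l6 ?_
    have := k4.self.2 ν (by rwa [rank_col]) x.1 (hP.2 x l1).1
      (by rw [apex_col]; exact (hP.2 x l1).2.trans_lt f2) x.2 l5
    rwa [apex_col] at this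

end Pool.Agent.MP_71094f_lc.H37

end

section

set_option autoImplicit false

/-!
Good trees of every finite rank below one common top.
-/

namespace Pool.Agent.MP_71094f_lc.H37

open Filter Set Node

variable {Ω : Type} [LinearOrder Ω] (B : Ω → Ω → Ω → Prop) (N : Set (Node Ω))

/-- The local properties of a good tree. -/
def GLoc (h : ℕ) (m : Node Ω × List ℕ) (c : Node Ω) : Prop :=
  (c ∈ N ∧ ∀ μ, DecLt c.rank μ → sm h μ → Dem B N c μ) ∧ Loc B m c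

/-- An ultrafilter of good trees below a top. -/
def TopU (h : ℕ) (m : Node Ω × List ℕ) (w : Ω) (j : ℕ) (U : Ultrafilter (Node Ω)) : Prop :=
  (∀ η, η < w → ∀ φ ∈ Tr B (RA B) (RB B) N η, φ w → ∀ᶠ v in (U : Filter (Node Ω)), φ v.apex) ∧
  (∀ᶠ v in (U : Filter (Node Ω)), v.rank = j ∧ Her (GLoc B N h m) v ∧ v.apex < w ∧
    HitS B m v w ∧ J B v w) ∧
  ∀ p ∈ N, p.apex < w → ∀ μ α, DecLt (j + 1) μ → sm h μ → α.length = μ.length →
    ∀ᶠ v in (U : Filter (Node Ω)), ¬ H B p v (μ.zip α) w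

variable {B N}

omit [LinearOrder Ω] in
lemma phi_col {g : ℕ → ℕ} (hg : StrictMono g) {t s : ℕ} {d : Node Ω} (hd : d.rank = g t)
    (_hs : s ≤ t) (ω : List (ℕ × ℕ)) (y : Ω) :
    Phi B (col g t d) s ω y ↔ Phi B d (g s) (ω.map (Prod.map g g)) y := by
  unfold Phi
  rw [ev_desc_col hg hd]
  exact eventually_congr ((desc_rank_col hg hd s).mono fun c hc => H_col hg y ω c c _ _ hc hc)

/-- The decreasing list of the first values of a function. -/
def lu (u : ℕ → ℕ) (b : ℕ) : List ℕ := (List.range (b + 1)).reverse.map u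

/-- Reading a decreasing list from below. -/
def dec (l : List ℕ) (i : ℕ) : ℕ := l.reverse.getD i 0

lemma dec_lu (g u : ℕ → ℕ) {b i : ℕ} (hi : i ≤ b) : dec ((lu u b).map g) i = g (u i) := by
  simp [dec, lu, List.getD_eq_getElem?_getD, List.map_reverse, Nat.lt_succ_of_le hi]

lemma lu_decLt {u : ℕ → ℕ} (hu : StrictMono u) {b t : ℕ} (ht : u b < t) : DecLt t (lu u b) := by
  refine ⟨by simp [lu], List.pairwise_cons.mpr ⟨fun a ha => ?_, ?_⟩⟩
  · obtain ⟨i, hi, rfl⟩ := List.mem_map.mp ha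
    have : i ≤ b := by simpa [Nat.lt_succ_iff] using hi
    exact (hu.monotone this).trans_lt ht
  · unfold lu
    rw [List.pairwise_map, List.pairwise_reverse]
    exact List.pairwise_lt_range.imp fun h => hu h

lemma DecLt.cons_le {t K : ℕ} {μ : List ℕ} (h : DecLt t μ) (ht : t ≤ K) : ∀ i ∈ t :: μ, i ≤ K := by
  intro i hi
  rcases List.mem_cons.mp hi with rfl | hi
  · exact ht
  · exact (h.lt i hi).le.trans ht

theorem good_of_pre (hK : NoK4 B) (hN : IsFam B (RA B) (RB B) N) {h : ℕ} {W : Prm Ω} {η₀ : Ω}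
    (hW : FinP N η₀ W) (hne : W.Nonempty) (hl : ∀ x ∈ W, x.2.length = h) (k : ℕ) :
    ∃ K, ∀ ρ : Node Ω, ρ.rank = K → η₀ < ρ.apex → Her (PreLoc B N h W) ρ →
      ∀ Q : Ω → Prop, Her (fun c => Q c.apex) ρ →
        ∃ d : Node Ω, d.rank = k + 1 ∧ Q d.apex ∧ ∃ m ∈ W, Her (GLoc B N h m) d := by
  have hAW : {z : ℕ × List (ℕ × ℕ) | z.1 ≤ k ∧ AWord z.1 z.2}.Finite :=
    ((finite_Iic k).prod ((finite_Iic k).biUnion fun b _ => aWord_finite b)).subset
      fun z hz => ⟨hz.1, mem_biUnion hz.1 hz.2⟩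
  have := hW.1.to_subtype
  have := hAW.to_subtype
  obtain ⟨M, hM⟩ := finite_ramsey (k + k + 1 + h + 1) (k + k + 1 + h)
    (Set W × Set {z : ℕ × List (ℕ × ℕ) | z.1 ≤ k ∧ AWord z.1 z.2})
  refine ⟨M, fun ρ hρ hη hP Q hQ => ?_⟩
  obtain ⟨g, hg, hgM, hom⟩ := hM fun l => match l with
    | [] => (∅, ∅)
    | t :: μ => ({x | ∀ᶠ c in (ρ.desc t : Filter (Node Ω)), H B x.1.1 c (μ.zip x.1.2) c.apex},
      {z | ∀ᶠ d in (ρ.desc t : Filter (Node Ω)),
        Phi B d (dec μ z.1.1) (z.1.2.map (Prod.map (dec μ) (dec μ))) d.apex})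
  have hom' := fun t μ t' μ' (h1 : DecLt t μ) (h2 : DecLt t' μ') (h3 : t ≤ k + k + 1 + h)
    (h4 : t' ≤ k + k + 1 + h) (h5 : μ.length = μ'.length) =>
    hom (t :: μ) (t' :: μ') h1.2 h2.2 (h1.cons_le h3) (h2.cons_le h4) (by simp [h5])
      (by have := h1.length_le; simp only [List.length_cons]; omega)
  simp only [List.map_cons, Prod.mk.injEq] at hom'
  have hrk : ∀ t, t ≤ k + k + 1 + h → ∀ᶠ c in (ρ.desc (g t) : Filter (Node Ω)), c.rank = g t :=
    fun t ht => (desc_rank ρ _).mono fun c hc => by have := hg.monotone ht; omega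
  have hρN := hP.self.1
  obtain ⟨m, hm, hhit⟩ : ∃ m ∈ W, ∀ t μ, t ≤ k + k + 1 + h → DecLt t μ → m.2.length = μ.length →
      ∀ᶠ c in (ρ.desc (g t) : Filter (Node Ω)), H B m.1 c ((μ.map g).zip m.2) c.apex := by
    rcases h with _ | h
    · obtain ⟨m, hm⟩ := hne
      exact ⟨m, hm, fun t μ _ h1 h2 =>
        absurd (List.length_eq_zero_iff.mp (h2.symm.trans (hl m hm))) h1.1⟩
    · have h1 : DecLt (h + 1) (lu id h) := lu_decLt strictMono_id (Nat.lt_succ_self h)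
      have h2 : (lu id h).length = h + 1 := by simp [lu]
      obtain ⟨m, hm, h3⟩ : ∃ x ∈ W, ∀ᶠ c in (ρ.desc (g (h + 1)) : Filter (Node Ω)),
          H B x.1 c (((lu id h).map g).zip x.2) c.apex := by
        refine ev_exists_finite _ hW.1 ?_
        filter_upwards [hP (g (h + 1)), hrk (h + 1) (by omega)] with c e1 e2
        exact e1.2.2 _ (e2 ▸ h1.map hg) (by simpa using h2)
      refine ⟨m, hm, fun t μ ht h4 h5 => ?_⟩
      have := (hom' _ _ t μ h1 h4 (by omega) ht (by rw [h2, ← h5, hl m hm])).1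
      exact (Set.ext_iff.mp this ⟨m, hm⟩).mp h3
  have hAB : ∀ b ω, b ≤ k → AWord b ω → ∀ t u t' u', StrictMono u → StrictMono u' → u b < t →
      u' b < t' → t ≤ k + k + 1 + h → t' ≤ k + k + 1 + h →
      (∀ᶠ d in (ρ.desc (g t) : Filter (Node Ω)),
        Phi B d (g (u b)) ((ω.map (Prod.map u u)).map (Prod.map g g)) d.apex) →
      ∀ᶠ d in (ρ.desc (g t') : Filter (Node Ω)),
        Phi B d (g (u' b)) ((ω.map (Prod.map u' u')).map (Prod.map g g)) d.apex := by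
    intro b ω hb hω t u t' u' hu hu' h1 h2 h3 h4 h5
    have aux : ∀ v : ℕ → ℕ, ω.map (Prod.map (dec ((lu v b).map g)) (dec ((lu v b).map g))) =
        (ω.map (Prod.map v v)).map (Prod.map g g) := by
      intro v
      rw [List.map_map]
      refine List.map_congr_left fun e he => ?_
      have := hω.norm.le e he
      simp [Prod.map, dec_lu g v this.1, dec_lu g v this.2]
    have := (hom' _ _ _ _ (lu_decLt hu h1) (lu_decLt hu' h2) h3 h4 (by simp [lu])).2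
    have := Set.ext_iff.mp this ⟨(b, ω), hb, hω⟩
    simp only [mem_ofPred_eq, aux, dec_lu g _ le_rfl] at this
    exact this.mp h5
  have hA : ∀ b ω t, b ≤ k → AWord b ω → b < t → t ≤ k + k + 1 + h →
      ∀ᶠ d in (ρ.desc (g t) : Filter (Node Ω)), ¬ Phi B d (g b) (ω.map (Prod.map g g)) d.apex := by
    intro b ω t hb hω hbt ht
    rw [Ultrafilter.eventually_not]
    intro h1
    have hb0 : 0 < b := by obtain ⟨r, _, _, h, _⟩ := hω; omega
    have hu : up b b = b + b := by unfold up; split_ifs <;> omega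
    have h2 := fun t' u' => hAB b ω hb hω t id t' u' strictMono_id
    simp only [Prod.map_id, List.map_id, id] at h2
    have h3 := h2 (b + b + 1) id strictMono_id hbt (by simp only [id]; omega) ht (by omega) h1
    have h4 := h2 (b + b + 1) (up b) (up_strictMono b) hbt (by omega) ht (by omega) h1
    have h5 := h2 (b + b) id strictMono_id hbt (by simp only [id]; omega) ht (by omega) h1
    simp only [Prod.map_id, List.map_id, id, hu] at h3 h4 h5
    obtain ⟨d, ⟨e1, e2⟩, ⟨e3, e4⟩, e5⟩ := ((h3.and h4).and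
      (((hN.desc_mem hρN _).and (hrk (b + b + 1) (by omega))).and
        ((ev_desc_desc (hg.monotone (Nat.le_succ (b + b))) ρ _).mp h5))).exists
    refine killA hK hN hω (d := col g (b + b + 1) d)
      (hN.col_mem d e3.1 g _ hg fun i hi => e4 ▸ hg hi) (by simp) ?_ ?_ ?_
    · rw [apex_col, phi_col hg e4 (by omega)]; exact e1
    · rw [apex_col, phi_col hg e4 (by omega)]; exact e2
    · rw [ev_desc_col hg e4]
      filter_upwards [e5, desc_rank_col hg e4 (b + b)] with e f1 f2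
      rw [apex_col, phi_col hg f2 (by omega)]; exact f1
  have hfact : ∀ s ∈ Iic (k + 1), ∀ᶠ d in (ρ.desc (g (k + 1)) : Filter (Node Ω)),
      ∀ᶠ c in (d.desc (g s) : Filter (Node Ω)), c.rank = g s → GLoc B N h m (col g s c) := by
    intro s hs
    have hs' : s ≤ k + 1 := hs
    rw [← ev_desc_desc (hg.monotone hs')]
    have f1 := (eventually_all_finite (decLt_finite s)).mpr fun μ hμ => eventually_imp_distrib_left.mpr
      fun h' : m.2.length = μ.length => hhit s μ (by omega) hμ h'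
    have f2 := (eventually_all_finite hAW).mpr fun z hz => eventually_imp_distrib_left.mpr
      fun h' : z.1 < s => hA z.1 z.2 s hz.1 hz.2 h' (by omega)
    filter_upwards [f1, f2, hP (g s), hN.desc_gt hρN hη (g s)] with c e1 e2 e3 e4 hr
    refine ⟨⟨hN.col_mem c e3.1 g s hg fun i hi => hr ▸ hg hi, fun μ hμ hsm => ?_⟩, ?_,
      fun μ hμ hl' => ?_, fun b ω hω hb => ?_⟩
    · rw [rank_col] at hμ
      exact Dem.col hg hr (e3.2.1 _ (hr ▸ hμ.map hg) (by simpa [sm] using hsm))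
    · rw [apex_col]; exact (hW.2 m hm).2.trans_lt e4
    · rw [rank_col] at hμ
      rw [apex_col, H_zip_col hg _ _ _ _ _ _ hr]
      exact e1 μ hμ hl'
    · rw [rank_col] at hb
      rw [apex_col, phi_col hg hr hb.le]
      exact e2 (b, ω) ⟨by simp only; omega, hω⟩ hb
  obtain ⟨d, ⟨e1, e2⟩, e3⟩ := ((((eventually_all_finite (finite_Iic (k + 1))).mpr hfact).and
    (hrk (k + 1) (by omega))).and (hQ _)).exists
  exact ⟨col g (k + 1) d, rank_col _ _ _, by rwa [apex_col], m, hm, her_col hg e2 e1⟩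

lemma topU_of_good (hN : IsFam B (RA B) (RB B) N) {h : ℕ} {m : Node Ω × List ℕ} {a : Node Ω}
    (ha : Her (GLoc B N h m) a) {j : ℕ} (hj : a.rank = j + 1) : TopU B N h m a.apex j a.ch := by
  obtain ⟨⟨h1, h2⟩, -, h4, h5⟩ := ha.self
  have h0 : 0 < a.rank := by omega
  refine ⟨hN.faith a h1 h0, ?_, fun p hp hpa μ α hμ hsm hα => ?_⟩
  · have f1 := (eventually_all_finite (decLt_finite a.rank)).mpr fun μ hμ =>
      eventually_imp_distrib_left.mpr fun h' : m.2.length = μ.length =>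
        (H_zip_ch hμ h' _).mp (h4 μ hμ h')
    have hAW : {z : ℕ × List (ℕ × ℕ) | z.1 ≤ j ∧ AWord z.1 z.2}.Finite :=
      ((finite_Iic j).prod ((finite_Iic j).biUnion fun b _ => aWord_finite b)).subset
        fun z hz => ⟨hz.1, mem_biUnion hz.1 hz.2⟩
    have f2 : ∀ᶠ c in (a.ch : Filter (Node Ω)), ∀ z ∈ {z : ℕ × List (ℕ × ℕ) | z.1 ≤ j ∧ AWord z.1 z.2},
        ¬ Phi B c z.1 z.2 a.apex := by
      refine (eventually_all_finite hAW).mpr fun z hz => ?_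
      have hz1 : z.1 < a.rank := by have := hz.1; omega
      rw [Ultrafilter.eventually_not]
      exact fun h' => h5 z.1 z.2 hz.2 hz1 ((ev_desc_of_lt hz1 _).mpr h')
    filter_upwards [f1, f2, ha.ch h0, hN.ch_mem a h1 h0, rank_ch a h0] with c e1 e2 e3 e4 e5
    exact ⟨by omega, e3, e4.2, fun μ hμ hl => e1 μ (e5 ▸ hμ) hl,
      fun s ω hω hs => e2 (s, ω) ⟨by simp only; omega, hω⟩⟩
  · rw [Ultrafilter.eventually_not, ← H_zip_ch (hj ▸ hμ) hα]
    exact h2 μ (hj ▸ hμ) hsm p hp hpa α hα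

theorem exists_top [OmOne Ω] [Nonempty Ω] (hK : NoK4 B) (hN : IsFam B (RA B) (RB B) N) :
    ∃ (h : ℕ) (m : Node Ω × List ℕ) (w : Ω), m.1 ∈ N ∧ m.2.length = h ∧
      ∀ n, ∃ j, n ≤ j ∧ ∃ U, TopU B N h m w j U := by
  obtain ⟨h, W, η₀, ψ, hW, hne, hl, hψ, hpre⟩ := exists_pre hN
  have key : ∀ k ∈ (univ : Set ℕ), ∀ᶠ w in club Ω, ψ w →
      ∃ U, HasU B N (RG B h) W k {d ∈ Full k | sm h d.2} w U := by
    intro k _
    by_contra hcon
    obtain ⟨η, φ, h1, P, hP, hf⟩ := compact hN (RG B h) W k {d ∈ Full k | sm h d.2}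
      (fun P P' v w hP h => ⟨h.1, h.2.1, fun x hx => h.2.2 x (hP hx)⟩) ψ
      ((not_eventually.mp hcon).mono fun w hw => Classical.not_imp.mp hw)
    have h1' := tr_mono (le_max_left η η₀) h1
    have hφ := tr_and h1' (tr_not (tr_ex h1' (R := RG B h) (Or.inr ⟨h, rfl⟩)
      (hW.mono (le_max_right _ _)) (hP.mono (le_max_left _ _)) k
      ((full_finite k).subset (sep_subset _ fun d => sm h d.2))))
    obtain ⟨K, hK'⟩ := good_of_pre hK hN hW hne hl k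
    obtain ⟨ρ, e1, e2, e3, e4⟩ := hpre K _ _ hφ hf
    obtain ⟨d, f1, ⟨f2, f3, f4⟩, m, hm, f5⟩ := hK' ρ e1 ((le_max_right _ _).trans_lt e2) e4
      (fun y => max η η₀ < y ∧ φ y ∧ ¬ ExF B N φ (RG B h) W P k {d ∈ Full k | sm h d.2} y)
      fun r => (hN.desc_gt e4.self.1 e2 r).and (hN.desc_faith e4.self.1 e2 hφ e3 r)
    obtain ⟨g1, g2, g3⟩ := topU_of_good hN f5 f1
    have g4 : ∀ᶠ v in (d.ch : Filter (Node Ω)), ∀ z ∈ P ×ˢ {μ | DecLt (k + 1) μ}, sm h z.2 →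
        z.1.2.length = z.2.length → ¬ H B z.1.1 v (z.2.zip z.1.2) d.apex := by
      refine (eventually_all_finite (hP.1.prod (decLt_finite _))).mpr fun z hz => ?_
      exact eventually_imp_distrib_left.mpr fun k1 => eventually_imp_distrib_left.mpr fun k2 =>
        g3 _ (hP.2 _ hz.1).1 (((hP.2 _ hz.1).2.trans (le_max_left _ _)).trans_lt f2) _ _ hz.2 k1 k2
    obtain ⟨v, ⟨k1, k2⟩, k3⟩ := ((g2.and g4).and (g1 _ f2 φ h1' f3)).exists
    exact f4 ⟨v, k1.2.2.1, k3, k1.1, (sat_iff hN).mpr (k1.2.1.mono fun c hc =>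
      ⟨hc.1.1, fun μ hμ => hc.1.2 μ hμ.1.2 hμ.2⟩), ⟨m, hm, k1.2.1.mono fun c hc => hc.2, k1.2.2.2.1⟩,
      k1.2.2.2.2, fun x hx μ hμ => k2 (x, μ) ⟨hx, k1.1 ▸ hμ⟩⟩
  obtain ⟨w, ⟨h1, h2⟩, h3⟩ := ((hψ.and_eventually (club_countable countable_univ key)).and_eventually
    (club_gt η₀)).exists
  have h4 : ∀ k, ∃ m ∈ W, ∃ U, TopU B N h m w k U := by
    intro k
    obtain ⟨U, u1, u2, u3⟩ := h2 k trivial h1
    have u4 := u3 η₀ h3 ∅ ⟨finite_empty, by simp⟩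
    obtain ⟨m, hm, u5⟩ := ev_exists_finite U hW.1 (u4.mono fun v hv => hv.1)
    refine ⟨m, hm, U, u1, ?_, fun p hp hpw μ α hμ hsm hα => ?_⟩
    · filter_upwards [u2, u4, u5] with v e1 e2 e3
      refine ⟨e1.2.1, ((((sat_iff hN).mp e1.2.2).and (her_rank v)).and e3.1).mono fun c hc =>
        ⟨⟨hc.1.1.1, fun μ hμ hsm => hc.1.1.2 μ ⟨⟨e1.2.1 ▸ hc.1.2, hμ⟩, hsm⟩⟩, hc.2⟩,
        e1.1, e3.2, e2.2.1⟩
    · filter_upwards [u2, u3 _ hpw {(p, α)} ⟨finite_singleton _, by simpa using hp⟩] with v e1 e2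
      exact e2.2.2 (p, α) rfl μ (e1.2.1 ▸ hμ) hsm hα
  obtain ⟨m, hm, h5⟩ := (frequently_exists_finite hW.1 (l := atTop)
    (p := fun m k => ∃ U, TopU B N h m w k U)).mp (Frequently.of_forall h4)
  exact ⟨h, m, w, (hW.2 m hm).1, hl m hm, fun n => frequently_atTop.mp h5 n⟩

end Pool.Agent.MP_71094f_lc.H37

end

section

set_option autoImplicit false

/-!
The red set of type omega to the omega plus one.
-/

namespace Pool.Agent.MP_71094f_lc.H37

open Filter Set Node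

variable {Ω : Type} [LinearOrder Ω] {B : Ω → Ω → Ω → Prop} {N : Set (Node Ω)}

omit [LinearOrder Ω] in
lemma HitS.ch {m : Node Ω × List ℕ} {a : Node Ω} {y : Ω} (h : HitS B m a y) (h0 : 0 < a.rank) :
    ∀ᶠ c in (a.ch : Filter (Node Ω)), HitS B m c y := by
  have f1 := (eventually_all_finite (decLt_finite a.rank)).mpr fun μ hμ =>
    eventually_imp_distrib_left.mpr fun h' : m.2.length = μ.length =>
      (H_zip_ch hμ h' _).mp (h μ (DecLt.mono hμ (Nat.le_succ _)) h')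
  filter_upwards [f1, rank_ch a h0] with c e1 e2
  exact fun μ hμ hl => e1 μ (e2 ▸ hμ) hl

omit [LinearOrder Ω] in
lemma J.ch {a : Node Ω} {y : Ω} (h : J B a y) (h0 : 0 < a.rank) :
    ∀ᶠ c in (a.ch : Filter (Node Ω)), J B c y := by
  have hAW : {z : ℕ × List (ℕ × ℕ) | z.1 < a.rank ∧ AWord z.1 z.2}.Finite :=
    ((finite_Iio a.rank).prod ((finite_Iio a.rank).biUnion fun b _ => aWord_finite b)).subset
      fun z hz => ⟨hz.1, mem_biUnion hz.1 hz.2⟩
  have f2 : ∀ᶠ c in (a.ch : Filter (Node Ω)),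
      ∀ z ∈ {z : ℕ × List (ℕ × ℕ) | z.1 < a.rank ∧ AWord z.1 z.2}, ¬ Phi B c z.1 z.2 y := by
    refine (eventually_all_finite hAW).mpr fun z hz => ?_
    rw [Ultrafilter.eventually_not]
    exact fun h' => h z.1 z.2 hz.2 hz.1.le ((ev_desc_of_lt hz.1 _).mpr h')
  filter_upwards [f2, rank_ch a h0] with c e1 e2
  exact fun s ω hω hs => e1 (s, ω) ⟨by simp only; omega, hω⟩

lemma TopU.atom {h j : ℕ} {m : Node Ω × List ℕ} {w : Ω} {U : Ultrafilter (Node Ω)}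
    (hU : TopU B N h m w j U) {p q : Node Ω} (hp : p ∈ N) (hq : q ∈ N) (h1 : p.apex < w)
    (h2 : q.apex < w) {R : Rel1 Ω} (hR : R ∈ RA B) :
    (R p q w → ∀ᶠ c in (U : Filter (Node Ω)), R p q c.apex) ∧
    (¬ R p q w → ∀ᶠ c in (U : Filter (Node Ω)), ¬ R p q c.apex) :=
  ⟨hU.1 _ (max_lt h1 h2) _ (tr_atom hR hp hq (le_max_left _ _) (le_max_right _ _)),
    hU.1 _ (max_lt h1 h2) _ (tr_not (tr_atom hR hp hq (le_max_left _ _) (le_max_right _ _)))⟩

lemma TopU.gt {h j : ℕ} {m : Node Ω × List ℕ} {w : Ω} {U : Ultrafilter (Node Ω)}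
    (hU : TopU B N h m w j U) {p : Node Ω} (hp : p ∈ N) (h1 : p.apex < w) :
    ∀ᶠ c in (U : Filter (Node Ω)), p.apex < c.apex :=
  (hU.atom hp hp h1 h1 (RA_lt B)).1 h1

lemma TopU.notWin (hK : NoK4 B) (hN : IsFam B (RA B) (RB B) N) {h j : ℕ} {m : Node Ω × List ℕ}
    (hm : m.1 ∈ N) (hl : m.2.length = h) {w : Ω} {U : Ultrafilter (Node Ω)}
    (hU : TopU B N h m w j U) {a : Node Ω} (ha : Her (GLoc B N h m) a) (haw : a.apex < w)
    (hit : HitS B m a w) : ∀ᶠ c in (U : Filter (Node Ω)), ¬ Win B a c w := by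
  rw [Ultrafilter.eventually_not]
  intro hw
  obtain ⟨ω, hω, h1⟩ := win_M_gen U (hU.2.1.mono fun v hv => hv.1) hw
  have haN := ha.self.1.1
  by_cases hs : sm h (ω.map Prod.fst)
  · have h2 := hU.2.2 a haN haw _ (ω.map Prod.snd) hω.decLt hs (by simp)
    rw [List.zip_map', List.map_id'] at h2
    exact Ultrafilter.eventually_not.mp h2 h1
  simp only [sm, List.length_map, not_or, not_lt] at hs
  obtain ⟨h', rfl⟩ : ∃ h', h = h' + 1 := ⟨h - 1, by omega⟩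
  obtain ⟨q1, q2⟩ := hω.lx_spec h' (by omega)
  obtain ⟨q3, q4⟩ := hω.lz_spec h' (by omega)
  have h2 := hit _ q1 (by omega)
  have h3 := ha.self.2.1
  obtain ⟨v, ⟨e1, e2⟩, e3, e4⟩ := ((h1.and hU.2.1).and ((hU.gt haN haw).and
    ((hU.atom hm haN (h3.trans haw) haw (RA_H B _)).1 h2))).exists
  exact killS hK hN w hω h' m.2 m.1 a v (by omega) hl hm haN e2.2.1.self.1.1 h3 e3 e2.2.2.1 rfl
    e1 h2 e4 (e2.2.2.2.1 _ (e2.1 ▸ q3) (by omega))

/-- The regular shapes of finite rank. -/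
def sg : ℕ → Shape
  | 0 => Shape.leaf
  | r + 1 => Shape.node fun _ => sg r

lemma sg_sub : ∀ (r : ℕ) (l : List ℕ), l.length = r → (sg r).sub l = some Shape.leaf
  | 0, [], _ => rfl
  | r + 1, _ :: l, h => sg_sub r l (by simpa using h)

/-- Addresses of the points of the red set. -/
def Adr (k : ℕ → ℕ) (a : List ℕ) : Prop := a = [] ∨ ∃ n l, l.length = k n ∧ a = n :: l

theorem red_of_noK4 [OmOne Ω] [Nonempty Ω] (hK : NoK4 B) :
    ∃ (k : ℕ → ℕ) (f : List ℕ → Ω), (∀ n, n ≤ k n) ∧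
      (∀ a c, Adr k a → Adr k c → prec a c → f a < f c) ∧
      ∀ a b c, Adr k a → Adr k b → Adr k c → prec a b → prec b c → ¬ B (f a) (f b) (f c) := by
  classical
  obtain ⟨N, hN⟩ := exists_fam B (RA B) (RB B) (RA_lt B)
  obtain ⟨h, m, w, hm, hl, htop⟩ := exists_top hK hN
  choose k hk U hU using htop
  let G : Node Ω → Prop := Her (GLoc B N h m)
  let ap : Option (Node Ω) → Ω := fun y => y.elim w apex
  let mv : Option (Node Ω) → ℕ → Ultrafilter (Node Ω) := fun y n => y.elim (U n) ch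
  let act : Option (Node Ω) → Prop := fun y => y.elim True fun a => 0 < a.rank
  let D : Option (Node Ω) → ℕ → Filter (Option (Node Ω)) := fun y n =>
    if act y then map some (mv y n) else ⊥
  let T : Option (Node Ω) → Prop := fun y => ∀ a, y = some a → G a
  have hD : ∀ y n (P : Option (Node Ω) → Prop),
      (act y → ∀ᶠ c in (mv y n : Filter (Node Ω)), P (some c)) → ∀ᶠ x in D y n, P x := by
    intro y n P hP
    by_cases hy : act y
    · simp only [D, if_pos hy]; exact hP hy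
    · simp only [D, if_neg hy]; exact eventually_bot
  have hT : ∀ y n, T y → act y → ∃ j, TopU B N h m (ap y) j (mv y n) := by
    rintro (_ | a) n h1 h2
    · exact ⟨_, hU n⟩
    · exact ⟨a.rank - 1, topU_of_good hN (h1 a rfl) (by have : 0 < a.rank := h2; omega)⟩
  have hTs : ∀ a, G a → T (some a) := fun a ha b hb => Option.some.inj hb ▸ ha
  have hG : ∀ a, G a → a ∈ N := fun a ha => ha.self.1.1
  let S : Sys (Option (Node Ω)) :=
    { D := D
      Fit := fun y σ => σ = y.elim (Shape.node fun n => sg (k n)) fun a => sg a.rank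
      R111 := fun x y z => ∃ a b, x = some a ∧ y = some b ∧ G a ∧ G b ∧ T z ∧ a.apex < b.apex ∧
        b.apex < ap z ∧ ¬ Win B a b (ap z)
      R21 := fun x z => ∃ a, x = some a ∧ G a ∧ T z ∧ a.apex < ap z ∧ J B a (ap z)
      R12 := fun x y => ∃ a, x = some a ∧ G a ∧ T y ∧ a.apex < ap y ∧ HitS B m a (ap y)
      R3 := T
      fit_ne := by
        intro y c n hy
        have : act y := by
          rcases y with _ | a
          · trivial
          · refine Nat.pos_of_ne_zero fun h0 => ?_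
            simp only [Option.elim, h0, sg] at hy
            cases hy
        simp only [D, if_pos this]
        exact map_neBot
      fit := by
        rintro (_ | a) c n _ hy
        · refine hD _ _ _ fun _ => (hU n).2.1.mono fun v hv => ?_
          simp only [Option.elim, Shape.node.injEq] at hy ⊢
          rw [hy, hv.1]
        · refine hD _ _ _ fun h0 => (rank_ch a h0).mono fun v hv => ?_
          simp only [Option.elim, ← hv, sg, Shape.node.injEq] at hy ⊢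
          rw [hy]
      h111a := by
        rintro _ _ z n ⟨a, b, rfl, rfl, h1, h2, h3, h4, h5, h6⟩
        refine hD _ _ _ fun h0 => ?_
        filter_upwards [h1.ch h0, hN.ch_mem a (hG a h1) h0, win_L h0 h6] with c e1 e2 e3
        exact ⟨c, b, rfl, rfl, e1, h2, h3, e2.2.trans h4, h5, e3⟩
      h111b := by
        rintro _ _ z n ⟨a, b, rfl, rfl, h1, h2, h3, h4, h5, h6⟩
        refine hD _ _ _ fun h0 => ?_
        obtain ⟨j, hj⟩ := hT _ n (hTs b h2) h0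
        filter_upwards [hj.2.1, hj.gt (hG a h1) h4, win_M h0 h6] with c e1 e2 e3
        exact ⟨a, c, rfl, rfl, h1, e1.2.1, h3, e2, e1.2.2.1.trans h5, e3⟩
      h111c := by
        rintro _ _ z n ⟨a, b, rfl, rfl, h1, h2, h3, h4, h5, h6⟩
        refine hD _ _ _ fun h0 => ?_
        obtain ⟨j, hj⟩ := hT _ n h3 h0
        filter_upwards [hj.2.1, hj.gt (hG b h2) h5,
          (hj.atom (hG a h1) (hG b h2) (h4.trans h5) h5 (RA_win B)).2 h6] with c e1 e2 e3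
        exact ⟨a, b, rfl, rfl, h1, h2, hTs c e1.2.1, h4, e2, e3⟩
      h21 := by
        rintro _ z n ⟨a, rfl, h1, h2, h3, h4⟩
        refine hD _ _ _ fun h0 => ?_
        filter_upwards [h1.ch h0, hN.ch_mem a (hG a h1) h0, h4.ch h0, win_A h0 fun ω hω h5 =>
          h4 _ ω hω le_rfl ((ev_desc_of_le le_rfl _).mpr h5)] with c e1 e2 e3 e4
        exact ⟨⟨c, a, rfl, rfl, e1, h1, h2, e2.2, h3, e4⟩, c, rfl, e1, h2, e2.2.trans h3, e3⟩
      h21c := by
        rintro _ z n ⟨a, rfl, h1, h2, h3, h4⟩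
        refine hD _ _ _ fun h0 => ?_
        obtain ⟨j, hj⟩ := hT _ n h2 h0
        filter_upwards [hj.2.1, hj.gt (hG a h1) h3,
          (hj.atom (hG a h1) (hG a h1) h3 h3 (RA_J B)).1 h4] with c e1 e2 e3
        exact ⟨a, rfl, h1, hTs c e1.2.1, e2, e3⟩
      h12a := by
        rintro _ z n ⟨a, rfl, h1, h2, h3, h4⟩
        refine hD _ _ _ fun h0 => ?_
        filter_upwards [h1.ch h0, hN.ch_mem a (hG a h1) h0, h4.ch h0] with c e1 e2 e3
        exact ⟨c, rfl, e1, h2, e2.2.trans h3, e3⟩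
      h12 := by
        rintro _ z n ⟨a, rfl, h1, h2, h3, h4⟩
        refine hD _ _ _ fun h0 => ?_
        obtain ⟨j, hj⟩ := hT _ n h2 h0
        filter_upwards [hj.2.1, hj.gt (hG a h1) h3, hj.notWin hK hN hm hl h1 h3 h4,
          (hj.atom hm (hG a h1) (h1.self.2.1.trans h3) h3 (RA_Hit B m.2)).1 h4] with c e1 e2 e3 e4
        exact ⟨⟨a, c, rfl, rfl, h1, e1.2.1, h2, e2, e1.2.2.1, e3⟩, a, rfl, h1, hTs c e1.2.1, e2, e4⟩
      h3 := by
        intro z n h1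
        refine hD _ _ _ fun h0 => ?_
        obtain ⟨j, hj⟩ := hT _ n h1 h0
        filter_upwards [hj.2.1] with c e1
        exact ⟨⟨c, rfl, e1.2.1, h1, e1.2.2.1, e1.2.2.2.1⟩, ⟨c, rfl, e1.2.1, h1, e1.2.2.1, e1.2.2.2.2⟩,
          hTs c e1.2.1⟩ }
  obtain ⟨g, hg1, hg2, hg3⟩ := S.select (Shape.node fun n => sg (k n)) none rfl
    (fun _ h => by cases h)
  have hv : ∀ a, Adr k a → ((Shape.node fun n => sg (k n)).sub a).isSome := by
    rintro a (rfl | ⟨n, l, h1, rfl⟩)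
    · rfl
    · simp [Shape.sub, sg_sub _ l h1]
  have hz : ∀ a c x, Adr k a → prec a c → g a = some x → x.rank = 0 := by
    rintro a c x (rfl | ⟨n, l, h1, rfl⟩) hp hx
    · exact absurd hp (by simp [prec])
    · have := hg1 (n :: l) Shape.leaf (sg_sub _ l h1)
      rw [hx] at this
      rcases hr : x.rank with _ | r
      · rfl
      · simp only [S, Option.elim, hr, sg] at this
        cases this
  refine ⟨k, fun a => ap (g a), hk, fun a c ha hc hac => ?_, fun a b c ha hb hc hab hbc => ?_⟩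
  · obtain ⟨x, h1, -, -, h2, -⟩ := hg2 a c (hv a ha) (hv c hc) hac
    simp only [h1]
    exact h2
  · obtain ⟨x, y, h1, h2, -, -, -, -, -, h3⟩ := hg3 a b c (hv a ha) (hv b hb) (hv c hc) hab hbc
    simp only [h1, h2]
    exact win_leaf (hz a b x ha hab h1) (hz b c y hb hbc h2) h3

end Pool.Agent.MP_71094f_lc.H37

end
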